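import Pool.Agent.H90.Frc.Tools
import Pool.Agent.H51.Hfc.Stmt

/-!
# Transfer below a condition
-/

set_option autoImplicit false

namespace Pool.Agent.H16.HD

open Pool.Agent.H90.Frc Pool.Agent.H51.Hfc Ordinal

/-- The transfer principle `Gen.tp` below a condition of the generic filter. -/
theorem tpq {P : Type} [PartialOrder P] {g : Gen P} {n : ℕ} {v : Fin n → Name P}
    {a : Fin n → g.M} (ha : ∀ i, g.Den (v i) (a i)) {R S : Pred n} (hR : Dfn R) (hS : Dfn S)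
    {q₀ : P} (h₀ : q₀ ∈ g.G)
    (H : ∀ p ≤ q₀, Fc p v R → ∃ q ≤ p, ∃ L : Set (Name P), L.Countable ∧
      ∀ g : Gen P, q ∈ g.G → (∀ τ ∈ L, ∃ b, g.Den τ b) → ∀ a : Fin n → g.M,
      (∀ i, g.Den (v i) (a i)) → R g.M g.E a → S g.M g.E a) (h : R g.M g.E a) :
    S g.M g.E a := by
  by_contra hcon
  obtain ⟨p, hp, hf⟩ := (Fc.truth (hR.and hS.not) ha).1 ⟨h, hcon⟩
  obtain ⟨r, hr, h1, h2⟩ := g.dir p hp q₀ h₀
  have hfr := hf.mono h1
  obtain ⟨q, hq, L, hL, H'⟩ := H r h2 (hfr.imp fun _ _ _ h => h.1)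
  have h3 : Fc q v S := Fc.with_names hS hL fun g' hg' hgL a' ha' =>
    H' g' hg' hgL a' ha' ((hfr.mono hq) g' hg' a' ha').1
  exact h3.absurd ((hfr.mono hq).imp fun _ _ _ h => h.2)

end Pool.Agent.H16.HD
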