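import Pool.Agent.H16.HD.Poset

/-!
# Cardinalities (module HD-CARD)

* `mk_pkR_le`: a condition `r : Pk` with support in `R` is determined by its graph, which is a countable
  subset of `R × List ℕ`; if `#R ≤ 𝔠` the set of countable subsets of a set of size `≤ 𝔠` has size
  `≤ 𝔠 ^ ℵ₀ = 𝔠` (`Cardinal.mk_subset_ge_of_subset_image`, or: every such `r` is of the form: some function
  `ℕ → R × List ℕ` enumerates its graph, so there is a surjection from `ℕ → Option (R × List ℕ)`; `Cardinal.continuum_power_aleph0`).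
* `mk_cl_le`: `q : Cl` is determined by `q.len : Ix` and a function on the countable set `Set.Iio q.len` with values in `Mu`:
  `#Cl ≤ #Ix * sup (#Mu ^ #(Set.Iio δ)) ≤ ℵ₁ * 𝔠 ^ ℵ₀ ≤ 𝔠`.
* `mk_ctblR_le`: countable subsets `N` of `Ix × Cd` all of whose elements have support in `R`: at most
  `(ℵ₁ * 𝔠 * 𝔠) ^ ℵ₀ = 𝔠`.
* `exists_dec`: a surjection from `Mu = ℕ → Bool` (of size `𝔠`) onto the nonempty set `{r : Pk | r.supp ⊆ R}`.
* `exists_notMem`: `#Kp = 𝔠⁺ > 𝔠`.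
-/

set_option autoImplicit false

namespace Pool.Agent.H16.HD

open Pool.Agent.H90.Frc Cardinal Ordinal

theorem mk_ctbl_subsets {α : Type} {A : Set α} (hA : #A ≤ 𝔠) :
    #{t : Set α | t ⊆ A ∧ t.Countable} ≤ 𝔠 := by
  have h1 : #{t : Set α | t ⊆ A ∧ t.Countable} ≤ #{t : Set α // t ⊆ A ∧ #t ≤ ℵ₀} := by
    refine mk_le_of_injective (f := fun t => ⟨t.1, t.2.1, le_aleph0_iff_set_countable.2 t.2.2⟩) ?_
    intro t t' h
    exact Subtype.ext (Subtype.mk.inj h)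
  refine h1.trans ((mk_bounded_subset_le A ℵ₀).trans ?_)
  have h2 : max #A ℵ₀ ≤ 𝔠 := max_le hA aleph0_le_continuum
  exact (power_le_power_right h2).trans continuum_power_aleph0.le

theorem mk_biUnion_le_c {ι α : Type} {s : Set ι} {f : ι → Set α} (hs : #s ≤ 𝔠)
    (hf : ∀ i ∈ s, #(f i) ≤ 𝔠) : #(⋃ i ∈ s, f i : Set α) ≤ 𝔠 := by
  refine (mk_biUnion_le f s).trans ?_
  have h : ⨆ x : s, #(f x) ≤ 𝔠 := ciSup_le' fun x => hf x x.2
  exact (mul_le_mul' hs h).trans (mul_eq_self aleph0_le_continuum).le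

theorem mk_prod_le_c {α β : Type} (h : #α ≤ 𝔠) (h' : #β ≤ 𝔠) : #(α × β) ≤ 𝔠 := by
  rw [mk_prod, Cardinal.lift_id, Cardinal.lift_id]
  exact (mul_le_mul' h h').trans (mul_eq_self aleph0_le_continuum).le

theorem mk_ix_le : #Ix ≤ 𝔠 := by rw [mk_ix]; exact aleph_one_le_continuum

theorem mk_mu : #Mu = 𝔠 := by
  rw [← power_def, mk_bool, mk_nat, two_power_aleph0]

theorem mk_pkR_le {R : Set Kp} (hR : #R ≤ 𝔠) : #{r : Pk | r.supp ⊆ R} ≤ 𝔠 := by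
  have hA : #{z : Kp × List ℕ | z.1 ∈ R} ≤ 𝔠 := by
    have h1 : #{z : Kp × List ℕ | z.1 ∈ R} ≤ #(R × List ℕ) := by
      refine mk_le_of_injective (f := fun z => (⟨z.1.1, z.2⟩, z.1.2)) ?_
      rintro ⟨⟨a, b⟩, h⟩ ⟨⟨a', b'⟩, h'⟩ e
      simp only [Prod.mk.injEq, Subtype.mk.injEq] at e
      obtain ⟨rfl, rfl⟩ := e
      rfl
    refine h1.trans (mk_prod_le_c hR ?_)
    exact mk_le_aleph0.trans aleph0_le_continuum
  refine le_trans ?_ (mk_ctbl_subsets hA)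
  refine mk_le_of_injective (f := fun r => ⟨{z | r.1.r z.1 = z.2 ∧ z.2 ≠ []}, ?_, ?_⟩) ?_
  · rintro ⟨j, w⟩ ⟨h1, h2⟩
    refine r.2 (a := j) ?_
    rw [Pk.mem_supp]
    change r.1.r j = w at h1
    rw [h1]
    exact h2
  · have h3 : ((fun j : Kp => (j, r.1.r j)) '' {i | r.1.r i ≠ []}).Countable :=
      r.1.hr.image _
    refine h3.mono ?_
    rintro ⟨j, w⟩ ⟨h1, h2⟩
    change r.1.r j = w at h1
    change w ≠ [] at h2
    subst h1
    exact ⟨j, h2, rfl⟩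
  · rintro ⟨r, hr⟩ ⟨r', hr'⟩ e
    have e' : {z : Kp × List ℕ | r.r z.1 = z.2 ∧ z.2 ≠ []} =
        {z : Kp × List ℕ | r'.r z.1 = z.2 ∧ z.2 ≠ []} := Subtype.mk.inj e
    refine Subtype.ext (Pk.ext_r fun i => ?_)
    change r.r i = r'.r i
    by_cases h : r.r i = []
    · by_cases h' : r'.r i = []
      · rw [h, h']
      · have h1 : (i, r'.r i) ∈ {z : Kp × List ℕ | r'.r z.1 = z.2 ∧ z.2 ≠ []} := ⟨rfl, h'⟩
        rw [← e'] at h1
        exact h1.1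
    · have h1 : (i, r.r i) ∈ {z : Kp × List ℕ | r.r z.1 = z.2 ∧ z.2 ≠ []} := ⟨rfl, h⟩
      rw [e'] at h1
      exact h1.1.symm

theorem mk_cl_le : #Cl ≤ 𝔠 := by
  have hA : #(Set.univ : Set (Ix × Mu)) ≤ 𝔠 := by
    rw [mk_univ]
    exact mk_prod_le_c mk_ix_le mk_mu.le
  refine le_trans ?_ (mk_ctbl_subsets hA)
  refine mk_le_of_injective (f := fun q : Cl => ⟨{z | q.c z.1 = some z.2}, fun _ _ => trivial, ?_⟩) ?_
  · have h3 : ((fun ξ : Ix => (ξ, q.br ξ)) '' Set.Iio q.len).Countable :=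
      (countable_lt q.len).image _
    refine h3.mono ?_
    rintro ⟨ξ, m⟩ h
    change q.c ξ = some m at h
    have hξ : ξ < q.len := (q.h ξ).1 (by rw [h]; simp)
    refine ⟨ξ, hξ, ?_⟩
    have h4 := q.c_of_lt hξ
    rw [h] at h4
    change (ξ, q.br ξ) = (ξ, m)
    rw [Option.some.inj h4]
  · intro q q' e
    have e' : {z : Ix × Mu | q.c z.1 = some z.2} = {z : Ix × Mu | q'.c z.1 = some z.2} :=
      Subtype.mk.inj e
    apply Cl.ext_c
    funext ξ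
    have key : ∀ m, q.c ξ = some m ↔ q'.c ξ = some m := by
      intro m
      have h1 : (ξ, m) ∈ {z : Ix × Mu | q.c z.1 = some z.2} ↔
        (ξ, m) ∈ {z : Ix × Mu | q'.c z.1 = some z.2} := by rw [e']
      exact h1
    exact Option.ext key

theorem mk_cdR_le {R : Set Kp} (hR : #R ≤ 𝔠) : #{q : Cd | InR R q} ≤ 𝔠 := by
  have h1 : #{q : Cd | InR R q} ≤ #(Cl × {r : Pk | r.supp ⊆ R}) := by
    refine mk_le_of_injective (f := fun q => (q.1.1, ⟨q.1.2, q.2⟩)) ?_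
    rintro ⟨⟨a, b⟩, h⟩ ⟨⟨a', b'⟩, h'⟩ e
    simp only [Prod.mk.injEq, Subtype.mk.injEq] at e
    obtain ⟨rfl, rfl⟩ := e
    rfl
  exact h1.trans (mk_prod_le_c mk_cl_le (mk_pkR_le hR))

theorem mk_ctblR_le {R : Set Kp} (hR : #R ≤ 𝔠) :
    #{N : Set (Ix × Cd) | N.Countable ∧ ∀ z ∈ N, InR R z.2} ≤ 𝔠 := by
  have hA : #{z : Ix × Cd | InR R z.2} ≤ 𝔠 := by
    have h1 : #{z : Ix × Cd | InR R z.2} ≤ #(Ix × {q : Cd | InR R q}) := by
      refine mk_le_of_injective (f := fun z => (z.1.1, ⟨z.1.2, z.2⟩)) ?_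
      rintro ⟨⟨a, b⟩, h⟩ ⟨⟨a', b'⟩, h'⟩ e
      simp only [Prod.mk.injEq, Subtype.mk.injEq] at e
      obtain ⟨rfl, rfl⟩ := e
      rfl
    exact h1.trans (mk_prod_le_c mk_ix_le (mk_cdR_le hR))
  refine le_trans ?_ (mk_ctbl_subsets hA)
  refine mk_le_of_injective (f := fun N => ⟨N.1, fun z hz => N.2.2 z hz, N.2.1⟩) ?_
  intro N N' e
  exact Subtype.ext (Subtype.mk.inj e)

theorem exists_dec {R : Set Kp} (hR : #R ≤ 𝔠) :
    ∃ dec : Mu → Pk, (∀ m, (dec m).supp ⊆ R) ∧ ∀ r : Pk, r.supp ⊆ R → ∃ m, dec m = r := by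
  classical
  have h1 : #{r : Pk | r.supp ⊆ R} ≤ #Mu := (mk_pkR_le hR).trans mk_mu.ge
  rw [Cardinal.le_def] at h1
  obtain ⟨e⟩ := h1
  have hne : Nonempty {r : Pk | r.supp ⊆ R} := ⟨⟨⊤, fun i hi => absurd rfl hi⟩⟩
  refine ⟨fun m => (Function.invFun e m).1, fun m => (Function.invFun e m).2, fun r hr => ?_⟩
  exact ⟨e ⟨r, hr⟩, congrArg Subtype.val (Function.leftInverse_invFun e.injective ⟨r, hr⟩)⟩

theorem exists_notMem {R : Set Kp} (hR : #R ≤ 𝔠) : ∃ b, b ∉ R := by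
  by_contra hcon
  push Not at hcon
  have h1 : #Kp ≤ #R := mk_le_of_injective (f := fun b => ⟨b, hcon b⟩) fun b c h => Subtype.mk.inj h
  have h2 : #Kp = Order.succ 𝔠 := mk_ord_toType _
  rw [h2] at h1
  exact absurd (h1.trans hR) (not_le.2 (Order.lt_succ _))

end Pool.Agent.H16.HD
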