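import Pool.Agent.H16.HD.Tree

/-!
# Names for subsets of `ω₁`, the data attached to the nodes of the tree (module HD-NODE)

A set `N` of pairs `(ξ, a)`, `ξ : Ix`, `a : Cd`, stands for the name of the set of all `ξ` such that `(ξ, a) ∈ N` for some
`a` in the generic filter.

`Unb N q`: `q` forces that this set is unbounded.  `Nc x N q`: `q` forces that the function from `ω₁` to `2` given by `x` is not
constant on this set; `x ξ i q` stands for: `q` forces that the value at `ξ` is `i`.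

For a branch `φ` and `η : Ix` let `s = Tr φ η`, `c = ofBr φ (sc η)`, `(c', ρ) = pk η c s ≤ (c, mix R (dec (φ η)) s)` and
`i = pb η c s` with `x η i (c', ρ)`.  The node `(φ, η)` carries the pair `nd φ η = (η, (c', mix R ρ ⊤))`, the finite set
`chF = {j ∉ R | s.r j ≠ [] ∧ ρ.r j ≠ s.r j}` (finite since `(c', ρ).2 ≤ mix R (dec (φ η)) s`), the change `ch φ η = mkCh chF ρ.r` and
the value `vl φ η = i`.

`node_le`: `q.2 ≤ ρ` is checked with `le_mix_iff` (`ρ = mix R ρ ρ`, `mix_self`).  On `R`: `mix R q.2 ⊤ ≤ mix R (mix R ρ ⊤) ⊤ =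
mix R ρ ⊤` by `mix_top_mono`, `mix_mix_left`.  Off `R`: by `tr_hle_nx` and `ap_hle`, `Hle (ap a (Tr φ ξ)) (ap a (nx φ η))` and
`ap a (nx φ η) = mix R ⊤ ρ`: for `j ∈ chF` both sides have the value `ρ.r j` (`ap_mkCh_of_mem`, `keys_mkCh`); for `j ∉ chF` use
`ap_of_notMem` and `hz_of_mem` (`j ∈ R`), `hz_of_supp` (`s.r j ≠ []`, then `ρ.r j = s.r j` as `j ∉ chF`), `hz_of_nil`.
-/

set_option autoImplicit false

namespace Pool.Agent.H16.HD

open Pool.Agent.H90.Frc Cardinal Ordinal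

/-- `q` forces that the set named by `N` is unbounded -/
def Unb (N : Set (Ix × Cd)) (q : Cd) : Prop :=
  ∀ γ : Ix, ∀ q' ≤ q, ∃ q'' ≤ q', ∃ z ∈ N, γ ≤ z.1 ∧ q'' ≤ z.2

/-- `q` forces that the function described by `x` is not constant on the set named by `N` -/
def Nc (x : Ix → Bool → Cd → Prop) (N : Set (Ix × Cd)) (q : Cd) : Prop :=
  ∀ i, ∀ q' ≤ q, ∃ q'' ≤ q', ∃ z ∈ N, q'' ≤ z.2 ∧ x z.1 i q''

theorem Unb.mono {N : Set (Ix × Cd)} {q q' : Cd} (h : Unb N q) (hq : q' ≤ q) : Unb N q' :=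
  fun γ r hr => h γ r (hr.trans hq)

theorem Nc.mono {x : Ix → Bool → Cd → Prop} {N : Set (Ix × Cd)} {q q' : Cd} (h : Nc x N q)
    (hq : q' ≤ q) : Nc x N q' :=
  fun i r hr => h i r (hr.trans hq)

/-- `x` describes a function from `ω₁` to `2` -/
structure XV (x : Ix → Bool → Cd → Prop) : Prop where
  mono : ∀ ξ i q q', x ξ i q → q' ≤ q → x ξ i q'
  dec : ∀ ξ q, ∃ q' ≤ q, ∃ i, x ξ i q'
  cons : ∀ ξ q, x ξ true q → x ξ false q → False

theorem XV.cons' {x : Ix → Bool → Cd → Prop} (hx : XV x) {ξ : Ix} {i : Bool} {q : Cd}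
    (h : x ξ i q) (h' : x ξ (!i) q) : False := by
  cases i
  · exact hx.cons ξ q h' h
  · exact hx.cons ξ q h h'

/-- the data chosen at the nodes -/
structure Pick (R : Set Kp) (x : Ix → Bool → Cd → Prop) where
  /-- enumeration of the conditions with support in `R` -/
  dec : Mu → Pk
  dec_supp : ∀ m, (dec m).supp ⊆ R
  dec_surj : ∀ r : Pk, r.supp ⊆ R → ∃ m, dec m = r
  /-- the chosen condition -/
  pk : Ix → Cl → Pk → Cd
  /-- the value of the function -/
  pb : Ix → Cl → Pk → Bool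
  pk_le : ∀ η c s, pk η c s ≤ (c, mix R (dec (c.br η)) s)
  pk_spec : ∀ η c s, x η (pb η c s) (pk η c s)

theorem exists_pick {R : Set Kp} {x : Ix → Bool → Cd → Prop} (hx : XV x) {dec : Mu → Pk}
    (h1 : ∀ m, (dec m).supp ⊆ R) (h2 : ∀ r : Pk, r.supp ⊆ R → ∃ m, dec m = r) :
    Nonempty (Pick R x) := by
  have h : ∀ (η : Ix) (c : Cl) (s : Pk), ∃ q ≤ ((c, mix R (dec (c.br η)) s) : Cd), ∃ i, x η i q :=
    fun η c s => hx.dec η _
  choose pk hpk pb hpb using h
  exact ⟨⟨dec, h1, h2, pk, pb, hpk, hpb⟩⟩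

variable {R : Set Kp} {x : Ix → Bool → Cd → Prop} (P : Pick R x)

namespace Pick

/-- the conditions along a branch -/
noncomputable def T (φ : Ix → Mu) (ξ : Ix) : Pk := Tr R (fun η c s => (P.pk η c s).2) φ ξ

/-- the chosen condition at a node -/
noncomputable def nq (φ : Ix → Mu) (η : Ix) : Cd := P.pk η (ofBr φ (sc η)) (P.T φ η)

/-- the pair attached to a node -/
noncomputable def nd (φ : Ix → Mu) (η : Ix) : Ix × Cd :=
  (η, ((P.nq φ η).1, mix R (P.nq φ η).2 ⊤))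

/-- the value attached to a node -/
noncomputable def vl (φ : Ix → Mu) (η : Ix) : Bool := P.pb η (ofBr φ (sc η)) (P.T φ η)

/-- the positions of the change attached to a node -/
def chF (φ : Ix → Mu) (η : Ix) : Set Kp :=
  {j | j ∉ R ∧ (P.T φ η).r j ≠ [] ∧ (P.nq φ η).2.r j ≠ (P.T φ η).r j}

theorem nq_le (φ : Ix → Mu) (η : Ix) :
    P.nq φ η ≤ (ofBr φ (sc η), mix R (P.dec (φ η)) (P.T φ η)) := by
  have h := P.pk_le η (ofBr φ (sc η)) (P.T φ η)
  rw [ofBr_br φ (lt_sc_self η)] at h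
  exact h

theorem chF_finite (φ : Ix → Mu) (η : Ix) : (P.chF φ η).Finite := by
  refine (P.nq_le φ η).2.2.subset ?_
  rintro j ⟨h1, h2, h3⟩
  refine ⟨?_, ?_⟩
  · rw [mix_of_notMem h1]; exact h2
  · rw [mix_of_notMem h1]; exact h3

/-- the change attached to a node -/
noncomputable def ch (φ : Ix → Mu) (η : Ix) : List (Kp × List ℕ) :=
  mkCh (P.chF_finite φ η) (P.nq φ η).2.r

theorem keys_ch (φ : Ix → Mu) (η : Ix) : keys (P.ch φ η) ⊆ (P.T φ η).supp := by
  rw [ch, keys_mkCh]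
  exact fun j hj => hj.2.1

/-- the name of the set of the `η` with the given change and value -/
def Nm (a : List (Kp × List ℕ)) (i : Bool) : Set (Ix × Cd) :=
  {z | ∃ φ η, z = P.nd φ η ∧ P.ch φ η = a ∧ P.vl φ η = i}

theorem inR_of_mem_Nm {a : List (Kp × List ℕ)} {i : Bool} {z : Ix × Cd} (hz : z ∈ P.Nm a i) :
    InR R z.2 := by
  obtain ⟨φ, η, rfl, -, -⟩ := hz
  change (mix R (P.nq φ η).2 ⊤).supp ⊆ R
  rw [supp_mix_top]
  exact Set.inter_subset_right

/-- All the data at a node depend only on the branch up to this node. -/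
theorem node_congr {φ ψ : Ix → Mu} {η : Ix} (h : ∀ ζ ≤ η, φ ζ = ψ ζ) :
    P.nd φ η = P.nd ψ η ∧ P.ch φ η = P.ch ψ η ∧ P.vl φ η = P.vl ψ η := by
  have h1 : P.T φ η = P.T ψ η := tr_congr fun ζ hζ => h ζ hζ.le
  have h2 : ofBr φ (sc η) = ofBr ψ (sc η) := ofBr_congr fun ζ hζ => h ζ (lt_sc.1 hζ)
  have h3 : P.nq φ η = P.nq ψ η := by rw [nq, nq, h1, h2]
  have h4 : P.chF φ η = P.chF ψ η := by rw [chF, chF, h1, h3]
  refine ⟨by rw [nd, nd, h3], ?_, by rw [vl, vl, h1, h2]⟩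
  unfold ch
  congr 1
  rw [h3]

/-- The change of a node gives a stronger condition, also later on the branch.  For `j ∈ chF φ η`:
`(T φ ξ).r j = (T φ η).r j` by `tr_hle`, which is an initial segment of `(nq φ η).2.r j` by `nq_le` (first part, `mix_of_notMem`);
this is the value of the change (`ap_mkCh_of_mem`).  Off the keys nothing changes (`ap_of_notMem`, `keys_mkCh`), and the
keys are finite (`keys_finite`). -/
theorem ap_ch_le (φ : Ix → Mu) {η ξ : Ix} (h : η < ξ) :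
    ap (P.ch φ η) (P.T φ ξ) ≤ P.T φ ξ := by
  have hk : keys (P.ch φ η) = P.chF φ η := keys_mkCh _ _
  refine ⟨fun i => ?_, (keys_finite (P.ch φ η)).subset ?_⟩
  · by_cases hi : i ∈ P.chF φ η
    · have h1 : (ap (P.ch φ η) (P.T φ ξ)).r i = (P.nq φ η).2.r i := ap_mkCh_of_mem hi
      have h2 : (P.T φ ξ).r i = (P.T φ η).r i := tr_hle φ h.le i hi.2.1
      have h3 := (P.nq_le φ η).2.1 i
      rw [mix_of_notMem hi.1] at h3
      rw [h1, h2]
      exact h3
    · rw [ap_of_notMem (by rw [hk]; exact hi)]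
  · rintro i ⟨-, h2⟩
    by_contra hcon
    exact h2 (ap_of_notMem hcon)

/-- The main property of a node. -/
theorem node_le (φ : Ix → Mu) {η ξ : Ix} (h : η < ξ) {q : Cd} (hq : q ≤ (P.nd φ η).2)
    (hq' : mix R ⊤ q.2 ≤ ap (P.ch φ η) (P.T φ ξ)) : x η (P.vl φ η) (P.nq φ η) ∧ q ≤ P.nq φ η := by
  refine ⟨P.pk_spec _ _ _, hq.1, ?_⟩
  have h1 : (P.nq φ η).2 = mix R (P.nq φ η).2 (P.nq φ η).2 := (mix_self _ _).symm
  rw [h1, le_mix_iff]
  refine ⟨?_, ?_⟩
  · have h2 := mix_top_mono (R := R) hq.2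
    change mix R q.2 ⊤ ≤ mix R (mix R (P.nq φ η).2 ⊤) ⊤ at h2
    rw [mix_mix_left] at h2
    exact h2
  · refine hq'.trans ?_
    have hk : keys (P.ch φ η) = P.chF φ η := keys_mkCh _ _
    have h3 : ap (P.ch φ η) (nx R (fun η c s => (P.pk η c s).2) φ η) = mix R ⊤ (P.nq φ η).2 := by
      apply Pk.ext_r
      intro j
      by_cases hj : j ∈ P.chF φ η
      · rw [mix_of_notMem hj.1]
        exact ap_mkCh_of_mem hj
      · rw [ap_of_notMem (by rw [hk]; exact hj)]
        by_cases hR : j ∈ R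
        · rw [mix_of_mem hR]
          exact hz_of_mem hR
        · rw [mix_of_notMem hR]
          by_cases hs : (P.T φ η).r j = []
          · exact hz_of_nil hR hs
          · have h4 : (P.nq φ η).2.r j = (P.T φ η).r j := by
              by_contra hne
              exact hj ⟨hR, hs, hne⟩
            rw [h4]
            exact hz_of_supp hR hs
    rw [← h3]
    refine Hle.le ?_
    intro i hi
    by_cases hk' : i ∈ keys (P.ch φ η)
    · exact ap_of_mem hk'
    · rw [ap_of_notMem hk'] at hi ⊢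
      rw [ap_of_notMem hk']
      exact tr_hle_nx φ h i hi

end Pick

end Pool.Agent.H16.HD
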