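import Pool.Agent.H16.HD.Bas
import Pool.Agent.H16.HD.Node

/-!
# Names for the elements of `ω₁`, `κ` and for subsets of `ω₁`
-/

set_option autoImplicit false

namespace Pool.Agent.H16.HD

open Pool.Agent.H90.Frc Pool.Agent.H51.Hfc Ordinal Cardinal

/-- the name of an element of `ω₁` -/
noncomputable def iN (α : Ix) : Name Cd := onN Cd α.toOrd.1

/-- the name of an element of `κ` -/
noncomputable def kN (b : Kp) : Name Cd := onN Cd b.toOrd.1

/-- the cardinal `κ` -/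
noncomputable abbrev kap0 : Ordinal.{0} := (Order.succ (𝔠 : Cardinal.{0})).ord

/-- the name of the subset of `ω₁` given by `N` -/
noncomputable def setN (N : Set (Ix × Cd)) : Name Cd :=
  Name.mk N (fun z => iN z.1.1) (fun z => z.1.2)

variable {g : Gen Cd}

theorem iN_inj {α β : Ix} {a : g.M} (h : g.Den (iN α) a) (h' : g.Den (iN β) a) : α = β :=
  toOrd_inj (onN_inj h h')

theorem kN_inj {b c : Kp} {a : g.M} (h : g.Den (kN b) a) (h' : g.Den (kN c) a) : b = c :=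
  toOrd_inj (onN_inj h h')

theorem iN_lt {α β : Ix} {a b : g.M} (h : g.Den (iN α) a) (h' : g.Den (iN β) b) :
    g.E a b ↔ α < β := by
  rw [onN_mem_iff h h', ← ToType.mk.symm.lt_iff_lt]
  exact Iff.rfl

theorem mem_o {o z : g.M} (ho : g.Den (onN Cd (ω_ 1)) o) : g.E z o ↔ ∃ α, g.Den (iN α) z := by
  rw [den_onN ho]
  constructor
  · rintro ⟨β, hβ, h⟩
    refine ⟨ToType.mk ⟨β, hβ⟩, ?_⟩
    simpa [iN, ToType.toOrd] using h
  · rintro ⟨α, h⟩
    exact ⟨_, α.toOrd.2, h⟩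

theorem mem_k {k z : g.M} (hk : g.Den (onN Cd kap0) k) : g.E z k ↔ ∃ b, g.Den (kN b) z := by
  rw [den_onN hk]
  constructor
  · rintro ⟨β, hβ, h⟩
    refine ⟨ToType.mk ⟨β, hβ⟩, ?_⟩
    simpa [kN, ToType.toOrd] using h
  · rintro ⟨b, h⟩
    exact ⟨_, b.toOrd.2, h⟩

theorem mem_setN {N : Set (Ix × Cd)} {s z : g.M} (hs : g.Den (setN N) s) :
    g.E z s ↔ ∃ y ∈ N, y.2 ∈ g.G ∧ g.Den (iN y.1) z := by
  rw [Gen.mem_iff hs]
  constructor
  · rintro ⟨y, hy, h⟩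
    exact ⟨y.1, y.2, hy, h⟩
  · rintro ⟨y, hy, h, h'⟩
    exact ⟨⟨y, hy⟩, h, h'⟩

end Pool.Agent.H16.HD
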