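import Pool.Agent.H16.HD.Poset

/-!
# Horizontal fusion (module HD-FUS)

`fusion_cover`: names of elements of `W` are covered by a countable set of possible values below a
horizontally stronger condition.  Everything takes place in the set of conditions with support in `R`
(`R = Set.univ` gives the whole partial order).

Proof.  For `q : Cd` and a change `a : List (Kp × List ℕ)` write `q[a] = (q.1, ap a q.2)`.

(1) If `Hle s' s` then `Hle (ap a s') (ap a s)` (on `keys a` both have the same value by `ap_of_mem`, off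
`keys a` use `ap_of_notMem`).  Hence `Hl q' q` implies `q'[a] ≤ q[a]`.

(2) `NX n a q`: some `x` with `InR R x`, `Hl x q` and either `∃ w, S n (x.1, ap a x.2) w`, or no `y` with
`InR R y`, `Hl y q` satisfies `∃ w, S n (y.1, ap a y.2) w` (then `x = q`).  Choose `en : Pk → ℕ → ℕ × List (Kp × List ℕ)`
such that `en s` enumerates all pairs `(n, a)` with `keys a ⊆ s.supp` (`countable_changes`, `Pk.hr`; the set of
such pairs is nonempty, it contains `(0, [])`).
Define by strong recursion, as in `fseq` of `Pool/Agent/H90/Frc/Fusion.lean`, `x 0 = p` and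
`x (m + 1) = NX (en (x (Nat.unpair m).1).2 (Nat.unpair m).2) (x m)`.  Let `q` be the limit (`exists_lim`; `InR R q` since
`q.2.supp = ⋃ (x n).2.supp`).

(3) Let `E n = {w(a) | keys a ⊆ q.2.supp, ∃ w, S n q[a] w}` where `w(a)` is a chosen `w` with `S n q[a] w`.
It is countable by `countable_changes`.

(4) Let `q' ≤ q`, `InR R q'`.  By `hd` there are `q'' ≤ q'`, `InR R q''` and `w` with `S n q'' w`.  Let
`F = {i | q.2.r i ≠ [] ∧ q''.2.r i ≠ q.2.r i}` (finite as `q'' ≤ q`), `a = mkCh F q''.2.r` and let `s` be the element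
of `Pk` with `s.r i = q.2.r i` for `i ∈ F` and `s.r i = q''.2.r i` otherwise.  Then `Hle s q.2`, `s.supp ⊆ R` and
`ap a s = q''.2`, so `y = (q''.1, s)` satisfies `InR R y`, `Hl y q`, `S n y[a] w`.  `keys a = F ⊆ q.2.supp`; since `F` is
finite and the supports of the `x k` increase, `F ⊆ (x k).2.supp` for some `k`, so `(n, a) = en (x k).2 j` for some
`j`; with `m = Nat.pair k j` we have `x (m + 1) = NX n a (x m)` and `Hl y (x m)` shows that the first alternative
holds: `S n (x (m+1))[a] w'` for some `w'`, so `S n q[a] w'` by (1), so `S n q[a] w(a)`.  As `q'' = y[a] ≤ q[a]` by (1),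
`S n q'' w(a)`.
-/

set_option autoImplicit false

namespace Pool.Agent.H16.HD

open Pool.Agent.H90.Frc Cardinal Ordinal

theorem ap_hle {a : List (Kp × List ℕ)} {s' s : Pk} (h : Hle s' s) : Hle (ap a s') (ap a s) := by
  intro i hi
  by_cases hk : i ∈ keys a
  · exact ap_of_mem hk
  · rw [ap_of_notMem hk] at hi ⊢
    rw [ap_of_notMem hk]
    exact h i hi

/-- the condition with a change -/
noncomputable def chg (a : List (Kp × List ℕ)) (q : Cd) : Cd := (q.1, ap a q.2)

theorem chg_mono {a : List (Kp × List ℕ)} {q' q : Cd} (h : Hl q' q) : chg a q' ≤ chg a q :=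
  ⟨h.1, (ap_hle h.2).le⟩

/-- the fusion sequence -/
def xseq {I : Type} (p : Cd) (N : I → Cd → Cd) (en : Cd → ℕ → I) : ℕ → Cd
  | 0 => p
  | m + 1 => N (en (xseq p N en (Nat.unpair m).1) (Nat.unpair m).2) (xseq p N en m)
termination_by n => n
decreasing_by
  · have h1 := Nat.unpair_left_le m
    omega
  · omega

theorem xseq_succ {I : Type} (p : Cd) (N : I → Cd → Cd) (en : Cd → ℕ → I) (m : ℕ) :
    xseq p N en (m + 1) =
      N (en (xseq p N en (Nat.unpair m).1) (Nat.unpair m).2) (xseq p N en m) := by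
  rw [xseq]

theorem exists_enum_changes (q : Cd) : ∃ f : ℕ → ℕ × List (Kp × List ℕ),
    ∀ n a, keys a ⊆ q.2.supp → ∃ k, f k = (n, a) := by
  have hc : ({z : ℕ × List (Kp × List ℕ) | keys z.2 ⊆ q.2.supp}).Countable := by
    have h1 : ((Set.univ : Set ℕ) ×ˢ {a : List (Kp × List ℕ) | keys a ⊆ q.2.supp}).Countable :=
      Set.countable_univ.prod (countable_changes q.2.hr)
    refine h1.mono ?_
    rintro ⟨n, a⟩ h
    exact ⟨trivial, h⟩
  obtain ⟨f, hf⟩ := hc.exists_eq_range ⟨(0, []), by simp [keys]⟩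
  refine ⟨f, fun n a h => ?_⟩
  have : (n, a) ∈ {z : ℕ × List (Kp × List ℕ) | keys z.2 ⊆ q.2.supp} := h
  rw [hf] at this
  exact this

theorem fusion_cover {W : Type*} (R : Set Kp) {S : ℕ → Cd → W → Prop}
    (hmono : ∀ n q q' w, S n q w → q' ≤ q → S n q' w) {p : Cd} (hp : InR R p)
    (hd : ∀ n, ∀ q ≤ p, InR R q → ∃ q' ≤ q, InR R q' ∧ ∃ w, S n q' w) :
    ∃ q, InR R q ∧ Hl q p ∧ ∃ E : ℕ → Set W, (∀ n, (E n).Countable) ∧
      ∀ n, ∀ q' ≤ q, InR R q' → ∃ q'' ≤ q', InR R q'' ∧ ∃ w ∈ E n, S n q'' w := by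
  classical
  -- one step
  have hstep : ∀ (z : ℕ × List (Kp × List ℕ)) (q : Cd), ∃ y, Hl y q ∧ (InR R q → InR R y) ∧
      ((∃ y', InR R y' ∧ Hl y' q ∧ ∃ w, S z.1 (chg z.2 y') w) → ∃ w, S z.1 (chg z.2 y) w) := by
    intro z q
    by_cases h : ∃ y', InR R y' ∧ Hl y' q ∧ ∃ w, S z.1 (chg z.2 y') w
    · obtain ⟨y', h1, h2, h3⟩ := h
      exact ⟨y', h2, fun _ => h1, fun _ => h3⟩
    · exact ⟨q, Hl.refl q, id, fun h' => absurd h' h⟩
  choose NX hNX1 hNX2 hNX3 using hstep
  choose en hen using exists_enum_changes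
  obtain ⟨x, hx⟩ : ∃ x, x = xseq p NX en := ⟨_, rfl⟩
  have hx0 : x 0 = p := by rw [hx, xseq]
  have hsucc : ∀ m, x (m + 1) = NX (en (x (Nat.unpair m).1) (Nat.unpair m).2) (x m) := by
    intro m
    rw [hx]
    exact xseq_succ _ _ _ m
  have hHl : ∀ m, Hl (x (m + 1)) (x m) := fun m => by rw [hsucc]; exact hNX1 _ _
  have hxR : ∀ m, InR R (x m) := by
    intro m
    induction m with
    | zero => rw [hx0]; exact hp
    | succ m ih => rw [hsucc]; exact hNX2 _ _ ih
  obtain ⟨q, hq, -, hsupp⟩ := exists_lim hHl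
  have hqR : InR R q := by
    change q.2.supp ⊆ R
    rw [hsupp]
    exact Set.iUnion_subset fun m => hxR m
  have hmonox : ∀ m k, m ≤ k → Hl (x k) (x m) := by
    intro m k hmk
    induction k, hmk using Nat.le_induction with
    | base => exact Hl.refl _
    | succ k _ ih => exact (hHl k).trans ih
  have hw : ∀ (n : ℕ) (a : List (Kp × List ℕ)), ∃ E : Set W, E.Countable ∧
      ((∃ w, S n (chg a q) w) → ∃ w ∈ E, S n (chg a q) w) := by
    intro n a
    by_cases h : ∃ w, S n (chg a q) w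
    · obtain ⟨w, hw⟩ := h
      exact ⟨{w}, Set.countable_singleton w, fun _ => ⟨w, rfl, hw⟩⟩
    · exact ⟨∅, Set.countable_empty, fun h' => absurd h' h⟩
  choose E0 hE0 hE0' using hw
  refine ⟨q, hqR, hx0 ▸ hq 0, fun n => ⋃ a ∈ {a : List (Kp × List ℕ) | keys a ⊆ q.2.supp}, E0 n a,
    fun n => (countable_changes q.2.hr).biUnion fun a _ => hE0 n a, ?_⟩
  intro n q' hq' hq'R
  obtain ⟨q'', hq'', hq''R, w, hw⟩ := hd n q' (hq'.trans ((hq 0).le.trans hx0.le)) hq'R
  have hle : q'' ≤ q := hq''.trans hq'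
  let F : Set Kp := {i | q.2.r i ≠ [] ∧ q''.2.r i ≠ q.2.r i}
  have hF : F.Finite := hle.2.2
  let a := mkCh hF q''.2.r
  have hkeys : keys a = F := keys_mkCh hF _
  have hkeysq : keys a ⊆ q.2.supp := by rw [hkeys]; exact fun i hi => hi.1
  let s : Pk := ⟨fun i => if i ∈ F then q.2.r i else q''.2.r i, by
    refine (q.2.hr.union q''.2.hr).mono ?_
    intro i hi
    by_cases h : i ∈ F
    · simp only [Set.mem_ofPred_eq, if_pos h] at hi
      exact Or.inl hi
    · simp only [Set.mem_ofPred_eq, if_neg h] at hi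
      exact Or.inr hi⟩
  have hs1 : ∀ i ∈ F, s.r i = q.2.r i := fun i hi => if_pos hi
  have hs2 : ∀ i ∉ F, s.r i = q''.2.r i := fun i hi => if_neg hi
  have hsR : s.supp ⊆ R := by
    intro i hi
    rw [Pk.mem_supp] at hi
    by_cases h : i ∈ F
    · rw [hs1 i h] at hi
      exact hqR hi
    · rw [hs2 i h] at hi
      exact hq''R hi
  have hHle : Hle s q.2 := by
    intro i hi
    by_cases h : i ∈ F
    · exact hs1 i h
    · rw [hs2 i h]
      by_contra hne
      exact h ⟨hi, hne⟩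
  have hap : ap a s = q''.2 := by
    apply Pk.ext_r
    intro i
    by_cases h : i ∈ F
    · exact ap_mkCh_of_mem h
    · rw [ap_of_notMem (by rw [hkeys]; exact h), hs2 i h]
  let y : Cd := (q''.1, s)
  have hy : chg a y = q'' := Prod.ext rfl hap
  have hyq : Hl y q := ⟨hle.1, hHle⟩
  obtain ⟨k, hk⟩ : ∃ k, keys a ⊆ (x k).2.supp := by
    have h1 : ∀ i ∈ keys a, ∃ k, i ∈ (x k).2.supp := by
      intro i hi
      have := hkeysq hi
      rw [hsupp] at this
      exact Set.mem_iUnion.1 this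
    choose! kk hkk using h1
    refine ⟨(keys_finite a).toFinset.sup kk, fun i hi => ?_⟩
    have h2 : kk i ≤ (keys_finite a).toFinset.sup kk :=
      Finset.le_sup ((keys_finite a).mem_toFinset.2 hi)
    exact (hmonox _ _ h2).2.supp (hkk i hi)
  obtain ⟨j, hj⟩ := hen (x k) n a hk
  have hyes : ∃ w, S n (chg a (x (Nat.pair k j + 1))) w := by
    have h3 := hNX3 (en (x (Nat.unpair (Nat.pair k j)).1) (Nat.unpair (Nat.pair k j)).2)
      (x (Nat.pair k j))
    rw [← hsucc] at h3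
    simp only [Nat.unpair_pair, hj] at h3
    refine h3 ⟨y, hsR, hyq.trans (hq _), w, ?_⟩
    rw [hy]
    exact hw
  obtain ⟨w', hw'⟩ := hyes
  have h4 : ∃ w, S n (chg a q) w := ⟨w', hmono _ _ _ _ hw' (chg_mono (hq _))⟩
  obtain ⟨w₀, hw₀, hS₀⟩ := hE0' n a h4
  refine ⟨q'', hq'', hq''R, w₀, ?_, ?_⟩
  · exact Set.mem_biUnion (show a ∈ {a : List (Kp × List ℕ) | keys a ⊆ q.2.supp} from hkeysq) hw₀
  · refine hmono _ _ _ _ hS₀ ?_
    rw [← hy]
    exact chg_mono hyq

/-- the version for the whole partial order -/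
theorem fusion_cover' {W : Type*} {S : ℕ → Cd → W → Prop}
    (hmono : ∀ n q q' w, S n q w → q' ≤ q → S n q' w) {p : Cd}
    (hd : ∀ n, ∀ q ≤ p, ∃ q' ≤ q, ∃ w, S n q' w) :
    ∃ q, Hl q p ∧ ∃ E : ℕ → Set W, (∀ n, (E n).Countable) ∧
      ∀ n, ∀ q' ≤ q, ∃ q'' ≤ q', ∃ w ∈ E n, S n q'' w := by
  obtain ⟨q, -, h1, E, h2, h3⟩ := fusion_cover Set.univ hmono (p := p) (fun _ _ => trivial)
    (fun n q hq _ => by
      obtain ⟨q', hq', h⟩ := hd n q hq
      exact ⟨q', hq', fun _ _ => trivial, h⟩)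
  refine ⟨q, h1, E, h2, fun n q' hq' => ?_⟩
  obtain ⟨q'', h4, -, h5⟩ := h3 n q' hq' (fun _ _ => trivial)
  exact ⟨q'', h4, h5⟩

end Pool.Agent.H16.HD
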