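import Pool.Agent.H16.HD.Node
import Pool.Agent.H16.HD.Fus

/-!
# Some of the names `Nm a i` is unbounded (module HD-CLAIM)

`UnbR R N q` is the relative version of `Unb` for conditions with support in `R`.

`unb_of_unbR`: Let `q' ≤ q` be arbitrary.  `(q'.1, mix R q'.2 ⊤) ≤ q` (as `q.2 = mix R q.2 ⊤`, `mix_top_of_supp`,
`mix_top_mono`), so there are `q'' ≤ (q'.1, mix R q'.2 ⊤)` and `z ∈ N` with `InR R q''`, `γ ≤ z.1`, `q'' ≤ z.2`.  Then
`(q''.1, mix R q''.2 q'.2)` is below `q'` (`mix_mono`, `q'.2 = mix R q'.2 q'.2`) and below `z.2`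
(`z.2.2 = mix R z.2.2 ⊤`).

`exists_unb`: suppose not.  For every change `a`, value `i` and `q ≤ p` with `InR R q` we have `¬ UnbR R (Nm a i) q`, so
there are `γ` and `q' ≤ q`, `InR R q'`, such that `Bd a i γ q'`, where `Bd a i γ q'` means: there are no `q'' ≤ q'`, `z ∈ Nm a i` with
`InR R q''`, `γ ≤ z.1`, `q'' ≤ z.2`.

Step: for `q ≤ p` with `InR R q` there is `q' : Cd` with `InR R q'`, `Hl q' q`, `q.1.len < q'.1.len`, and `Bd a i q'.1.len q'` for all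
`i` and all `a` with `keys a ⊆ (T q.1.br q.1.len).supp`.  Indeed there are countably many such pairs `(a, i)`
(`countable_changes`, `Pk.hr`; the pair `([], i)` is one of them); enumerate them as `(a n, i n)` and apply `fusion_cover`
with `W = Ix`, `S n q γ = Bd (a n) (i n) γ q`: get `q1` with `Hl q1 q` and countable `E n`.  Let `γ*` be larger than all elements of all
`E n` and than `q.1.len` (`exists_gt_set`).  Then `Bd (a n) (i n) γ* q1` for all `n`: if `q'' ≤ q1`, `z ∈ Nm`, `InR R q''`, `γ* ≤ z.1`, `q'' ≤ z.2`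
take `q3 ≤ q''`, `InR R q3`, `γ ∈ E n` with `Bd (a n) (i n) γ q3`; this contradicts `q3 ≤ q3`, `q3 ≤ z.2`, `γ < γ* ≤ z.1`.  Finally prolong
the first component of `q1` to length `≥ γ*` (`Cl.exists_longer`; `Bd` is monotone in `γ` and in `q`).

Iterating from `p` we get `q n`, `q (n+1)` obtained from `q n` by the step; let `q` be the limit (`exists_lim`), `ξ = q.1.len = lub (fun n => (q n).1.len)`,
`φ = q.1.br`.  `q.2 = P.dec m` for some `m`; let `ψ ζ = φ ζ` for `ζ < ξ` and `ψ ξ = m` (`Function.update φ ξ m`).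
Consider the node `(ψ, ξ)` with `a = P.ch ψ ξ`, `i = P.vl ψ ξ`, `z = P.nd ψ ξ ∈ Nm a i`, `z.1 = ξ`.  `z.2 ≤ q`: by
`nq_le`, `(nq ψ ξ).1 ≤ ofBr ψ (sc ξ) ≤ ofBr ψ ξ = ofBr φ ξ = q.1`, and `mix R (nq ψ ξ).2 ⊤ ≤ mix R (mix R (dec (ψ ξ)) _) ⊤ = mix R q.2 ⊤ = q.2`.
`keys a ⊆ (T ψ ξ).supp = (T φ ξ).supp` (`keys_ch`, `tr_congr`) `⊆ ⋃ n, (T φ (q n).1.len).supp` (`tr_supp`), and
`T φ (q n).1.len = T (q n).1.br (q n).1.len` (`tr_congr`, `Cl.le_iff`).  The union is increasing (`tr_hle`) and `keys a` is finite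
(`keys_finite`), so `keys a ⊆ (T (q n).1.br (q n).1.len).supp` for some `n`.  Hence `Bd a i (q (n+1)).1.len (q (n+1))`, but
`z.2 ≤ q ≤ q (n+1)`, `InR R z.2`, `(q (n+1)).1.len ≤ ξ = z.1`, a contradiction.
-/

set_option autoImplicit false

namespace Pool.Agent.H16.HD

open Pool.Agent.H90.Frc Cardinal Ordinal

/-- the relative version of `Unb` -/
def UnbR (R : Set Kp) (N : Set (Ix × Cd)) (q : Cd) : Prop :=
  ∀ γ : Ix, ∀ q' ≤ q, InR R q' → ∃ q'' ≤ q', InR R q'' ∧ ∃ z ∈ N, γ ≤ z.1 ∧ q'' ≤ z.2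

theorem unb_of_unbR {R : Set Kp} {N : Set (Ix × Cd)} {q : Cd} (hN : ∀ z ∈ N, InR R z.2)
    (hq : InR R q) (h : UnbR R N q) : Unb N q := by
  intro γ q' hq'
  have h1 : ((q'.1, mix R q'.2 ⊤) : Cd) ≤ q := by
    refine ⟨hq'.1, ?_⟩
    have h2 : mix R q.2 ⊤ = q.2 := mix_top_of_supp hq
    show mix R q'.2 ⊤ ≤ q.2
    rw [← h2]
    exact mix_top_mono hq'.2
  have h2 : InR R ((q'.1, mix R q'.2 ⊤) : Cd) := by
    show (mix R q'.2 ⊤).supp ⊆ R
    rw [supp_mix_top]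
    exact Set.inter_subset_right
  obtain ⟨q'', hq'', hR, z, hz, hγ, hle⟩ := h γ _ h1 h2
  refine ⟨(q''.1, mix R q''.2 q'.2), ⟨hq''.1, ?_⟩, z, hz, hγ, ⟨hle.1, ?_⟩⟩
  · show mix R q''.2 q'.2 ≤ q'.2
    conv_rhs => rw [← mix_self R q'.2]
    apply mix_mono _ le_rfl
    have h3 : mix R q''.2 ⊤ ≤ mix R (mix R q'.2 ⊤) ⊤ := mix_top_mono hq''.2
    rwa [mix_mix_left] at h3
  · show mix R q''.2 q'.2 ≤ z.2.2
    rw [← mix_top_of_supp (hN z hz)]
    exact mix_mono (mix_top_mono hle.2) (mix_top_mono' le_top)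

private theorem claim_fin {α : Type*} {K : Set α} (hK : K.Finite) {S : ℕ → Set α}
    (hS : Monotone S) (h : K ⊆ ⋃ n, S n) : ∃ n, K ⊆ S n := by
  classical
  have h1 : ∀ x : α, ∃ n, x ∈ K → x ∈ S n := by
    intro x
    by_cases hx : x ∈ K
    · obtain ⟨n, hn⟩ := Set.mem_iUnion.1 (h hx)
      exact ⟨n, fun _ => hn⟩
    · exact ⟨0, fun h => absurd h hx⟩
  choose f hf using h1
  refine ⟨hK.toFinset.sup f, fun x hx => ?_⟩
  exact hS (Finset.le_sup (f := f) (hK.mem_toFinset.2 hx)) (hf x hx)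

variable {R : Set Kp} {x : Ix → Bool → Cd → Prop} (P : Pick R x)

theorem exists_unb {p : Cd} (hp : InR R p) :
    ∃ a i q, q ≤ p ∧ InR R q ∧ UnbR R (P.Nm a i) q := by
  by_contra hcon
  let Bd : List (Kp × List ℕ) → Bool → Ix → Cd → Prop := fun a i γ q =>
    ¬ ∃ q'' ≤ q, InR R q'' ∧ ∃ z ∈ P.Nm a i, γ ≤ z.1 ∧ q'' ≤ z.2
  have hBmono : ∀ a i γ γ' q q', Bd a i γ q → γ ≤ γ' → q' ≤ q → Bd a i γ' q' := by
    rintro a i γ γ' q q' h hγ hq ⟨q'', h1, h2, z, hz, h3, h4⟩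
    exact h ⟨q'', h1.trans hq, h2, z, hz, hγ.trans h3, h4⟩
  have hBd : ∀ a i q, q ≤ p → InR R q → ∃ q' ≤ q, InR R q' ∧ ∃ γ, Bd a i γ q' := by
    intro a i q hq hR
    by_contra h
    apply hcon
    refine ⟨a, i, q, hq, hR, fun γ q' hq' hR' => ?_⟩
    by_contra h'
    exact h ⟨q', hq', hR', γ, h'⟩
  -- the step
  have hstep : ∀ q : {q : Cd // q ≤ p ∧ InR R q}, ∃ q' : {q : Cd // q ≤ p ∧ InR R q},
      Hl q'.1 q.1 ∧ q.1.1.len < q'.1.1.len ∧ ∀ a i, keys a ⊆ (P.T q.1.1.br q.1.1.len).supp →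
        Bd a i q'.1.1.len q'.1 := by
    rintro ⟨q, hqp, hqR⟩
    have hC : {a : List (Kp × List ℕ) | keys a ⊆ (P.T q.1.br q.1.len).supp}.Countable :=
      countable_changes (P.T q.1.br q.1.len).hr
    have hne : ({a : List (Kp × List ℕ) | keys a ⊆ (P.T q.1.br q.1.len).supp} ×ˢ
        (Set.univ : Set Bool)).Nonempty := by
      refine ⟨([], true), ?_, trivial⟩
      intro i hi
      simp [keys] at hi
    obtain ⟨e, he⟩ := (hC.prod (Set.countable_univ (α := Bool))).exists_eq_range hne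
    obtain ⟨q1, hq1R, hq1, E, hE, hcov⟩ := fusion_cover R (W := Ix)
      (S := fun n q γ => Bd (e n).1 (e n).2 γ q)
      (fun n q q' γ h hq => hBmono _ _ _ _ _ _ h le_rfl hq) (p := q) hqR
      (fun n q' hq' hR' => hBd _ _ q' (hq'.trans hqp) hR')
    obtain ⟨γ, hγ⟩ := exists_gt_set (s := (⋃ n, E n) ∪ {q.1.len})
      ((Set.countable_iUnion hE).union (Set.countable_singleton _))
    have hBγ : ∀ n, Bd (e n).1 (e n).2 γ q1 := by
      rintro n ⟨q'', hq'', hR'', z, hz, hγz, hle⟩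
      obtain ⟨q3, hq3, hR3, w, hw, hB⟩ := hcov n q'' hq'' hR''
      have hwγ : w < γ := hγ w (Or.inl (Set.mem_iUnion.2 ⟨n, hw⟩))
      exact hB ⟨q3, le_rfl, hR3, z, hz, hwγ.le.trans hγz, hq3.trans hle⟩
    obtain ⟨c, hc, hcγ⟩ := q1.1.exists_longer γ
    have hle : ((c, q1.2) : Cd) ≤ q1 := ⟨hc, le_rfl⟩
    refine ⟨⟨(c, q1.2), (hle.trans hq1.le).trans hqp, hq1R⟩, ⟨hc.trans hq1.1, hq1.2⟩,
      (hγ _ (Or.inr rfl)).trans_le hcγ, fun a i ha => ?_⟩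
    have h1 : ((a, i) : List (Kp × List ℕ) × Bool) ∈ Set.range e := by
      rw [← he]
      exact ⟨ha, trivial⟩
    obtain ⟨n, hn⟩ := h1
    have h2 := hBγ n
    rw [hn] at h2
    exact hBmono _ _ _ _ _ _ h2 hcγ hle
  choose st hst1 hst2 hst3 using hstep
  let sq : ℕ → {q : Cd // q ≤ p ∧ InR R q} := fun n =>
    Nat.rec ⟨p, le_rfl, hp⟩ (fun _ q => st q) n
  have hsq : ∀ n, sq (n + 1) = st (sq n) := fun n => rfl
  obtain ⟨q, hq, hlen, hsupp⟩ := exists_lim (f := fun n => (sq n).1) (fun n => by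
    show Hl (sq (n + 1)).1 (sq n).1
    rw [hsq]
    exact hst1 _)
  have hqR : InR R q := by
    show q.2.supp ⊆ R
    rw [hsupp]
    exact Set.iUnion_subset fun n => (sq n).2.2
  have hmono : StrictMono (fun n => (sq n).1.1.len) := strictMono_nat_of_lt_succ fun n => by
    show (sq n).1.1.len < (sq (n + 1)).1.1.len
    rw [hsq]
    exact hst2 _
  obtain ⟨m, hm⟩ := P.dec_surj q.2 hqR
  obtain ⟨ξ, hξ⟩ : ∃ ξ, ξ = q.1.len := ⟨_, rfl⟩
  obtain ⟨ψ, hψ⟩ : ∃ ψ : Ix → Mu, ψ = Function.update q.1.br ξ m := ⟨_, rfl⟩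
  have hψξ : ψ ξ = m := by rw [hψ, Function.update_self]
  have hψlt : ∀ ζ < ξ, ψ ζ = q.1.br ζ := fun ζ hζ => by
    rw [hψ, Function.update_of_ne hζ.ne]
  have hz : P.nd ψ ξ ∈ P.Nm (P.ch ψ ξ) (P.vl ψ ξ) := ⟨ψ, ξ, rfl, rfl, rfl⟩
  have hnq := P.nq_le ψ ξ
  have hzq : (P.nd ψ ξ).2 ≤ q := by
    refine ⟨?_, ?_⟩
    · show (P.nq ψ ξ).1 ≤ q.1
      have h1 : ofBr ψ ξ = q.1 := by
        rw [ofBr_congr hψlt, hξ]
        exact q.1.ofBr_self
      rw [← h1]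
      exact hnq.1.trans (ofBr_le (lt_sc_self ξ).le)
    · show mix R (P.nq ψ ξ).2 ⊤ ≤ q.2
      have h1 := mix_top_mono (R := R) hnq.2
      change mix R (P.nq ψ ξ).2 ⊤ ≤ mix R (mix R (P.dec (ψ ξ)) (P.T ψ ξ)) ⊤ at h1
      rw [mix_mix_left, hψξ, hm, mix_top_of_supp hqR] at h1
      exact h1
  -- the keys
  have hT : P.T ψ ξ = P.T q.1.br ξ := tr_congr hψlt
  have hTn : ∀ n, P.T q.1.br (sq n).1.1.len = P.T (sq n).1.1.br (sq n).1.1.len := fun n =>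
    tr_congr fun ζ hζ => (Cl.le_iff.1 (hq n).1).2 ζ hζ
  have hkeys : keys (P.ch ψ ξ) ⊆ ⋃ n, (P.T q.1.br (sq n).1.1.len).supp := by
    refine (P.keys_ch ψ ξ).trans ?_
    rw [hT, hξ, hlen]
    exact tr_supp q.1.br hmono
  obtain ⟨n, hn⟩ := claim_fin (keys_finite (P.ch ψ ξ))
    (S := fun n => (P.T q.1.br (sq n).1.1.len).supp)
    (fun i j hij => (tr_hle q.1.br (hmono.monotone hij)).supp) hkeys
  rw [hTn n] at hn
  have hB := hst3 (sq n) _ (P.vl ψ ξ) hn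
  rw [← hsq] at hB
  apply hB
  refine ⟨(P.nd ψ ξ).2, hzq.trans (hq (n + 1)).le, P.inR_of_mem_Nm hz, P.nd ψ ξ, hz, ?_, le_rfl⟩
  show (sq (n + 1)).1.1.len ≤ ξ
  rw [hξ, hlen]
  exact le_lub (fun n => (sq n).1.1.len) (n + 1)

end Pool.Agent.H16.HD
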