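import Pool.Agent.H16.HD.Card

/-!
# Closing off in `ω₁` steps (module HD-CLO)

`exists_closed`: define `Q : Ix → Set Kp` by well-founded recursion,
`Q ξ = S₀ ∪ ⋃ η < ξ, (Q η ∪ ⋃ {Φ S | S ⊆ Q η, S countable})`.  By induction `#(Q ξ) ≤ 𝔠`: `Set.Iio ξ` is countable
(`countable_lt`), a set of size `≤ 𝔠` has at most `𝔠 ^ ℵ₀ = 𝔠` countable subsets and `#(Φ S) ≤ 𝔠`.
`R = ⋃ ξ, Q ξ` has size `≤ ℵ₁ * 𝔠 = 𝔠` (`mk_ix`, `aleph_one_le_continuum`).  `Q` is monotone, so a countable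
`S ⊆ R` is contained in some `Q ξ` (choose `ξ(s)` for `s ∈ S` and use `exists_gt_set`), hence `Φ S ⊆ Q ξ' ⊆ R` for `ξ' > ξ`.
(Compare `MeasurableSpace.cardinal_generateMeasurable_le`.)
-/

set_option autoImplicit false

namespace Pool.Agent.H16.HD

open Pool.Agent.H90.Frc Cardinal Ordinal

/-- the approximations -/
noncomputable def Qs (Φ : Set Kp → Set Kp) (S₀ : Set Kp) (ξ : Ix) : Set Kp :=
  S₀ ∪ ⋃ η : Set.Iio ξ, (Qs Φ S₀ η ∪ ⋃ S ∈ {S : Set Kp | S ⊆ Qs Φ S₀ η ∧ S.Countable}, Φ S)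
termination_by ξ
decreasing_by exact η.2

theorem qs_def (Φ : Set Kp → Set Kp) (S₀ : Set Kp) (ξ : Ix) : Qs Φ S₀ ξ =
    S₀ ∪ ⋃ η : Set.Iio ξ, (Qs Φ S₀ η ∪ ⋃ S ∈ {S : Set Kp | S ⊆ Qs Φ S₀ η ∧ S.Countable}, Φ S) := by
  rw [Qs]

theorem exists_closed (Φ : Set Kp → Set Kp) (hΦ : ∀ S, S.Countable → #(Φ S) ≤ 𝔠) {S₀ : Set Kp}
    (h : S₀.Countable) :
    ∃ R, S₀ ⊆ R ∧ #R ≤ 𝔠 ∧ ∀ S ⊆ R, S.Countable → Φ S ⊆ R := by
  have h0 : #S₀ ≤ 𝔠 := (le_aleph0_iff_set_countable.2 h).trans aleph0_le_continuum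
  have hsize : ∀ ξ, #(Qs Φ S₀ ξ) ≤ 𝔠 := by
    intro ξ
    induction ξ using WellFoundedLT.induction with
    | _ ξ ih =>
      rw [qs_def]
      refine (mk_union_le _ _).trans ?_
      refine (add_le_add h0 ?_).trans (add_eq_self aleph0_le_continuum).le
      refine (mk_iUnion_le _).trans ?_
      have h1 : #(Set.Iio ξ) ≤ 𝔠 :=
        (le_aleph0_iff_set_countable.2 (countable_lt ξ)).trans aleph0_le_continuum
      refine (mul_le_mul' h1 (ciSup_le' ?_)).trans (mul_eq_self aleph0_le_continuum).le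
      rintro ⟨η, hη⟩
      refine (mk_union_le _ _).trans ?_
      refine (add_le_add (ih η hη) ?_).trans (add_eq_self aleph0_le_continuum).le
      exact mk_biUnion_le_c (mk_ctbl_subsets (ih η hη)) fun S hS => hΦ S hS.2
  have hmono : ∀ {η ξ : Ix}, η < ξ → Qs Φ S₀ η ⊆ Qs Φ S₀ ξ := by
    intro η ξ hηξ i hi
    rw [qs_def Φ S₀ ξ]
    exact Or.inr (Set.mem_iUnion.2 ⟨⟨η, hηξ⟩, Or.inl hi⟩)
  refine ⟨⋃ ξ, Qs Φ S₀ ξ, ?_, ?_, ?_⟩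
  · intro i hi
    refine Set.mem_iUnion.2 ⟨zr, ?_⟩
    rw [qs_def]
    exact Or.inl hi
  · refine (mk_iUnion_le _).trans ?_
    exact (mul_le_mul' mk_ix_le (ciSup_le' hsize)).trans (mul_eq_self aleph0_le_continuum).le
  · intro S hS hc
    have h1 : ∀ i ∈ S, ∃ ξ, i ∈ Qs Φ S₀ ξ := fun i hi => Set.mem_iUnion.1 (hS hi)
    have : Nonempty Ix := ⟨zr⟩
    choose! f hf using h1
    obtain ⟨ξ, hξ⟩ := exists_gt_set (hc.image f)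
    have h2 : S ⊆ Qs Φ S₀ ξ := fun i hi => hmono (hξ (f i) ⟨i, hi, rfl⟩) (hf i hi)
    obtain ⟨ξ', hξ', -⟩ := exists_gt_two ξ ξ
    intro i hi
    refine Set.mem_iUnion.2 ⟨ξ', ?_⟩
    rw [qs_def]
    exact Or.inr (Set.mem_iUnion.2 ⟨⟨ξ, hξ'⟩, Or.inr (Set.mem_biUnion
      (show S ∈ {S : Set Kp | S ⊆ Qs Φ S₀ ξ ∧ S.Countable} from ⟨h2, hc⟩) hi)⟩)

end Pool.Agent.H16.HD
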