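import Pool.Agent.H16.HD.Card
import Pool.Agent.H16.HD.Clo

/-!
# Closing off: two applications (module HD-CLOA)

* `exists_closedN`: apply `exists_closed` with `Φ S = ⋃ {W N q | N countable, all elements of N and q have support in S}`.
  For countable `S` the number of pairs `(N, q)` is `≤ 𝔠 * 𝔠` (`mk_ctblR_le`, `mk_cdR_le` for `S`, which is countable,
  so `#S ≤ 𝔠`), and each `W N q` is countable, so `#(Φ S) ≤ 𝔠`.  Given `N`, `q` as in the conclusion let `S` be the union of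
  the supports of `q` and of the elements of `N`; it is countable (`Pk.hr`) and contained in `R`.
* `exists_rfl`: the same with `W j q = q'.2.supp` for a chosen `q' ≤ q` with `O j q'` (if there is one, `∅` otherwise);
  `Φ S = ⋃ {W j q | j : J, InR S q}`.
-/

set_option autoImplicit false

namespace Pool.Agent.H16.HD

open Pool.Agent.H90.Frc Cardinal Ordinal

theorem exists_closedN (W : Set (Ix × Cd) → Cd → Set Kp) (hW : ∀ N q, (W N q).Countable)
    {S₀ : Set Kp} (h : S₀.Countable) :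
    ∃ R, S₀ ⊆ R ∧ #R ≤ 𝔠 ∧ ∀ N : Set (Ix × Cd), N.Countable → (∀ z ∈ N, InR R z.2) →
      ∀ q, InR R q → W N q ⊆ R := by
  obtain ⟨R, h1, h2, h3⟩ := exists_closed (fun S =>
    ⋃ N ∈ {N : Set (Ix × Cd) | N.Countable ∧ ∀ z ∈ N, InR S z.2},
      ⋃ q ∈ {q : Cd | InR S q}, W N q) (fun S hS => by
        have hS' : #S ≤ 𝔠 := (le_aleph0_iff_set_countable.2 hS).trans aleph0_le_continuum
        refine mk_biUnion_le_c (mk_ctblR_le hS') fun N _ => ?_
        refine mk_biUnion_le_c (mk_cdR_le hS') fun q _ => ?_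
        exact (le_aleph0_iff_set_countable.2 (hW N q)).trans aleph0_le_continuum) h
  refine ⟨R, h1, h2, fun N hN hNR q hq => ?_⟩
  have h4 : q.2.supp ∪ ⋃ z ∈ N, z.2.2.supp ⊆ R :=
    Set.union_subset hq (Set.iUnion₂_subset hNR)
  have h5 : (q.2.supp ∪ ⋃ z ∈ N, z.2.2.supp).Countable :=
    q.2.hr.union (hN.biUnion fun z _ => z.2.2.hr)
  refine subset_trans ?_ (h3 _ h4 h5)
  intro i hi
  refine Set.mem_biUnion (x := N) ⟨hN, fun z hz => ?_⟩ (Set.mem_biUnion (x := q) ?_ hi)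
  · exact subset_trans (Set.subset_biUnion_of_mem (u := fun z : Ix × Cd => z.2.2.supp) hz)
      Set.subset_union_right
  · exact Set.subset_union_left

theorem exists_rfl {J : Type} (hJ : #J ≤ 𝔠) (O : J → Cd → Prop) {S₀ : Set Kp} (h : S₀.Countable) :
    ∃ R, S₀ ⊆ R ∧ #R ≤ 𝔠 ∧ ∀ j q, InR R q → (∃ q' ≤ q, O j q') →
      ∃ q' ≤ q, InR R q' ∧ O j q' := by
  have hW : ∀ (j : J) (q : Cd), ∃ W : Set Kp, W.Countable ∧ ((∃ q' ≤ q, O j q') →
      ∃ q' ≤ q, q'.2.supp ⊆ W ∧ O j q') := by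
    intro j q
    by_cases h : ∃ q' ≤ q, O j q'
    · obtain ⟨q', hq', h'⟩ := h
      exact ⟨q'.2.supp, q'.2.hr, fun _ => ⟨q', hq', subset_rfl, h'⟩⟩
    · exact ⟨∅, Set.countable_empty, fun h' => absurd h' h⟩
  choose W hW1 hW2 using hW
  obtain ⟨R, h1, h2, h3⟩ := exists_closed (fun S =>
    ⋃ j ∈ (Set.univ : Set J), ⋃ q ∈ {q : Cd | InR S q}, W j q) (fun S hS => by
        have hS' : #S ≤ 𝔠 := (le_aleph0_iff_set_countable.2 hS).trans aleph0_le_continuum
        refine mk_biUnion_le_c (by rw [mk_univ]; exact hJ) fun j _ => ?_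
        refine mk_biUnion_le_c (mk_cdR_le hS') fun q _ => ?_
        exact (le_aleph0_iff_set_countable.2 (hW1 j q)).trans aleph0_le_continuum) h
  refine ⟨R, h1, h2, fun j q hq hex => ?_⟩
  obtain ⟨q', hq', hsupp, hO⟩ := hW2 j q hex
  refine ⟨q', hq', subset_trans hsupp ?_, hO⟩
  refine subset_trans ?_ (h3 _ hq q.2.hr)
  intro i hi
  exact Set.mem_biUnion (x := j) trivial (Set.mem_biUnion (x := q)
    (show InR q.2.supp q from subset_rfl) hi)

end Pool.Agent.H16.HD
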