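import Pool.Agent.H16.HD.CdB

/-!
# Ordinals below `κ` have size at most `ω₁` (module HD-COL)

As `sizeLe_collapse` in `Pool/Agent/H90/Frc/Cards.lean`.  If `β = 0` use the empty set (`sizeLe_onN`).  Otherwise `#β.ToType ≤ 𝔠 = #Mu`
(`Cardinal.lt_ord`, `Order.lt_succ_iff`) and there is a surjection `e : Mu → β.ToType`.  The name
`F = relN (ι := {z : Ix × Cd // z.1 < z.2.1.len}) (fun z => iN z.1.1) (fun z => onN Cd (e (z.1.2.1.br z.1.1)).toOrd.1) (fun z => z.1.2)` (that is: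
`F` maps `ξ` to `e` of the value at `ξ` of the generic function).  `ZFC.sizeLe_of_surj` with `a = b`, `b = o`: functional since two conditions of the
generic filter are compatible, so their first components have the same value at `ξ` (`Cl.le_iff`); surjective by genericity (`Gen.tp` as in
`sizeLe_collapse`): given `p` and `η < β`, `η = e m`, let `δ = p.1.len` and let `q` be `(c, p.2)` where `c` prolongs `p.1` by the value `m` at `δ`
(`c = ofBr (Function.update p.1.br δ m) (sc δ)`, `lt_sc`, `Cl.le_iff`); `q` forces that `δ` is mapped to `η`.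
-/

set_option autoImplicit false

namespace Pool.Agent.H16.HD

open Pool.Agent.H90.Frc Pool.Agent.H51.Hfc Ordinal Cardinal

variable {g : Gen Cd}

/-- prolong a condition by one value -/
noncomputable def snoc (p : Cd) (m : Mu) : Cd :=
  (ofBr (Function.update p.1.br p.1.len m) (sc p.1.len), p.2)

theorem snoc_le (p : Cd) (m : Mu) : snoc p m ≤ p := by
  refine ⟨?_, le_rfl⟩
  rw [Cl.le_iff]
  refine ⟨(lt_sc_self _).le, fun ξ hξ => ?_⟩
  change (ofBr _ _).br ξ = _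
  rw [ofBr_br _ (hξ.trans (lt_sc_self _)), Function.update_of_ne hξ.ne]

theorem snoc_br (p : Cd) (m : Mu) : (snoc p m).1.br p.1.len = m := by
  change (ofBr _ _).br _ = _
  rw [ofBr_br _ (lt_sc_self _), Function.update_self]

theorem sizeLe_col {β : Ordinal.{0}} (hβ : β < kap0) {b o : g.M} (hb : g.Den (onN Cd β) b)
    (ho : g.Den (onN Cd (ω_ 1)) o) : SizeLe g.E b o := by
  by_cases hβ0 : β = 0
  · subst hβ0
    refine sizeLe_onN ?_ hb ho
    simp
  have hne : Nonempty β.ToType := ⟨ToType.mk ⟨0, pos_iff_ne_zero.2 hβ0⟩⟩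
  have hcard : #β.ToType ≤ #Mu := by
    have h1 : #Mu = 𝔠 := by rw [← power_def, mk_bool, mk_nat, two_power_aleph0]
    rw [h1, Cardinal.mk_toType]
    exact Order.lt_succ_iff.1 (Cardinal.lt_ord.1 hβ)
  obtain ⟨e, he⟩ : ∃ e : Mu → β.ToType, Function.Surjective e := by
    rw [Cardinal.le_def] at hcard
    obtain ⟨f⟩ := hcard
    exact ⟨Function.invFun f, Function.invFun_surjective f.injective⟩
  let F : Name Cd := relN (ι := {z : Ix × Cd // z.1 < z.2.1.len}) (fun z => iN z.1.1)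
    (fun z => onN Cd (e (z.1.2.1.br z.1.1)).toOrd.1) (fun z => z.1.2)
  refine Gen.tn (v := ![onN Cd β, onN Cd (ω_ 1)]) (a := ![b, o])
    (den2 hb ho) Dfn.true (dfn_sizeLe 0 1) (L := {F}) (Set.countable_singleton _) ?_ trivial
  intro g' hL u hu _
  obtain ⟨F', hF⟩ := hL _ rfl
  have h0 : g'.Den (onN Cd β) (u 0) := hu 0
  have h1 : g'.Den (onN Cd (ω_ 1)) (u 1) := hu 1
  have hR := fun x y => den_relN hF x y
  refine g'.zfc.sizeLe_of_surj g'.wf_E (F := F') (onN_total h1) (onN_trans h1) ?_ ?_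
  · intro x y y' _ _ _ h2 h3
    obtain ⟨⟨⟨ξ, q⟩, hz⟩, hq, h4, h5⟩ := (hR x y).1 h2
    obtain ⟨⟨⟨ξ', q'⟩, hz'⟩, hq', h4', h5'⟩ := (hR x y').1 h3
    have : ξ = ξ' := iN_inj h4 h4'
    subst this
    obtain ⟨r, hr, h6, h7⟩ := g'.dir q hq q' hq'
    have h8 := (Cl.le_iff.1 h6.1).2 ξ hz
    have h9 := (Cl.le_iff.1 h7.1).2 ξ hz'
    have h10 : q.1.br ξ = q'.1.br ξ := h8.symm.trans h9
    change g'.Den (onN Cd (e (q.1.br ξ)).toOrd.1) y at h5
    change g'.Den (onN Cd (e (q'.1.br ξ)).toOrd.1) y' at h5'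
    rw [h10] at h5
    exact h5.unique h5'
  · intro y hy
    obtain ⟨η, hη, hyη⟩ := (den_onN h0 y).1 hy
    refine Gen.tp (v := ![onN Cd (ω_ 1), F, onN Cd η])
      (a := ![u 1, F', y]) (den3 h1 hF hyη) Dfn.true
      (S := fun _ E v => ∃ x, E x (v 0) ∧ Rel E (v 1) x (v 2))
      (.ex (.and (.mem _ _) (dfn_rel _ _ _))) (fun p _ => ?_) trivial
    obtain ⟨m, hm⟩ := he (ToType.mk ⟨η, hη⟩)
    refine ⟨snoc p m, snoc_le p m, {iN p.1.len}, Set.countable_singleton _, ?_⟩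
    intro g3 hg3 hL3 u3 hu3 _
    obtain ⟨x, hx⟩ := hL3 _ rfl
    have e0 : g3.Den (onN Cd (ω_ 1)) (u3 0) := hu3 0
    have e1 : g3.Den F (u3 1) := hu3 1
    have e2 : g3.Den (onN Cd η) (u3 2) := hu3 2
    refine ⟨x, (mem_o e0).2 ⟨_, hx⟩, ?_⟩
    have hlen : p.1.len < (snoc p m).1.len := lt_sc_self _
    refine (den_relN e1 x _).2 ⟨⟨(p.1.len, snoc p m), hlen⟩, hg3, hx, ?_⟩
    change g3.Den (onN Cd (e ((snoc p m).1.br p.1.len)).toOrd.1) (u3 2)
    rw [snoc_br, hm]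
    simpa [ToType.toOrd] using e2

end Pool.Agent.H16.HD
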