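import Pool.Agent.H16.HD.CdB
import Pool.Agent.H16.HD.Fus

/-!
# Countable sets of ordinals are covered by countable ground model sets; `ω₁` is preserved (module HD-COV)

* `cover_names`: by `Fc.exists_name` (conclusion `∃ f, IsInj f ζ ω`) pass to `q ≤ p` with a name `φ` forced to be an injection from `ζ` to `ω`.
  Apply `fusion_cover'` with `W = Option Ordinal.{0}` and
  `S n q w`: either `w = some β` with `β < α` and `q` forces `Rel φ (onN β) (onN n)`, or `w = none` and no `q' ≤ q` forces `Rel φ (onN β) (onN n)` for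
  any `β < α`.  It is monotone, and possible below every `q` (by cases).  We get `q₀` with `Hl q₀ q` and countable `E n`; let `T` be the set of all `β < α` with `some β ∈ E n` for
  some `n`.  Let `q₀ ∈ g.G`, `x ∈ z` with `x` the value of `onN β`; to show `β ∈ T`.  Work in a generic structure in which `onN ω` and `φ` are denoted too
  (the statement to be proved does not mention them: argue with conditions: if `β ∉ T`, by the truth lemma `Fc.truth` some `r ∈ g.G`, `r ≤ q₀`, forces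
  `onN β ∈ ζ`; take (`exists_gen_set`) a generic structure `g'` containing `r` in which `ζ`, `φ`, `onN β`, `onN ω`, `onN α` are denoted; there `φ` maps the value of
  `onN β` to some natural number `n`, and some `r' ≤ r` forces `Rel φ (onN β) (onN n)` (`Fc.truth`); by `fusion_cover'` there are `r'' ≤ r'` and `w ∈ E n` with
  `S n r'' w`; `w = none` is impossible and `w = some β'` gives `β' = β` by injectivity of `φ` (`IsInj`, `onN_inj`), a contradiction).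
* `bounded_of_ctbl`: by `Gen.tp` with names `![onN ω, onN (ω_ 1), ζ]` (`ζ` a name of `z`), hypothesis `IsSub z o ∧ SizeLe z w`, conclusion
  `∃ d ∈ o, ∀ x ∈ z, x ∈ d`: `cover_names` gives `q ≤ p` and countable `T`; let `δ : Ix` be larger than all elements of `T` below `ω₁` (`exists_gt_set`) and
  `L = {iN δ}`.
* `not_sizeLe_omega1`: if `SizeLe o w` then `bounded_of_ctbl` for `z = o` gives `d ∈ o` with `d ∈ d`.
-/

set_option autoImplicit false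

namespace Pool.Agent.H16.HD

open Pool.Agent.H90.Frc Pool.Agent.H51.Hfc Ordinal Cardinal

/-- `q` forces that the value of `onN β` is in `ζ` and is mapped by `φ` to `n` -/
def SC (α : Ordinal.{0}) (ζ φ : Name Cd) (n : ℕ) (q : Cd) (β : Ordinal.{0}) : Prop :=
  β < α ∧ Fc q ![onN Cd β, onN Cd n, φ, ζ] (fun _ E a => Rel E (a 2) (a 0) (a 1) ∧ E (a 0) (a 3))

theorem SC.mono {α : Ordinal.{0}} {ζ φ : Name Cd} {n : ℕ} {q q' : Cd} {β : Ordinal.{0}}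
    (h : SC α ζ φ n q β) (hq : q' ≤ q) : SC α ζ φ n q' β := ⟨h.1, h.2.mono hq⟩

theorem cover_names {p : Cd} {ζ : Name Cd} {α : Ordinal.{0}}
    (h : Fc p ![onN Cd ω, onN Cd α, ζ] (fun _ E a => IsSub E (a 2) (a 1) ∧ SizeLe E (a 2) (a 0))) :
    ∃ q ≤ p, ∃ T : Set Ordinal.{0}, T.Countable ∧ ∀ g : Gen Cd, q ∈ g.G → ∀ z x : g.M,
      g.Den ζ z → g.E x z → ∀ β < α, g.Den (onN Cd β) x → β ∈ T := by
  have h1 : Fc p ![onN Cd ω, onN Cd α, ζ] (fun M E a => ∃ b,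
      (fun (M : Type) (E : M → M → Prop) (a : Fin 4 → M) => IsInj E (a 3) (a 2) (a 0))
        M E (ext a b)) := by
    refine h.imp fun M E a h => ?_
    obtain ⟨f, hf⟩ := h.2
    exact ⟨f, hf⟩
  obtain ⟨q, hq, φ, hφ⟩ := Fc.exists_name (dfn_isInj 3 2 0) h1
  rw [ext_vec3] at hφ
  obtain ⟨q₀, hq₀, E, hE, hE'⟩ := fusion_cover' (W := Option Ordinal.{0})
    (S := fun n q w => (∃ β, w = some β ∧ SC α ζ φ n q β) ∨
      (w = none ∧ ∀ q' ≤ q, ∀ β, ¬ SC α ζ φ n q' β))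
    (by
      rintro n q q' w (⟨β, h1, h2⟩ | ⟨h1, h2⟩) hle
      · exact Or.inl ⟨β, h1, h2.mono hle⟩
      · exact Or.inr ⟨h1, fun r hr => h2 r (hr.trans hle)⟩) (p := q)
    (by
      intro n r _
      by_cases hex : ∃ q' ≤ r, ∃ β, SC α ζ φ n q' β
      · obtain ⟨q', hq', β, hβ⟩ := hex
        exact ⟨q', hq', some β, Or.inl ⟨β, rfl, hβ⟩⟩
      · push Not at hex
        exact ⟨r, le_rfl, none, Or.inr ⟨rfl, hex⟩⟩)
  refine ⟨q₀, hq₀.le.trans hq, ⋃ n, some ⁻¹' (E n),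
    Set.countable_iUnion fun n => (hE n).preimage (Option.some_injective _), ?_⟩
  intro g hg z x hz hxz β hβ hx
  obtain ⟨r, hr, hfr⟩ := (Fc.truth (v := ![onN Cd β, ζ]) (a := ![x, z]) (Dfn.mem 0 1)
    (den2 hx hz)).1 hxz
  obtain ⟨r', hr', h2, h3⟩ := g.dir r hr q₀ hg
  obtain ⟨g', hg', -, u, hu⟩ := exists_gen_set r' ![onN Cd β, ζ, φ, onN Cd ω, onN Cd α]
    (L := ∅) Set.countable_empty
  have e0 : g'.Den (onN Cd β) (u 0) := hu 0
  have e1 : g'.Den ζ (u 1) := hu 1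
  have e2 : g'.Den φ (u 2) := hu 2
  have e3 : g'.Den (onN Cd ω) (u 3) := hu 3
  have e4 : g'.Den (onN Cd α) (u 4) := hu 4
  have hmem : g'.E (u 0) (u 1) := (hfr.mono h2) g' hg' ![u 0, u 1] (den2 e0 e1)
  have hq₀g : q₀ ∈ g'.G := g'.up r' hg' q₀ h3
  have hinj : IsInj g'.E (u 2) (u 1) (u 3) :=
    hφ g' (g'.up q₀ hq₀g q hq₀.le) ![u 3, u 4, u 1, u 2] (den4 e3 e4 e1 e2)
  obtain ⟨y, hy, hxy, -⟩ := hinj.1 (u 0) hmem
  obtain ⟨γ, hγ, hyγ⟩ := (den_onN e3 y).1 hy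
  obtain ⟨n, rfl⟩ := lt_omega0.1 hγ
  obtain ⟨r2, hr2, hf2⟩ := (Fc.truth (v := ![onN Cd β, onN Cd n, φ, ζ])
    (a := ![u 0, y, u 2, u 1]) (R := fun _ E a => Rel E (a 2) (a 0) (a 1) ∧ E (a 0) (a 3))
    (.and (dfn_rel _ _ _) (.mem _ _)) (den4 e0 hyγ e2 e1)).1 ⟨hxy, hmem⟩
  obtain ⟨r3, hr3, h4, h5⟩ := g'.dir r2 hr2 r' hg'
  obtain ⟨q'', hq'', w, hw, hS⟩ := hE' n r3 (h5.trans h3)
  have hSC : SC α ζ φ n q'' β := ⟨hβ, hf2.mono (hq''.trans h4)⟩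
  rcases hS with ⟨β', rfl, hβ'⟩ | ⟨-, hno⟩
  · obtain ⟨g2, hg2, -, u2, hu2⟩ := exists_gen_set q'' ![onN Cd β, ζ, φ, onN Cd ω, onN Cd α,
      onN Cd β', onN Cd n] (L := ∅) Set.countable_empty
    have f0 : g2.Den (onN Cd β) (u2 0) := hu2 0
    have f1 : g2.Den ζ (u2 1) := hu2 1
    have f2 : g2.Den φ (u2 2) := hu2 2
    have f3 : g2.Den (onN Cd ω) (u2 3) := hu2 3
    have f4 : g2.Den (onN Cd α) (u2 4) := hu2 4
    have f5 : g2.Den (onN Cd β') (u2 5) := hu2 5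
    have f6 : g2.Den (onN Cd n) (u2 6) := hu2 6
    have hq2 : q ∈ g2.G := g2.up q'' hg2 q
      (hq''.trans (h5.trans (h3.trans hq₀.le)))
    have hinj2 : IsInj g2.E (u2 2) (u2 1) (u2 3) :=
      hφ g2 hq2 ![u2 3, u2 4, u2 1, u2 2] (den4 f3 f4 f1 f2)
    obtain ⟨k1, k2⟩ := hSC.2 g2 hg2 ![u2 0, u2 6, u2 2, u2 1] (den4 f0 f6 f2 f1)
    obtain ⟨k3, k4⟩ := hβ'.2 g2 hg2 ![u2 5, u2 6, u2 2, u2 1] (den4 f5 f6 f2 f1)
    have he : u2 0 = u2 5 := hinj2.2 _ _ _ k2 k4 k1 k3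
    rw [he] at f0
    have : β = β' := onN_inj f0 f5
    subst this
    exact Set.mem_iUnion.2 ⟨n, hw⟩
  · exact absurd hSC (hno q'' le_rfl β)

variable {g : Gen Cd}

theorem bounded_of_ctbl {w o z : g.M} (hw : g.Den (onN Cd ω) w) (ho : g.Den (onN Cd (ω_ 1)) o)
    (hz : IsSub g.E z o) (hc : SizeLe g.E z w) : ∃ d, g.E d o ∧ ∀ x, g.E x z → g.E x d := by
  obtain ⟨ζ, hζ⟩ := g.exists_den z
  refine Gen.tp (v := ![onN Cd ω, onN Cd (ω_ 1), ζ]) (a := ![w, o, z]) (den3 hw ho hζ)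
    (R := fun _ E a => IsSub E (a 2) (a 1) ∧ SizeLe E (a 2) (a 0))
    (S := fun _ E a => ∃ d, E d (a 1) ∧ ∀ x, E x (a 2) → E x d)
    (.and (dfn_isSub _ _) (dfn_sizeLe _ _))
    (.ex (.and (.mem _ _) (.all (.imp (.mem _ _) (.mem _ _))))) (fun p hp => ?_) ⟨hz, hc⟩
  obtain ⟨q, hq, T, hT, hcov⟩ := cover_names hp
  have hT' : ({ξ : Ix | ξ.toOrd.1 ∈ T}).Countable :=
    hT.preimage (f := fun ξ : Ix => ξ.toOrd.1) (fun _ _ h => toOrd_inj h)
  obtain ⟨δ, hδ⟩ := exists_gt_set hT'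
  refine ⟨q, hq, {iN δ}, Set.countable_singleton _, ?_⟩
  intro g' hg' hL u hu hR
  obtain ⟨d, hd⟩ := hL _ rfl
  have h1 : g'.Den (onN Cd (ω_ 1)) (u 1) := hu 1
  have h2 : g'.Den ζ (u 2) := hu 2
  refine ⟨d, (mem_o h1).2 ⟨δ, hd⟩, fun x hx => ?_⟩
  obtain ⟨ξ, hξ⟩ := (mem_o h1).1 (hR.1 x hx)
  exact (iN_lt hξ hd).2 (hδ ξ (hcov g' hg' (u 2) x h2 hx _ ξ.toOrd.2 hξ))

theorem not_sizeLe_omega1 {w o : g.M} (hw : g.Den (onN Cd ω) w) (ho : g.Den (onN Cd (ω_ 1)) o) :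
    ¬ SizeLe g.E o w := by
  intro h
  obtain ⟨d, hd, h'⟩ := bounded_of_ctbl hw ho (fun _ h => h) h
  exact Gen.not_E_self d (h' d hd)

end Pool.Agent.H16.HD
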