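import Pool.Agent.H16.HD.Bas

/-!
# Maximal independent sets in the generic structure (module HD-MAX)

Let `R` be a reflexive and symmetric definable relation (with parameters `c`) on the set `C`.  There is a maximal `K ⊆ C` of
pairwise unrelated elements.

Proof.  Let `γ`, `v` be names of `C`, `c` (`g.exists_den`).  Well-order the type `γ.idx` (`WellOrderingRel`, or
`linearOrderOfSTO`, or take an equivalence with `(Cardinal.mk γ.idx).ord.ToType` as in `Gen.exists_enum`) and define by well-founded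
recursion `KC : γ.idx → P → Prop`,
`KC i q ↔ q ≤ γ.r i ∧ ∀ j < i, ∀ q' ≤ q, KC j q' → Fc q' (ext (ext v (γ.A i)) (γ.A j)) (¬ R)` (`¬ R` is `fun M E a => ¬ R M E a`, definable).
`KC i` is monotone.  `κ = Name.mk {z : γ.idx × P // KC z.1 z.2} (γ.A z.1.1) (z.1.2)`.
Apply `Gen.tp` (with names `ext v γ`, hypothesis: reflexivity and symmetry of `R` on `C`, conclusion: the existence of `K`; both are
definable, `Dfn.comp'` is useful) with `q = p` and `L = {κ}`.  In a generic structure `g` let `K` be the value of `κ` (`Gen.mem_iff`: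
`x ∈ K` iff `x` is the value of `γ.A i` for some `i`, `q ∈ g.G` with `KC i q`).
* `K ⊆ C`: `Gen.mem_iff`.
* independent: `x = γ.A i`, `y = γ.A j` with `KC i q`, `KC j q'`, `q, q' ∈ g.G`; `i ≠ j` as `x ≠ y`; say `j < i` (otherwise exchange the roles,
  using symmetry); take `r ∈ g.G` below `q`, `q'`: `KC j r` and so `r` forces `¬ R (γ.A i) (γ.A j)`.
* maximal: let `x ∈ C`, `x = γ.A i` with `γ.r i ∈ g.G`, and suppose that no `y ∈ K` has `R x y`.  By `Fc.truth` (names `ext (ext v κ) (γ.A i)`) there is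
  `q ∈ g.G`, which we may take `≤ γ.r i`, forcing: no `y ∈ κ` has `R (γ.A i) y`.  Then `KC i q`: for `j < i`, `q' ≤ q` with `KC j q'` the
  condition `q'` forces `γ.A j ∈ κ` (`Fc`: in every `g'` containing `q'`), so it forces `¬ R (γ.A i) (γ.A j)` (to have the name `κ` denoted use
  `Fc.with_names`).  So `x ∈ K` and `R x x` by reflexivity, a contradiction.
-/

set_option autoImplicit false

namespace Pool.Agent.H16.HD

open Pool.Agent.H90.Frc Pool.Agent.H51.Hfc Ordinal

variable {P : Type} [PartialOrder P] [OrderTop P] {g : Gen P}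

omit [OrderTop P] in
theorem dfn_ext2 {n m : ℕ} {R : Pred (n + 2)} (hR : Dfn R) (f : Fin n → Fin m) (i j : Fin m) :
    Dfn (fun M E w => R M E (ext (ext (fun k => w (f k)) (w i)) (w j))) :=
  hR.comp' (ext (ext f i) j) fun M E w => by rw [ext_comp, ext_comp]

omit [OrderTop P] in
theorem den_ext {n : ℕ} {v : Fin n → Name P} {σ : Name P} {g : Gen P} {a : Fin (n + 1) → g.M}
    (h : ∀ i, g.Den (ext v σ i) (a i)) :
    ∃ c x, a = ext c x ∧ (∀ i, g.Den (v i) (c i)) ∧ g.Den σ x :=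
  ⟨fun i => a i.castSucc, a (Fin.last n), (ext_self a).symm,
    fun i => by simpa using h i.castSucc, by simpa using h (Fin.last n)⟩

theorem exists_maxIndep (C : g.M) {n : ℕ} {R : Pred (n + 2)} (hR : Dfn R) (c : Fin n → g.M)
    (hrefl : ∀ x, g.E x C → R g.M g.E (ext (ext c x) x))
    (hsymm : ∀ x y, g.E x C → g.E y C → R g.M g.E (ext (ext c x) y) →
      R g.M g.E (ext (ext c y) x)) :
    ∃ K, IsSub g.E K C ∧
      (∀ x y, g.E x K → g.E y K → x ≠ y → ¬ R g.M g.E (ext (ext c x) y)) ∧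
      ∀ x, g.E x C → ∃ y, g.E y K ∧ R g.M g.E (ext (ext c x) y) := by
  classical
  obtain ⟨γ, hγ⟩ := g.exists_den C
  obtain ⟨v, hv⟩ : ∃ v : Fin n → Name P, ∀ i, g.Den (v i) (c i) := by
    choose v hv using fun i => g.exists_den (c i)
    exact ⟨v, hv⟩
  obtain ⟨KC, hKC⟩ : ∃ KC : γ.idx → P → Prop, ∀ i q, KC i q ↔ q ≤ γ.r i ∧
      ∀ j, WellOrderingRel j i → ∀ q' ≤ q, KC j q' →
        Fc q' (ext (ext v (γ.A i)) (γ.A j)) (fun M E a => ¬ R M E a) := by
    refine ⟨(IsWellFounded.wf (r := (WellOrderingRel : γ.idx → γ.idx → Prop))).fix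
      (C := fun _ => P → Prop) (fun i ih q => q ≤ γ.r i ∧ ∀ j, ∀ hj : WellOrderingRel j i,
        ∀ q' ≤ q, ih j hj q' →
        Fc q' (ext (ext v (γ.A i)) (γ.A j)) (fun M E a => ¬ R M E a)), fun i q => ?_⟩
    rw [WellFounded.fix_eq]
  have hmono : ∀ i q q', q' ≤ q → KC i q → KC i q' := by
    intro i q q' hq h
    rw [hKC] at h ⊢
    exact ⟨hq.trans h.1, fun j hj r hr hj' => h.2 j hj r (hr.trans hq) hj'⟩
  obtain ⟨κ, hκ⟩ : ∃ κ : Name P, κ = Name.mk {z : γ.idx × P // KC z.1 z.2}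
    (fun z => γ.A z.1.1) (fun z => z.1.2) := ⟨_, rfl⟩
  have hmem : ∀ (g' : Gen P) (K x : g'.M), g'.Den κ K → (g'.E x K ↔
      ∃ i, ∃ q ∈ g'.G, KC i q ∧ g'.Den (γ.A i) x) := by
    intro g' K x hK
    subst hκ
    rw [Gen.mem_iff hK]
    constructor
    · rintro ⟨⟨⟨i, q⟩, hz⟩, h1, h2⟩
      exact ⟨i, q, h1, hz, h2⟩
    · rintro ⟨i, q, h1, hz, h2⟩
      exact ⟨⟨⟨i, q⟩, hz⟩, h1, h2⟩
  have key := Gen.tn (v := ext v γ) (a := ext c C) (Gen.ext_den hv hγ)
    (R := fun M E a => (∀ x, E x (a (Fin.last n)) →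
      R M E (ext (ext (fun i => a i.castSucc) x) x)) ∧
      (∀ x, ∀ y, E x (a (Fin.last n)) → E y (a (Fin.last n)) →
        R M E (ext (ext (fun i => a i.castSucc) x) y) →
        R M E (ext (ext (fun i => a i.castSucc) y) x)))
    (S := fun M E a => ∃ K, IsSub E K (a (Fin.last n)) ∧
      (∀ x, ∀ y, E x K → E y K → ¬ x = y → ¬ R M E (ext (ext (fun i => a i.castSucc) x) y)) ∧
      ∀ x, E x (a (Fin.last n)) → ∃ y, E y K ∧ R M E (ext (ext (fun i => a i.castSucc) x) y))
    (.and (.all (.imp (.mem _ _) (dfn_ext2 hR (fun k => k.castSucc.castSucc) _ _)))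
      (.all (.all (.imp (.mem _ _) (.imp (.mem _ _) (.imp
        (dfn_ext2 hR (fun k => k.castSucc.castSucc.castSucc) _ _)
        (dfn_ext2 hR (fun k => k.castSucc.castSucc.castSucc) _ _)))))))
    (.ex (.and (dfn_isSub _ _) (.and (.all (.all (.imp (.mem _ _) (.imp (.mem _ _)
        (.imp (.not (.eq _ _))
          (.not (dfn_ext2 hR (fun k => k.castSucc.castSucc.castSucc.castSucc) _ _)))))))
      (.all (.imp (.mem _ _) (.ex (.and (.mem _ _)
        (dfn_ext2 hR (fun k => k.castSucc.castSucc.castSucc.castSucc) _ _))))))))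
    (L := {κ}) (Set.countable_singleton _) ?_ ?_
  · obtain ⟨K, h1, h2, h3⟩ := key
    simp only [ext_castSucc, ext_last] at h1 h2 h3
    exact ⟨K, h1, h2, h3⟩
  · intro g' hL a ha
    obtain ⟨c', C', rfl, hc', hC'⟩ := den_ext ha
    simp only [ext_castSucc, ext_last]
    rintro ⟨hrefl', hsymm'⟩
    obtain ⟨K, hK⟩ := hL κ rfl
    have hsub : IsSub g'.E K C' := by
      intro x hx
      obtain ⟨i, q, hq, hi, hx'⟩ := (hmem g' K x hK).1 hx
      exact (Gen.mem_iff hC').2 ⟨i, g'.up q hq _ ((hKC i q).1 hi).1, hx'⟩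
    have hone : ∀ i j q q' x y, WellOrderingRel j i → q ∈ g'.G → q' ∈ g'.G → KC i q → KC j q' →
        g'.Den (γ.A i) x → g'.Den (γ.A j) y → ¬ R g'.M g'.E (ext (ext c' x) y) := by
      intro i j q q' x y hji hq hq' hi hj hx hy
      obtain ⟨r, hr, h1, h2⟩ := g'.dir q hq q' hq'
      exact ((hKC i q).1 hi).2 j hji r h1 (hmono j q' r h2 hj) g' hr _
        (Gen.ext_den (Gen.ext_den hc' hx) hy)
    refine ⟨K, hsub, ?_, ?_⟩
    · intro x y hx hy hne
      obtain ⟨i, q, hq, hi, hx'⟩ := (hmem g' K x hK).1 hx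
      obtain ⟨j, q', hq', hj, hy'⟩ := (hmem g' K y hK).1 hy
      rcases trichotomous_of WellOrderingRel i j with h | h | h
      · intro hcon
        exact hone j i q' q y x h hq' hq hj hi hy' hx'
          (hsymm' x y (hsub x hx) (hsub y hy) hcon)
      · subst h
        exact absurd (hx'.unique hy') hne
      · exact hone i j q q' x y h hq hq' hi hj hx' hy'
    · intro x hx
      by_contra hcon
      push Not at hcon
      obtain ⟨i, hi, hx'⟩ := (Gen.mem_iff hC').1 hx
      obtain ⟨q₀, hq₀, hf⟩ := (Fc.truth (v := ext (ext v κ) (γ.A i)) (a := ext (ext c' K) x)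
        (R := fun M E a => ∀ y, E y (a (Fin.last n).castSucc) →
          ¬ R M E (ext (ext (fun i => a i.castSucc.castSucc) (a (Fin.last (n + 1)))) y))
        (.all (.imp (.mem _ _) (.not
          (dfn_ext2 hR (fun k => k.castSucc.castSucc.castSucc) _ _))))
        (Gen.ext_den (Gen.ext_den hc' hK) hx')).1 (by
          intro y hy
          simp only [ext_castSucc, ext_last] at hy ⊢
          exact hcon y hy)
      obtain ⟨q, hq, h1, h2⟩ := g'.dir q₀ hq₀ _ hi
      have hKq : KC i q := by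
        rw [hKC]
        refine ⟨h2, fun j hj q' hq' hj' => ?_⟩
        refine Fc.with_names hR.not (L := {κ}) (Set.countable_singleton _) ?_
        intro g2 hg2 hL2 a2 ha2
        obtain ⟨b2, y2, rfl, hb2, hy2⟩ := den_ext ha2
        obtain ⟨c2, x2, rfl, hc2, hx2⟩ := den_ext hb2
        obtain ⟨K2, hK2⟩ := hL2 κ rfl
        have h3 := hf g2 (g2.up q' hg2 q₀ (hq'.trans h1)) _
          (Gen.ext_den (Gen.ext_den hc2 hK2) hx2) y2
        simp only [ext_castSucc, ext_last] at h3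
        exact h3 ((hmem g2 K2 y2 hK2).2 ⟨j, q', hg2, hj', hy2⟩)
      exact hcon x ((hmem g' K x hK).2 ⟨i, q, hq, hKq, hx'⟩) (hrefl' x hx)
  · simp only [ext_castSucc, ext_last]
    exact ⟨hrefl, hsymm⟩

end Pool.Agent.H16.HD
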