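import Pool.Agent.H16.HD.Full
import Pool.Agent.H16.HD.Max

/-!
# Countable unions in the generic structure (module HD-CUN)

`exists_ctbl_collect` (countable choice and countable unions in one statement).  Let `υ`, `ω`, `v` be names of `Γ`, `w`, `c`; by `Gen.tp` (names
`ext (ext v υ) (onN P ω)`, hypothesis: `SizeLe Γ w` and the hypothesis `h`; conclusion: the conclusion) we may work with a condition `p`
which forces the hypotheses.  By `Fc.exists_name` (pass to `q ≤ p`) let `φ` be a name such that `q` forces `IsInj φ Γ w`.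
(1) For `m : ℕ`, `q` forces: there are `Y`, `f` such that if some `α ∈ Γ` has `Rel φ α m` then `IsInj f Y w` and `R c α Y` for this `α` (it
is unique).  By `full` (twice, or once for the pair after writing the statement as `∃ Y, ∃ f, …`) there are names `Y m`, `f m`
for these (the name `onN P m` of `m` is a parameter).
(2) For `m k : ℕ`, `q` forces: there is `y` such that if some element of `Y m` is mapped by `f m` to `k` then `y` is such an element.  By
`full` there is a name `y m k`.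
Let `ζ = Name.mk (ℕ × ℕ) (fun z => y z.1 z.2) (fun _ => ⊤)` and let `L` consist of `ζ`, all `Y m`, `f m`, `y m k`, `onN P m`, `φ` and the name
`relN (fun z : ℕ × ℕ => onN P (Nat.pair z.1 z.2)) (fun z => y z.1 z.2) (fun _ => ⊤)` of a surjection.  In a generic structure `g` with
`q ∈ g.G` naming all elements of `L`: let `Z` be the value of `ζ`.  `SizeLe Z w` by `ZFC.sizeLe_of_surj` (`g.zfc`, `g.wf_E`, `onN_total`,
`onN_trans`, `den_relN`, `onN_inj`).  For `α ∈ Γ` there is `m` with `Rel φ α m`; let `Y` be the value of `Y m`: every `y ∈ Y` is mapped by `f m` to some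
`k ∈ w`, a natural number, so `y` is the value of `y m k` by injectivity, hence `y ∈ Z`.

`exists_union_ctbl`: e.g. from `exists_ctbl_collect` applied to the pair `{a, b}` (which is countable) and `R = (Y = α)`; or directly.
-/

set_option autoImplicit false

namespace Pool.Agent.H16.HD

open Pool.Agent.H90.Frc Pool.Agent.H51.Hfc Ordinal

variable {P : Type} [PartialOrder P] [OrderTop P] {g : Gen P}

omit [OrderTop P] in
theorem dfn_exExt {n : ℕ} {T : Pred (n + 1)} (hT : Dfn T) :
    Dfn (fun M E a => ∃ f, T M E (ext a f)) :=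
  .ex (hT.congr fun M E v => by rw [ext_self])

theorem exists_ctbl_collect {w Γ : g.M} (hw : g.Den (onN P ω) w) (hΓ : SizeLe g.E Γ w) {n : ℕ}
    {R : Pred (n + 2)} (hR : Dfn R) (c : Fin n → g.M)
    (h : ∀ α, g.E α Γ → ∃ Y, SizeLe g.E Y w ∧ R g.M g.E (ext (ext c α) Y)) :
    ∃ Z, SizeLe g.E Z w ∧ ∀ α, g.E α Γ → ∃ Y, IsSub g.E Y Z ∧ SizeLe g.E Y w ∧
      R g.M g.E (ext (ext c α) Y) := by
  obtain ⟨υ, hυ⟩ := g.exists_den Γ
  obtain ⟨v, hv⟩ : ∃ v : Fin n → Name P, ∀ i, g.Den (v i) (c i) := by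
    choose v hv using fun i => g.exists_den (c i)
    exact ⟨v, hv⟩
  have key := Gen.tp (v := ext (ext v υ) (onN P ω)) (a := ext (ext c Γ) w)
    (Gen.ext_den (Gen.ext_den hv hυ) hw)
    (R := fun M E a => SizeLe E (a (Fin.last n).castSucc) (a (Fin.last (n + 1))) ∧
      ∀ α, E α (a (Fin.last n).castSucc) → ∃ Y, SizeLe E Y (a (Fin.last (n + 1))) ∧
        R M E (ext (ext (fun i => a i.castSucc.castSucc) α) Y))
    (S := fun M E a => ∃ Z, SizeLe E Z (a (Fin.last (n + 1))) ∧
      ∀ α, E α (a (Fin.last n).castSucc) → ∃ Y, IsSub E Y Z ∧ SizeLe E Y (a (Fin.last (n + 1))) ∧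
        R M E (ext (ext (fun i => a i.castSucc.castSucc) α) Y))
    (.and (dfn_sizeLe _ _) (.all (.imp (.mem _ _) (.ex (.and (dfn_sizeLe _ _)
      (dfn_ext2 hR (fun k => k.castSucc.castSucc.castSucc.castSucc) _ _))))))
    (.ex (.and (dfn_sizeLe _ _) (.all (.imp (.mem _ _) (.ex (.and (dfn_isSub _ _)
      (.and (dfn_sizeLe _ _)
      (dfn_ext2 hR (fun k => k.castSucc.castSucc.castSucc.castSucc.castSucc) _ _))))))))
    ?_ ?_
  · simp only [ext_castSucc, ext_last] at key
    exact key
  · intro p hp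
    have h1 : Fc p (ext (ext v υ) (onN P ω)) (fun M E a => ∃ b,
        (fun (M : Type) (E : M → M → Prop) (a : Fin (n + 3) → M) =>
          IsInj E (a (Fin.last (n + 2))) (a (Fin.last n).castSucc.castSucc)
            (a (Fin.last (n + 1)).castSucc)) M E (ext a b)) := by
      refine hp.imp fun M E a h => ?_
      obtain ⟨f, hf⟩ := h.1
      refine ⟨f, ?_⟩
      simp only [ext_castSucc, ext_last]
      exact hf
    obtain ⟨q, hq, φ, hφ⟩ := Fc.exists_name (dfn_isInj _ _ _) h1
    have h2 : ∀ m : ℕ, ∃ Y f : Name P,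
        Fc q (ext (ext (ext (ext (ext (ext v υ) (onN P ω)) φ) (onN P m)) Y) f)
        (fun M E a => ∀ α, E α (a (Fin.last n).castSucc.castSucc.castSucc.castSucc.castSucc) →
          Rel E (a (Fin.last (n + 2)).castSucc.castSucc.castSucc) α
            (a (Fin.last (n + 3)).castSucc.castSucc) →
          IsInj E (a (Fin.last (n + 5))) (a (Fin.last (n + 4)).castSucc)
            (a (Fin.last (n + 1)).castSucc.castSucc.castSucc.castSucc) ∧
          R M E (ext (ext (fun i => a i.castSucc.castSucc.castSucc.castSucc.castSucc.castSucc) α)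
            (a (Fin.last (n + 4)).castSucc))) := by
      intro m
      have hT : Dfn (n := n + 6) (fun M E a =>
          ∀ α, E α (a (Fin.last n).castSucc.castSucc.castSucc.castSucc.castSucc) →
          Rel E (a (Fin.last (n + 2)).castSucc.castSucc.castSucc) α
            (a (Fin.last (n + 3)).castSucc.castSucc) →
          IsInj E (a (Fin.last (n + 5))) (a (Fin.last (n + 4)).castSucc)
            (a (Fin.last (n + 1)).castSucc.castSucc.castSucc.castSucc) ∧
          R M E (ext (ext (fun i => a i.castSucc.castSucc.castSucc.castSucc.castSucc.castSucc) α)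
            (a (Fin.last (n + 4)).castSucc))) :=
        .all (.imp (.mem _ _) (.imp (dfn_rel _ _ _) (.and (dfn_isInj _ _ _)
          (dfn_ext2 hR (fun k => k.castSucc.castSucc.castSucc.castSucc.castSucc.castSucc.castSucc)
            _ _))))
      have h3 : Fc q (ext (ext (ext (ext v υ) (onN P ω)) φ) (onN P m)) (fun M E a => ∃ Y,
          (fun (M : Type) (E : M → M → Prop) (a : Fin (n + 5) → M) => ∃ f,
            (fun (M : Type) (E : M → M → Prop) (a : Fin (n + 6) → M) =>
          ∀ α, E α (a (Fin.last n).castSucc.castSucc.castSucc.castSucc.castSucc) →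
          Rel E (a (Fin.last (n + 2)).castSucc.castSucc.castSucc) α
            (a (Fin.last (n + 3)).castSucc.castSucc) →
          IsInj E (a (Fin.last (n + 5))) (a (Fin.last (n + 4)).castSucc)
            (a (Fin.last (n + 1)).castSucc.castSucc.castSucc.castSucc) ∧
          R M E (ext (ext (fun i => a i.castSucc.castSucc.castSucc.castSucc.castSucc.castSucc) α)
            (a (Fin.last (n + 4)).castSucc))) M E (ext a f)) M E (ext a Y)) := by
        intro g' hg' a ha
        obtain ⟨a, m', rfl, ha, hm'⟩ := den_ext ha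
        have hφ' := hφ g' hg' a ha
        obtain ⟨a, φ', rfl, ha, hφd⟩ := den_ext ha
        have hp' := hp g' (g'.up q hg' p hq) a ha
        obtain ⟨a, w', rfl, ha, hw'⟩ := den_ext ha
        obtain ⟨c', Γ', rfl, hc', hΓ'⟩ := den_ext ha
        simp only [ext_castSucc, ext_last] at hφ' hp' ⊢
        by_cases hex : ∃ α, g'.E α Γ' ∧ Rel g'.E φ' α m'
        · obtain ⟨α, hα, hαm⟩ := hex
          obtain ⟨Y, ⟨f, hf⟩, hRY⟩ := hp'.2 α hα
          refine ⟨Y, f, fun β hβ hβm => ?_⟩
          have : β = α := hφ'.2 _ _ _ hβ hα hβm hαm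
          subst this
          exact ⟨hf, hRY⟩
        · exact ⟨Γ', Γ', fun β hβ hβm => absurd ⟨β, hβ, hβm⟩ hex⟩
      obtain ⟨Y, hY⟩ := full (dfn_exExt hT) h3
      obtain ⟨f, hf⟩ := full hT hY
      exact ⟨Y, f, hf⟩
    choose Y f hT using h2
    have h3 : ∀ m k : ℕ, ∃ y : Name P, Fc q ![Y m, f m, onN P k, y] (fun _ E a =>
        (∃ y', E y' (a 0) ∧ Rel E (a 1) y' (a 2)) → E (a 3) (a 0) ∧ Rel E (a 1) (a 3) (a 2)) := by
      intro m k
      have hD : Dfn (n := 4) (fun _ E a =>
        (∃ y', E y' (a 0) ∧ Rel E (a 1) y' (a 2)) → E (a 3) (a 0) ∧ Rel E (a 1) (a 3) (a 2)) :=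
        .imp (.ex (.and (.mem _ _) (dfn_rel _ _ _))) (.and (.mem _ _) (dfn_rel _ _ _))
      obtain ⟨y, hy⟩ := full (v := ![Y m, f m, onN P k]) (p := q) hD (by
        intro g' hg' a ha
        by_cases hex : ∃ y', g'.E y' (a 0) ∧ Rel g'.E (a 1) y' (a 2)
        · obtain ⟨y', hy'⟩ := hex
          exact ⟨y', fun _ => hy'⟩
        · exact ⟨a 0, fun h => absurd h hex⟩)
      rw [ext_vec3] at hy
      exact ⟨y, hy⟩
    choose y hy using h3
    obtain ⟨ζ, hζ⟩ : ∃ ζ : Name P, ζ = Name.mk (ℕ × ℕ) (fun z => y z.1 z.2) (fun _ => ⊤) :=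
      ⟨_, rfl⟩
    obtain ⟨ρ, hρ⟩ : ∃ ρ : Name P, ρ = relN (fun z : ℕ × ℕ => onN P (Nat.pair z.1 z.2 : ℕ))
      (fun z => y z.1 z.2) (fun _ => ⊤) := ⟨_, rfl⟩
    refine ⟨q, hq, {ζ, ρ} ∪ (Set.range Y ∪ (Set.range f ∪ (Set.range (fun z : ℕ × ℕ => y z.1 z.2)
      ∪ {φ}))), ?_, ?_⟩
    · exact (Set.Countable.insert _ (Set.countable_singleton _)).union
        ((Set.countable_range _).union ((Set.countable_range _).union
          ((Set.countable_range _).union (Set.countable_singleton _))))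
    · intro g' hg' hL a ha hRa
      obtain ⟨Z, hZ⟩ := hL ζ (by simp)
      obtain ⟨F, hF⟩ := hL ρ (by simp)
      obtain ⟨φ', hφd⟩ := hL φ (by simp)
      have hφ' := hφ g' hg' _ (Gen.ext_den ha hφd)
      have ha0 := ha
      obtain ⟨a, w', rfl, ha, hw'⟩ := den_ext ha
      obtain ⟨c', Γ', rfl, hc', hΓ'⟩ := den_ext ha
      simp only [ext_castSucc, ext_last] at hφ' hRa ⊢
      have hyd : ∀ m k, ∃ y', g'.Den (y m k) y' := fun m k => hL _ (by
        refine Or.inr (Or.inr (Or.inr (Or.inl ⟨(m, k), rfl⟩))))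
      have hZm : ∀ x, g'.E x Z ↔ ∃ m k, g'.Den (y m k) x := by
        intro x
        subst hζ
        rw [Gen.mem_iff hZ]
        constructor
        · rintro ⟨⟨m, k⟩, -, h⟩
          exact ⟨m, k, h⟩
        · rintro ⟨m, k, h⟩
          exact ⟨(m, k), g'.top_mem, h⟩
      have hFm : ∀ x x', Rel g'.E F x x' ↔ ∃ m k : ℕ, g'.Den (onN P (Nat.pair m k : ℕ)) x ∧
          g'.Den (y m k) x' := by
        intro x x'
        subst hρ
        rw [den_relN hF]
        constructor
        · rintro ⟨⟨m, k⟩, -, h, h'⟩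
          exact ⟨m, k, h, h'⟩
        · rintro ⟨m, k, h, h'⟩
          exact ⟨(m, k), g'.top_mem, h, h'⟩
      refine ⟨Z, ?_, ?_⟩
      · refine g'.zfc.sizeLe_of_surj g'.wf_E (F := F) (onN_total hw') (onN_trans hw') ?_ ?_
        · intro x y1 y2 _ _ _ h1 h2
          obtain ⟨m, k, h3, h4⟩ := (hFm _ _).1 h1
          obtain ⟨m', k', h5, h6⟩ := (hFm _ _).1 h2
          have h7 : Nat.pair m k = Nat.pair m' k' := by
            have := onN_inj h3 h5
            exact_mod_cast this
          obtain ⟨rfl, rfl⟩ := Nat.pair_eq_pair.1 h7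
          exact h4.unique h6
        · intro x hx
          obtain ⟨m, k, h⟩ := (hZm x).1 hx
          obtain ⟨j, hj⟩ := exists_den_nat hw' (Nat.pair m k)
          exact ⟨j, (den_onN hw' j).2 ⟨_, natCast_lt_omega0 _, hj⟩, (hFm _ _).2 ⟨m, k, hj, h⟩⟩
      · intro α hα
        obtain ⟨m', hm', hαm, -⟩ := hφ'.1 α hα
        obtain ⟨μ, hμ, hm⟩ := (den_onN hw' m').1 hm'
        obtain ⟨m, rfl⟩ := lt_omega0.1 hμ
        obtain ⟨Y', hY'⟩ := hL (Y m) (by simp)
        obtain ⟨f', hf'⟩ := hL (f m) (by simp)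
        have hT' := hT m g' hg' _ (Gen.ext_den (Gen.ext_den (Gen.ext_den (Gen.ext_den
          ha0 hφd) hm) hY') hf')
        simp only [ext_castSucc, ext_last] at hT'
        obtain ⟨hinj, hRY⟩ := hT' α hα hαm
        refine ⟨Y', fun x hx => ?_, ⟨f', hinj⟩, hRY⟩
        obtain ⟨k', hk', hxk, -⟩ := hinj.1 x hx
        obtain ⟨ν, hν, hk⟩ := (den_onN hw' k').1 hk'
        obtain ⟨k, rfl⟩ := lt_omega0.1 hν
        obtain ⟨y', hy'⟩ := hyd m k
        obtain ⟨h4, h5⟩ : g'.E y' Y' ∧ Rel g'.E f' y' k' :=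
          hy m k g' hg' ![Y', f', k', y'] (den4 hY' hf' hk hy') ⟨x, hx, hxk⟩
        have : x = y' := hinj.2 _ _ _ hx h4 hxk h5
        subst this
        exact (hZm x).2 ⟨m, k, hy'⟩
  · simp only [ext_castSucc, ext_last]
    exact ⟨hΓ, h⟩

end Pool.Agent.H16.HD
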