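import Pool.Agent.H16.HD.Bas

/-!
# Finite sets in the generic structure (module HD-FNS)

Elements of `w` are the values of `onN P k`, `k : ℕ` (`den_onN`, `lt_omega0`, `exists_den_nat`).  All sets exist by `g.zfc.sep`, `ZFC.exists_union₂`,
`ZFC.pairing`.  `sizeLe_succ`: let `f` be an injection from `a` to `m = k`; the relation `(u, v)` with (`u ∈ a`, `u ≠ x`, `Rel f u v`) or (`u = x`, `v = m`)
is an injection from `b` to `m' = k + 1` (`ZFC.sizeLe_of_rel` with parameters `f, a, x, m`; `onN_succ`: `m' = m ∪ {m}`).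
`sizeLe_pred`: let `f` be an injection from `a` to `m' = m ∪ {m}`, `f x = y`; the relation `(u, v)` with (`Rel f u v`, `v ≠ m`) or
(`Rel f u m`, `v = y`) is an injection from `b` to `m` (if `y = m` the second case does not occur for `u ≠ x`).
`sizeLe_of_isFin`: `IsSub m w` as `w` is transitive (`onN_isOrd`); `ZFC.sizeLe_of_sub`, `ZFC.sizeLe_trans`.
-/

set_option autoImplicit false

namespace Pool.Agent.H16.HD

open Pool.Agent.H90.Frc Pool.Agent.H51.Hfc Ordinal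

variable {P : Type} [PartialOrder P] [OrderTop P] {g : Gen P}

theorem exists_empty (g : Gen P) : ∃ a : g.M, ∀ z, ¬ g.E z a := by
  obtain ⟨a, ⟨z, -, hz⟩, -⟩ := g.zfc.infinity
  exact ⟨z, hz⟩

theorem exists_insert (a x : g.M) : ∃ b, ∀ z, g.E z b ↔ g.E z a ∨ z = x := by
  obtain ⟨s, hs⟩ := g.zfc.pairing x x
  obtain ⟨b, hb⟩ := g.zfc.exists_union₂ a s
  refine ⟨b, fun z => ?_⟩
  rw [hb, hs, or_self]

theorem exists_erase (a x : g.M) : ∃ b, ∀ z, g.E z b ↔ g.E z a ∧ z ≠ x := by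
  obtain ⟨b, hb⟩ := g.zfc.sep (n := 1) (R := fun _ _ w => w 1 ≠ w 0) ((Dfn.eq 1 0).not) ![x] a
  exact ⟨b, fun z => (hb z).trans Iff.rfl⟩

theorem empty_of_sizeLe {m a : g.M} (hm : g.Den (onN P (0 : ℕ)) m) (h : SizeLe g.E a m) (z : g.M) :
    ¬ g.E z a := by
  intro hz
  obtain ⟨f, hf, -⟩ := h
  obtain ⟨y, hy, -⟩ := hf z hz
  obtain ⟨β, hβ, -⟩ := (den_onN hm y).1 hy
  simp at hβ

omit [OrderTop P] in
theorem sizeLe_empty {a m : g.M} (h : ∀ z, ¬ g.E z a) : SizeLe g.E a m :=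
  ⟨m, fun x hx => absurd hx (h x), fun x _ _ hx => absurd hx (h x)⟩

omit [OrderTop P] in
theorem isInj_val {f a b x y : g.M} (hf : IsInj g.E f a b) (hx : g.E x a) (hxy : Rel g.E f x y) :
    g.E y b := by
  obtain ⟨y', hy', -, h⟩ := hf.1 x hx
  rw [h y hxy]
  exact hy'

omit [OrderTop P] in
theorem isInj_fun {f a b x y y' : g.M} (hf : IsInj g.E f a b) (hx : g.E x a)
    (hxy : Rel g.E f x y) (hxy' : Rel g.E f x y') : y = y' := by
  obtain ⟨y₀, -, -, h⟩ := hf.1 x hx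
  rw [h y hxy, h y' hxy']

theorem sizeLe_succ {k : ℕ} {m m' a b x : g.M} (hm : g.Den (onN P k) m)
    (hm' : g.Den (onN P (k + 1 : ℕ)) m') (h : SizeLe g.E a m)
    (hb : ∀ z, g.E z b → g.E z a ∨ z = x) : SizeLe g.E b m' := by
  obtain ⟨f, hf⟩ := h
  have hs := onN_succ hm hm'
  refine g.zfc.sizeLe_of_rel (n := 4) (R := fun _ E w =>
    (E (w 4) (w 1) ∧ w 4 ≠ w 2 ∧ Rel E (w 0) (w 4) (w 5)) ∨ (w 4 = w 2 ∧ w 5 = w 3))
    (.or (.and (.mem _ _) (.and (.not (.eq _ _)) (dfn_rel _ _ _))) (.and (.eq _ _) (.eq _ _)))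
    ![f, a, x, m] ?_ ?_ ?_
  · intro u hu
    by_cases hux : u = x
    · exact ⟨m, (hs m).2 (Or.inr rfl), Or.inr ⟨hux, rfl⟩⟩
    · have hua : g.E u a := (hb u hu).resolve_right hux
      obtain ⟨y, hy, hxy, -⟩ := hf.1 u hua
      exact ⟨y, (hs y).2 (Or.inl hy), Or.inl ⟨hua, hux, hxy⟩⟩
  · rintro u v v' hu - - (⟨h1, h2, h3⟩ | ⟨h1, h2⟩) (⟨h4, h5, h6⟩ | ⟨h4, h5⟩)
    · exact isInj_fun hf h1 h3 h6
    · exact absurd h4 h2
    · exact absurd h1 h5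
    · exact Eq.trans h2 (Eq.symm h5)
  · rintro u u' v hu - - (⟨h1, h2, h3⟩ | ⟨h1, h2⟩) (⟨h4, h5, h6⟩ | ⟨h4, h5⟩)
    · exact hf.2 u u' v h1 h4 h3 h6
    · exfalso
      have h7 : g.E v m := isInj_val hf h1 h3
      have h8 : v = m := h5
      rw [h8] at h7
      exact Gen.not_E_self _ h7
    · exfalso
      have h7 : g.E v m := isInj_val hf h4 h6
      have h8 : v = m := h2
      rw [h8] at h7
      exact Gen.not_E_self _ h7
    · exact Eq.trans h1 (Eq.symm h4)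

theorem sizeLe_pred {k : ℕ} {m m' a b x : g.M} (hm : g.Den (onN P k) m)
    (hm' : g.Den (onN P (k + 1 : ℕ)) m') (h : SizeLe g.E a m') (hx : g.E x a)
    (hb : ∀ z, g.E z b → g.E z a ∧ z ≠ x) : SizeLe g.E b m := by
  obtain ⟨f, hf⟩ := h
  have hs := onN_succ hm hm'
  obtain ⟨y, hy, hxy, -⟩ := hf.1 x hx
  refine g.zfc.sizeLe_of_rel (n := 3) (R := fun _ E w =>
    (Rel E (w 0) (w 3) (w 4) ∧ w 4 ≠ w 1) ∨ (Rel E (w 0) (w 3) (w 1) ∧ w 4 = w 2))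
    (.or (.and (dfn_rel _ _ _) (.not (.eq _ _))) (.and (dfn_rel _ _ _) (.eq _ _)))
    ![f, m, y] ?_ ?_ ?_
  · intro u hu
    obtain ⟨hua, hux⟩ := hb u hu
    obtain ⟨v, hv, huv, -⟩ := hf.1 u hua
    by_cases hvm : v = m
    · subst hvm
      refine ⟨y, ?_, Or.inr ⟨huv, rfl⟩⟩
      rcases (hs y).1 hy with h1 | h1
      · exact h1
      · exfalso
        rw [h1] at hxy
        exact hux (hf.2 u x v hua hx huv hxy)
    · refine ⟨v, ?_, Or.inl ⟨huv, hvm⟩⟩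
      exact ((hs v).1 hv).resolve_right hvm
  · rintro u v v' hu - - (⟨h1, h2⟩ | ⟨h1, h2⟩) (⟨h3, h4⟩ | ⟨h3, h4⟩)
    · exact isInj_fun hf (hb u hu).1 h1 h3
    · exact absurd (isInj_fun hf (hb u hu).1 h1 h3) h2
    · exact absurd (isInj_fun hf (hb u hu).1 h3 h1) h4
    · exact Eq.trans h2 (Eq.symm h4)
  · rintro u u' v hu hu' - (⟨h1, h2⟩ | ⟨h1, h2⟩) (⟨h3, h4⟩ | ⟨h3, h4⟩)
    · exact hf.2 u u' v (hb u hu).1 (hb u' hu').1 h1 h3
    · exfalso
      have h5 : v = y := h4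
      have h1' : Rel g.E f u v := h1
      rw [h5] at h1'
      exact (hb u hu).2 (hf.2 u x y (hb u hu).1 hx h1' hxy)
    · exfalso
      have h5 : v = y := h2
      have h3' : Rel g.E f u' v := h3
      rw [h5] at h3'
      exact (hb u' hu').2 (hf.2 u' x y (hb u' hu').1 hx h3' hxy)
    · exact hf.2 u u' m (hb u hu).1 (hb u' hu').1 h1 h3

theorem sizeLe_nat_omega {k : ℕ} {m a w : g.M} (hw : g.Den (onN P ω) w) (hm : g.Den (onN P k) m)
    (h : SizeLe g.E a m) : SizeLe g.E a w := by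
  have h1 : g.E m w := (onN_mem_iff hm hw).2 (natCast_lt_omega0 k)
  exact g.zfc.sizeLe_trans h (g.zfc.sizeLe_of_sub ((onN_isOrd hw).1 m h1))

theorem isFin_iff {w a : g.M} (hw : g.Den (onN P ω) w) :
    IsFin g.E w a ↔ ∃ k : ℕ, ∃ m, g.Den (onN P k) m ∧ SizeLe g.E a m := by
  constructor
  · rintro ⟨n, hn, h⟩
    obtain ⟨β, hβ, hβn⟩ := (den_onN hw n).1 hn
    obtain ⟨k, rfl⟩ := lt_omega0.1 hβ
    exact ⟨k, n, hβn, h⟩
  · rintro ⟨k, m, hm, h⟩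
    exact ⟨m, (onN_mem_iff hm hw).2 (natCast_lt_omega0 k), h⟩

theorem isFin_insert {w a b x : g.M} (hw : g.Den (onN P ω) w) (h : IsFin g.E w a)
    (hb : ∀ z, g.E z b → g.E z a ∨ z = x) : IsFin g.E w b := by
  obtain ⟨k, m, hm, h1⟩ := (isFin_iff hw).1 h
  obtain ⟨m', hm'⟩ := exists_den_nat hw (k + 1)
  exact (isFin_iff hw).2 ⟨k + 1, m', hm', sizeLe_succ hm hm' h1 hb⟩

end Pool.Agent.H16.HD
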