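import Pool.Agent.H16.HD.Ord
import Pool.Agent.H16.HD.Fns

/-!
# Increasing enumerations of finite sets of ordinals (module HD-ENU)

* `exists_max`: a nonempty set `F` of ordinals with `SizeLe F k` has a largest element.  Induction on `k`; `k = 0` is impossible
  (`empty_of_sizeLe`).  Let `x ∈ F` and `F' = F \ {x}` (`exists_erase`, `sizeLe_pred`).  If `F'` is empty `x` is the maximum, otherwise let `y` be the
  maximum of `F'`; compare `x` and `y` (`ord_tri`; ordinals are transitive).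
* `exists_isEnum`: by `isFin_iff` let `SizeLe F k`; induction on `k` for all `F ⊆ l`.  If `F` is empty take `n = 0`, `e = ∅`.  Otherwise let `x` be the
  maximum of `F` and `F' = F \ {x}`; by induction there are `n ∈ w` and an enumeration `e` of `F'`; `n` is the value of `onN P j`; let `n'` be the
  value of `onN P (j + 1)` (`onN_succ`: `n' = n ∪ {n}`).  The relation `e'` with `Rel e' i α` iff `Rel e i α` or (`i = n` and `α = x`) exists
  (`ZFC.exists_rel` on `n' × F`) and enumerates `F`; strict monotonicity: for `α ∈ F'`, `α ∈ x`; `x ∈ α` and `x ∈ x` are impossible (`g.wf_E`).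
-/

set_option autoImplicit false

namespace Pool.Agent.H16.HD

open Pool.Agent.H90.Frc Pool.Agent.H51.Hfc Ordinal

variable {P : Type} [PartialOrder P] [OrderTop P] {g : Gen P}

theorem exists_pred_nat {k : ℕ} {m : g.M} (hm : g.Den (onN P (k + 1 : ℕ)) m) :
    ∃ m₀, g.Den (onN P k) m₀ := by
  rw [onN_def] at hm
  have hc : Countable (((k + 1 : ℕ) : Ordinal.{0})).ToType := by
    rw [← Cardinal.mk_le_aleph0_iff, Cardinal.mk_toType]
    simp
  have := hm.of_countable hc (ToType.mk ⟨(k : Ordinal.{0}), by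
    rw [Set.mem_Iio]
    exact_mod_cast Nat.lt_succ_self k⟩)
  simpa [ToType.toOrd] using this

theorem exists_max {k : ℕ} {m F l : g.M} (hm : g.Den (onN P k) m) (hl : IsOrd g.E l)
    (hF : IsSub g.E F l) (h : SizeLe g.E F m) (hne : ∃ x, g.E x F) :
    ∃ x, g.E x F ∧ ∀ y, g.E y F → y = x ∨ g.E y x := by
  induction k generalizing m F with
  | zero =>
    obtain ⟨x, hx⟩ := hne
    exact absurd hx (empty_of_sizeLe hm h x)
  | succ k ih =>
    obtain ⟨x, hx⟩ := hne
    obtain ⟨F', hF'⟩ := exists_erase F x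
    obtain ⟨m₀, hm₀⟩ := exists_pred_nat hm
    have h' : SizeLe g.E F' m₀ := sizeLe_pred hm₀ hm h hx fun z hz => (hF' z).1 hz
    by_cases hne' : ∃ z, g.E z F'
    · obtain ⟨y, hy, hmax⟩ := ih hm₀ (fun z hz => hF z ((hF' z).1 hz).1) h' hne'
      obtain ⟨hyF, hyx⟩ := (hF' y).1 hy
      rcases ord_tri (ord_mem hl (hF x hx)) (ord_mem hl (hF y hyF)) with h1 | h1 | h1
      · refine ⟨y, hyF, fun z hz => ?_⟩
        by_cases hzx : z = x
        · rw [hzx]
          exact Or.inr h1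
        · exact hmax z ((hF' z).2 ⟨hz, hzx⟩)
      · exact absurd h1.symm hyx
      · refine ⟨x, hx, fun z hz => ?_⟩
        by_cases hzx : z = x
        · exact Or.inl hzx
        · rcases hmax z ((hF' z).2 ⟨hz, hzx⟩) with h2 | h2
          · rw [h2]
            exact Or.inr h1
          · exact Or.inr (hl.2 x (hF x hx) y h1 z h2)
    · refine ⟨x, hx, fun z hz => ?_⟩
      by_contra hcon
      push Not at hcon
      exact hne' ⟨z, (hF' z).2 ⟨hz, hcon.1⟩⟩

theorem isEnum_empty {n F e : g.M} (hn : g.Den (onN P (0 : ℕ)) n) (hF : ∀ z, ¬ g.E z F)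
    (he : ∀ z, ¬ g.E z e) : IsEnum g.E n F e := by
  have hR : ∀ i α, ¬ Rel g.E e i α := fun i α ⟨c, _, hc⟩ => he c hc
  refine ⟨fun i hi => ?_, fun i α h => absurd h (hR i α), fun α hα => absurd hα (hF α),
    fun i α β h => absurd h (hR i α), fun i j α β h => absurd h (hR i α)⟩
  obtain ⟨β, hβ, -⟩ := (den_onN hn i).1 hi
  simp at hβ

theorem isEnum_step {j : ℕ} {n n' F F' e x l : g.M} (hl : IsOrd g.E l) (hF : IsSub g.E F l)
    (hn : g.Den (onN P j) n) (hn' : g.Den (onN P (j + 1 : ℕ)) n') (hx : g.E x F)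
    (hmax : ∀ y, g.E y F → y = x ∨ g.E y x) (hF' : ∀ z, g.E z F' ↔ g.E z F ∧ z ≠ x)
    (he : IsEnum g.E n F' e) : ∃ e', IsEnum g.E n' F e' := by
  have hs := onN_succ hn hn'
  obtain ⟨e', he'⟩ := g.zfc.exists_rel (n := 3)
    (R := fun _ E w => Rel E (w 0) (w 3) (w 4) ∨ (w 3 = w 1 ∧ w 4 = w 2))
    (.or (dfn_rel _ _ _) (.and (.eq _ _) (.eq _ _))) ![e, n, x] n' F
  have he'' : ∀ i α, Rel g.E e' i α ↔ Rel g.E e i α ∨ (i = n ∧ α = x) := by
    intro i α
    rw [he' i α]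
    constructor
    · rintro ⟨-, -, h⟩
      exact h
    · rintro (h | ⟨rfl, rfl⟩)
      · obtain ⟨h1, h2⟩ := he.2.1 i α h
        exact ⟨(hs i).2 (Or.inl h1), ((hF' α).1 h2).1, Or.inl h⟩
      · exact ⟨(hs _).2 (Or.inr rfl), hx, Or.inr ⟨rfl, rfl⟩⟩
  refine ⟨e', ?_, ?_, ?_, ?_, ?_⟩
  · intro i hi
    rcases (hs i).1 hi with h | h
    · obtain ⟨α, hα, h1⟩ := he.1 i h
      exact ⟨α, ((hF' α).1 hα).1, (he'' i α).2 (Or.inl h1)⟩
    · exact ⟨x, hx, (he'' i x).2 (Or.inr ⟨h, rfl⟩)⟩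
  · intro i α h
    obtain ⟨h1, h2, -⟩ := (he' i α).1 h
    exact ⟨h1, h2⟩
  · intro α hα
    by_cases hαx : α = x
    · exact ⟨n, (he'' n α).2 (Or.inr ⟨rfl, hαx⟩)⟩
    · obtain ⟨i, hi⟩ := he.2.2.1 α ((hF' α).2 ⟨hα, hαx⟩)
      exact ⟨i, (he'' i α).2 (Or.inl hi)⟩
  · intro i α β h1 h2
    rcases (he'' i α).1 h1 with h1 | ⟨h1, h3⟩ <;> rcases (he'' i β).1 h2 with h2 | ⟨h2, h4⟩
    · exact he.2.2.2.1 i α β h1 h2
    · exfalso
      have := (he.2.1 i α h1).1
      rw [h2] at this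
      exact Gen.not_E_self _ this
    · exfalso
      have := (he.2.1 i β h2).1
      rw [h1] at this
      exact Gen.not_E_self _ this
    · rw [h3, h4]
  · intro i i' α β h1 h2
    rcases (he'' i α).1 h1 with h1 | ⟨h1, h3⟩ <;> rcases (he'' i' β).1 h2 with h2 | ⟨h2, h4⟩
    · exact he.2.2.2.2 i i' α β h1 h2
    · obtain ⟨h5, h6⟩ := he.2.1 i α h1
      obtain ⟨h7, h8⟩ := (hF' α).1 h6
      rw [h2, h4]
      exact ⟨fun _ => (hmax α h7).resolve_left h8, fun _ => h5⟩
    · obtain ⟨h5, h6⟩ := he.2.1 i' β h2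
      obtain ⟨h7, h8⟩ := (hF' β).1 h6
      rw [h1, h3]
      constructor
      · intro h
        exact absurd ((onN_isOrd hn).1 i' h5 n h) (Gen.not_E_self _)
      · intro h
        have h9 : g.E β x := (hmax β h7).resolve_left h8
        exact absurd (hl.2 x (hF x hx) β h9 x h) (Gen.not_E_self _)
    · rw [h1, h2, h3, h4]
      exact ⟨fun h => absurd h (Gen.not_E_self _), fun h => absurd h (Gen.not_E_self _)⟩

theorem exists_isEnum {w l F : g.M} (hw : g.Den (onN P ω) w) (hl : IsOrd g.E l)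
    (hF : IsSub g.E F l) (h : IsFin g.E w F) : ∃ n, g.E n w ∧ ∃ e, IsEnum g.E n F e := by
  have key : ∀ (k : ℕ) (F m : g.M), g.Den (onN P k) m → IsSub g.E F l → SizeLe g.E F m →
      ∃ j : ℕ, ∃ n, g.Den (onN P j) n ∧ ∃ e, IsEnum g.E n F e := by
    intro k
    induction k with
    | zero =>
      intro F m hm _ hFm
      obtain ⟨e, he⟩ := exists_empty g
      exact ⟨0, m, hm, e, isEnum_empty hm (empty_of_sizeLe hm hFm) he⟩
    | succ k ih =>
      intro F m hm hFl hFm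
      by_cases hne : ∃ x, g.E x F
      · obtain ⟨x, hx, hmax⟩ := exists_max hm hl hFl hFm hne
        obtain ⟨F', hF'⟩ := exists_erase F x
        obtain ⟨m₀, hm₀⟩ := exists_pred_nat hm
        have h' : SizeLe g.E F' m₀ := sizeLe_pred hm₀ hm hFm hx fun z hz => (hF' z).1 hz
        obtain ⟨j, n, hn, e, he⟩ := ih F' m₀ hm₀ (fun z hz => hFl z ((hF' z).1 hz).1) h'
        obtain ⟨n', hn'⟩ := exists_den_nat hw (j + 1)
        exact ⟨j + 1, n', hn', isEnum_step hl hFl hn hn' hx hmax hF' he⟩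
      · obtain ⟨e, he⟩ := exists_empty g
        obtain ⟨n, hn⟩ := exists_den_nat hw 0
        exact ⟨0, n, hn, e, isEnum_empty hn (fun z hz => hne ⟨z, hz⟩) he⟩
  obtain ⟨k, m, hm, hFm⟩ := (isFin_iff hw).1 h
  obtain ⟨j, n, hn, e, he⟩ := key k F m hm hF hFm
  exact ⟨n, (onN_mem_iff hn hw).2 (natCast_lt_omega0 j), e, he⟩

end Pool.Agent.H16.HD
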