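import Pool.Agent.H16.HD.PsB

/-!
# The kernel covers (module HD-KCV)

Let `y ∈ X = a 2`; `Rel j y γ` for some `γ ∈ o`, `γ` the value of `iN β` (`Psi`, `mem_o`).  Use `tpq` with the given `q₀`, names `![iN β, χ, υ, ι, setN …]`,
`R = (∃ y ∈ X, Rel j y (iN β))` and `S = (∃ x ∈ X, (∃ α ∈ setN …, Rel j x α) ∧ ∃ y ∈ X, Rel j y (iN β) ∧ Rel U x y)`: given `p' ≤ q₀` forcing `R`, that is `cN χ ι β p'`
(`Fc` for fewer names, `Fc.with_names`), `hcov` gives `q' ≤ p'`, `α` with `D α q'`, `uN χ υ ι α β q'`; let `L = {iN α}`.  In `g'` with `q' ∈ g'.G` the value of `iN α` is in the value of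
`setN …` (`mem_setN`).  Finally `y` is determined by `β` (`j` is an injection).
-/

set_option autoImplicit false

namespace Pool.Agent.H16.HD

open Pool.Agent.H90.Frc Pool.Agent.H51.Hfc Ordinal Cardinal

variable {g : Gen Cd}

theorem ker_cover {p q₀ : Cd} {lm χ υ ι : Name Cd} (h : Fc p (v6 lm χ υ ι) Psi) (hq₀ : q₀ ≤ p)
    {D : Ix → Cd → Prop}
    (hcov : ∀ β, ∀ q ≤ q₀, cN χ ι β q → ∃ q' ≤ q, ∃ α, D α q' ∧ uN χ υ ι α β q')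
    (hg : q₀ ∈ g.G) {a : Fin 6 → g.M} (ha : ∀ i, g.Den (v6 lm χ υ ι i) (a i)) {dn : g.M}
    (hdn : g.Den (setN {z | D z.1 z.2}) dn) {y : g.M} (hy : g.E y (a 2)) :
    ∃ x, g.E x (a 2) ∧ (∃ α, g.E α dn ∧ Rel g.E (a 4) x α) ∧ Rel g.E (a 3) x y := by
  have hPsi : Psi g.M g.E a := h g (g.up q₀ hg p hq₀) a ha
  have d2 : g.Den χ (a 2) := ha 2
  have d3 : g.Den υ (a 3) := ha 3
  have d4 : g.Den ι (a 4) := ha 4
  have d5 : g.Den (onN Cd (ω_ 1)) (a 5) := ha 5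
  have hj := hPsi.2.2.2
  obtain ⟨γ, hγ, hyγ, hyγ'⟩ := hj.1 y hy
  obtain ⟨β, hβ⟩ := (mem_o d5).1 hγ
  have key := tpq (v := ![iN β, χ, υ, ι, setN {z | D z.1 z.2}]) (a := ![γ, a 2, a 3, a 4, dn])
    (den5 hβ d2 d3 d4 hdn)
    (R := fun _ E v => ∃ y, E y (v 1) ∧ Rel E (v 3) y (v 0))
    (S := fun _ E v => ∃ x, E x (v 1) ∧ (∃ α, E α (v 4) ∧ Rel E (v 3) x α) ∧
      ∃ y, E y (v 1) ∧ Rel E (v 3) y (v 0) ∧ Rel E (v 2) x y)
    (.ex (.and (.mem _ _) (dfn_rel _ _ _)))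
    (.ex (.and (.mem _ _) (.and (.ex (.and (.mem _ _) (dfn_rel _ _ _)))
      (.ex (.and (.mem _ _) (.and (dfn_rel _ _ _) (dfn_rel _ _ _))))))) hg ?_ ⟨y, hy, hyγ⟩
  · obtain ⟨x, hx, hα, y', hy', hy'γ, hxy'⟩ := key
    have : y' = y := hj.2 y' y γ hy' hy hy'γ hyγ
    subst this
    exact ⟨x, hx, hα, hxy'⟩
  · intro p' hp' hf
    have hc : cN χ ι β p' := by
      refine Fc.with_names dfn_cN (L := {υ, setN {z | D z.1 z.2}}) (by simp) ?_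
      intro g' hg' hL u hu
      obtain ⟨u', hu'⟩ := hL υ (by simp)
      obtain ⟨dn', hdn'⟩ := hL (setN {z | D z.1 z.2}) (by simp)
      exact hf g' hg' ![u 0, u 1, u', u 2, dn'] (den5 (hu 0) (hu 1) hu' (hu 2) hdn')
    obtain ⟨q', hq', α, hD, hu⟩ := hcov β p' hp' hc
    refine ⟨q', hq', {iN α}, Set.countable_singleton _, ?_⟩
    intro g' hg' hL u hu' _
    obtain ⟨α', hα'⟩ := hL _ rfl
    have e0 : g'.Den (iN β) (u 0) := hu' 0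
    have e1 : g'.Den χ (u 1) := hu' 1
    have e2 : g'.Den υ (u 2) := hu' 2
    have e3 : g'.Den ι (u 3) := hu' 3
    have e4 : g'.Den (setN {z | D z.1 z.2}) (u 4) := hu' 4
    obtain ⟨x, hx, y, hy, h1, h2, h3⟩ := hu g' hg' ![α', u 0, u 1, u 2, u 3]
      (den5 hα' e0 e1 e2 e3)
    exact ⟨x, hx, ⟨α', (mem_setN e4).2 ⟨(α, q'), hD, hg', hα'⟩, h1⟩, y, hy, h2, h3⟩

end Pool.Agent.H16.HD
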