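import Pool.Agent.H16.HD.PsB
import Pool.Agent.H16.HD.Fns

/-!
# The kernel is discrete (module HD-KDS)

`exists_sep`: induction on `F` (`Finset.induction_on`); for `F = ∅` take `a' = a₀`.  For `insert α F` let `a'` be the set for `F`.  If there is `y ∈ X`, `y ≠ x`, with
`Rel j y z`, `z` a value of `iN α`, then there is `β ∈ l` with `¬ (β ∈ x ↔ β ∈ y)` (`Gen.extensional`; `x`, `y ⊆ l`) and we take `a' ∪ {β}` (`exists_insert`, `isFin_insert`);
`y` is unique since `j` is an injection on `X` (and `z` is unique).  Otherwise take `a'`.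

`ker_discr`: let `x ∈ D'`, `Rel j x α` with `α ∈ dn`, the value of `iN α'` with `D α' q`, `q ∈ g.G` (`mem_setN`).  Take `F` from `hfin`.  By `Psi` (`IsNbhd` for `x` and `y = x`)
there is a finite `a₀ ⊆ l` with `Rel U x z` for all `z ∈ X` which agree with `x` on `a₀`.  Let `a'` be given by `exists_sep`.  Let `y ∈ D'` and `Agree a' x y`; suppose
`y ≠ x`.  `Agree a₀ x y`, so `Rel U x y`.  `Rel j y β`, `β` the value of `iN β'` with `D β' q'`, `q' ∈ g.G`.  By `Fc.truth` some `r ∈ g.G` has `uN χ υ ι α' β' r`.  Let `r' ∈ g.G` be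
below `q`, `q'`, `r`: `D β' r'` and `uN χ υ ι α' β' r'`, so `β' ∈ F` by `hfin`.  This contradicts `exists_sep`.
-/

set_option autoImplicit false

namespace Pool.Agent.H16.HD

open Pool.Agent.H90.Frc Pool.Agent.H51.Hfc Ordinal Cardinal

variable {g : Gen Cd}

theorem exists_sep {w l X j o x a₀ : g.M} (hw : g.Den (onN Cd ω) w)
    (hX : ∀ x, g.E x X → IsSub g.E x l) (hj : IsInj g.E j X o) (hx : g.E x X)
    (h₀ : IsSub g.E a₀ l) (h₀' : IsFin g.E w a₀) (F : Finset Ix) :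
    ∃ a', IsSub g.E a' l ∧ IsFin g.E w a' ∧ IsSub g.E a₀ a' ∧
      ∀ y, g.E y X → y ≠ x → (∃ α ∈ F, ∃ z, g.Den (iN α) z ∧ Rel g.E j y z) →
        ¬ Agree g.E a' x y := by
  classical
  induction F using Finset.induction_on with
  | empty =>
    refine ⟨a₀, h₀, h₀', fun _ hz => hz, ?_⟩
    rintro y - - ⟨α, hα, -⟩
    exact absurd hα (Finset.notMem_empty α)
  | insert α F _ ih =>
    obtain ⟨a', h1, h2, h3, h4⟩ := ih
    by_cases hex : ∃ y, g.E y X ∧ y ≠ x ∧ ∃ z, g.Den (iN α) z ∧ Rel g.E j y z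
    · obtain ⟨y, hy, hyx, z, hz, hjz⟩ := hex
      have h5 : ∃ β, ¬ (g.E β x ↔ g.E β y) := by
        by_contra hcon
        push Not at hcon
        exact hyx (Gen.extensional fun z => hcon z).symm
      obtain ⟨β, hβ⟩ := h5
      have hβl : g.E β l := by
        by_cases h6 : g.E β x
        · exact hX x hx β h6
        · by_cases h7 : g.E β y
          · exact hX y hy β h7
          · exact absurd ⟨fun h => absurd h h6, fun h => absurd h h7⟩ hβ
      obtain ⟨a'', ha''⟩ := exists_insert a' β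
      refine ⟨a'', ?_, isFin_insert hw h2 fun z hz => (ha'' z).1 hz,
        fun z hz => (ha'' z).2 (Or.inl (h3 z hz)), ?_⟩
      · intro z hz
        rcases (ha'' z).1 hz with h6 | h6
        · exact h1 z h6
        · rw [h6]
          exact hβl
      · rintro y' hy' hyx' ⟨α', hα', z', hz', hjz'⟩ hag
        rcases Finset.mem_insert.1 hα' with h6 | h6
        · subst h6
          have h7 : z' = z := hz'.unique hz
          rw [h7] at hjz'
          have h8 : y' = y := hj.2 y' y z hy' hy hjz' hjz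
          rw [h8] at hag
          exact hβ (hag β ((ha'' β).2 (Or.inr rfl)))
        · exact h4 y' hy' hyx' ⟨α', h6, z', hz', hjz'⟩
            (fun γ hγ => hag γ ((ha'' γ).2 (Or.inl hγ)))
    · refine ⟨a', h1, h2, h3, ?_⟩
      rintro y hy hyx ⟨α', hα', z, hz, hjz⟩
      rcases Finset.mem_insert.1 hα' with h6 | h6
      · subst h6
        exact absurd ⟨y, hy, hyx, z, hz, hjz⟩ hex
      · exact h4 y hy hyx ⟨α', h6, z, hz, hjz⟩

theorem ker_discr {p q₀ : Cd} {lm χ υ ι : Name Cd} (h : Fc p (v6 lm χ υ ι) Psi) (hq₀ : q₀ ≤ p)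
    {D : Ix → Cd → Prop} (hmono : ∀ α q q', D α q → q' ≤ q → D α q')
    (hfin : ∀ α q, D α q → ∃ F : Finset Ix, ∀ α' ∉ F, ∀ q' ≤ q, D α' q' → ∀ q'' ≤ q',
      ¬ uN χ υ ι α α' q'')
    (hg : q₀ ∈ g.G) {a : Fin 6 → g.M} (ha : ∀ i, g.Den (v6 lm χ υ ι i) (a i)) {dn : g.M}
    (hdn : g.Den (setN {z | D z.1 z.2}) dn) {D' : g.M}
    (hD' : ∀ x, g.E x D' ↔ g.E x (a 2) ∧ ∃ α, g.E α dn ∧ Rel g.E (a 4) x α) :
    IsDiscr g.E (a 0) (a 1) D' := by
  obtain ⟨hP1, hP2, hP3, hP4⟩ := h g (g.up q₀ hg p hq₀) a ha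
  intro x hx
  obtain ⟨hxX, α, hα, hjx⟩ := (hD' x).1 hx
  obtain ⟨⟨α', q⟩, hDq, hq, hαd⟩ := (mem_setN hdn).1 hα
  obtain ⟨F, hF⟩ := hfin α' q hDq
  obtain ⟨hUxx, hNx⟩ := hP3 x hxX
  obtain ⟨a₀, h1, h2, h3⟩ := hNx x hxX hUxx
  obtain ⟨a', h4, h5, h6, h7⟩ := exists_sep (ha 0) hP1.1 hP4 hxX h1 h2 F
  refine ⟨a', h4, h5, fun y hy hag => ?_⟩
  by_contra hne
  obtain ⟨hyX, β, hβ, hjy⟩ := (hD' y).1 hy
  obtain ⟨⟨β', q'⟩, hDq', hq', hβd⟩ := (mem_setN hdn).1 hβ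
  have hUxy : Rel g.E (a 3) x y := h3 y hyX fun γ hγ => hag γ (h6 γ hγ)
  have hv : ∀ i, g.Den ((![iN α', iN β', χ, υ, ι] : Fin 5 → Name Cd) i)
      ((![α, β, a 2, a 3, a 4] : Fin 5 → g.M) i) := by
    intro i
    fin_cases i
    exacts [hαd, hβd, ha 2, ha 3, ha 4]
  obtain ⟨r, hr, hfr⟩ := (Fc.truth dfn_uN hv).1 ⟨x, hxX, y, hyX, hjx, hjy, hUxy⟩
  obtain ⟨r1, hr1, hr1q, hr1q'⟩ := g.dir q hq q' hq'
  obtain ⟨r2, hr2, hr2a, hr2b⟩ := g.dir r1 hr1 r hr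
  have hβF : β' ∈ F := by
    by_contra hcon
    exact hF β' hcon r2 (hr2a.trans hr1q) (hmono β' q' r2 hDq' (hr2a.trans hr1q')) r2 le_rfl
      (Fc.mono hfr hr2b)
  exact h7 y hyX hne ⟨β', hβF, β, hβd, hjy⟩ hag

end Pool.Agent.H16.HD
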