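import Pool.Agent.H16.HD.HAl

/-!
# Neighbourhood assignments on HFC_w spaces have countable subcovers, hereditarily (module HD-HLU)

Let `PP` be the set of the pairs `(x, F)` with `x ∈ C`, `F ⊆ l` finite and `∀ z ∈ X, Agree F x z → Rel U x z` (`ZFC.exists_rel` with domain `C` and
codomain the power set of `l`).  Every `x ∈ C` has such an `F` (`hU` for `x` and `y = x`).  `hl_fin` gives `YY`.  Let
`Y = {y ∈ C | ∃ F, Rel YY y F}`.  `SizeLe Y w`: let `f` be an injection from `YY` to `w`; use `ZFC.sizeLe_of_surj` (`a = Y`, `b = w`,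
`g.wf_E`, `onN_total`, `onN_trans`) with the relation `(k, y)` iff `∃ F z, z = (y, F)`, `z ∈ YY`, `Rel f z k`, which exists by `ZFC.exists_rel` and is functional by the
injectivity of `f` (`IsOPair.inj`).  Covering: for `x ∈ C` with `Rel PP x F` there are `y`, `F'` with `Rel YY y F'`, `Agree F' y x`; `Rel PP y F'`, so `Rel U y x`.
-/

set_option autoImplicit false

namespace Pool.Agent.H16.HD

open Pool.Agent.H90.Frc Pool.Agent.H51.Hfc Ordinal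

variable {P : Type} [PartialOrder P] [OrderTop P] {g : Gen P}

theorem hlu {w l X U C : g.M} (hC : Cx g w l X) (hU : IsNbhd g.E w l X U)
    (hCX : IsSub g.E C X) :
    ∃ Y, IsSub g.E Y C ∧ SizeLe g.E Y w ∧ ∀ x, g.E x C → ∃ y, g.E y Y ∧ Rel g.E U y x := by
  obtain ⟨Q, hQ⟩ := g.zfc.power l
  obtain ⟨PP, hPP⟩ := g.zfc.exists_rel (n := 4) (R := fun _ E w => IsFin E (w 0) (w 5) ∧
    ∀ z, E z (w 2) → Agree E (w 5) (w 4) z → Rel E (w 3) (w 4) z)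
    (.and (dfn_isFin _ _) (.all (.imp (.mem _ _) (.imp (dfn_agree _ _ _) (dfn_rel _ _ _)))))
    ![w, l, X, U] C Q
  have hPPm : ∀ x F, Rel g.E PP x F ↔ g.E x C ∧ g.E F Q ∧ IsFin g.E w F ∧
    ∀ z, g.E z X → Agree g.E F x z → Rel g.E U x z := hPP
  obtain ⟨YY, hYY, hsub, hcov⟩ := hl_fin hC (PP := PP) (by
    intro x F h
    obtain ⟨h1, h2, h3, -⟩ := (hPPm x F).1 h
    exact ⟨hCX x h1, (hQ F).1 h2, h3⟩)
  obtain ⟨Y, hY⟩ := g.zfc.sep (n := 1) (R := fun _ E w => ∃ F, Rel E (w 0) (w 1) F)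
    (.ex (dfn_rel _ _ _)) ![YY] C
  have hYm : ∀ y, g.E y Y ↔ g.E y C ∧ ∃ F, Rel g.E YY y F := hY
  obtain ⟨f, hf⟩ := hYY
  obtain ⟨S, hS⟩ := g.zfc.exists_rel (n := 2) (R := fun _ E w => ∃ F, ∃ z, IsOPair E (w 3) F z ∧
    E z (w 0) ∧ Rel E (w 1) z (w 2))
    (.ex (.ex (.and (dfn_isOPair _ _ _) (.and (.mem _ _) (dfn_rel _ _ _))))) ![YY, f] w Y
  have hSm : ∀ k y, Rel g.E S k y ↔ g.E k w ∧ g.E y Y ∧ ∃ F z, IsOPair g.E y F z ∧ g.E z YY ∧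
    Rel g.E f z k := hS
  refine ⟨Y, fun y hy => ((hYm y).1 hy).1, ?_, ?_⟩
  · refine g.zfc.sizeLe_of_surj g.wf_E (F := S) (onN_total hC.hw) (onN_trans hC.hw) ?_ ?_
    · intro k y y' _ _ _ h1 h2
      obtain ⟨-, -, F, z, h3, h4, h5⟩ := (hSm k y).1 h1
      obtain ⟨-, -, F', z', h6, h7, h8⟩ := (hSm k y').1 h2
      have : z = z' := hf.2 z z' k h4 h7 h5 h8
      subst this
      exact (h3.inj h6).1
    · intro y hy
      obtain ⟨h1, F, z, h3, h4⟩ := (hYm y).1 hy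
      obtain ⟨k, hk, h5, -⟩ := hf.1 z h4
      exact ⟨k, hk, (hSm k y).2 ⟨hk, hy, F, z, h3, h4, h5⟩⟩
  · intro x hx
    obtain ⟨hxx, h1⟩ := hU x (hCX x hx)
    obtain ⟨a, ha, hafin, h2⟩ := h1 x (hCX x hx) hxx
    obtain ⟨y, F', hy, hag⟩ := hcov x a ((hPPm x a).2 ⟨hx, (hQ a).2 ha, hafin, h2⟩)
    obtain ⟨h3, h4, h5, h6⟩ := (hPPm y F').1 (hsub y F' hy)
    exact ⟨y, (hYm y).2 ⟨h3, F', hy⟩, h6 x (hCX x hx) hag⟩

end Pool.Agent.H16.HD
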