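import Pool.Agent.H16.HD.PsB
import Pool.Agent.H16.HD.Cov
import Pool.Agent.H16.HD.HLU

/-!
# Countable subcovers, in terms of conditions (module HD-LPR)

Let `g` be a generic structure with `q ∈ g.G` in which the names `v6 lm χ υ ι`, `S = Name.mk {α // α ∈ s} (fun α => iN α) (fun _ => ⊤)` and `iN α` for all
`α ∈ s` are denoted (`exists_gen_set`); let `a : Fin 6 → g.M` and `S'` be the values.  `Psi` holds (`h`).
(1) Let `C = {y ∈ X | ∀ α ∈ S', ∀ x ∈ X, Rel j x α → ¬ Rel U x y}` (separation).  `hlu` gives `Y ⊆ C`, `SizeLe Y w`, such that every `y ∈ C` is in `U_x` for some `x ∈ Y`.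
The set `J = {γ ∈ o | ∃ y ∈ Y, Rel j y γ}` has `SizeLe J w` (inverse of `j`; `j` is a function, so `γ ↦ y` is an injection from `J` to `Y`), so `bounded_of_ctbl` gives
`d ∈ o` with `γ ∈ d` for all `γ ∈ J`.  `d` is the value of `iN h'` for some `h' : Ix` (`mem_o`).
(2) So in `g`: `Θ`: for all `y ∈ X` with (for all `α ∈ S`, `x ∈ X` with `Rel j x α`, `¬ Rel U x y`) there is `x ∈ X`, `Rel U x y`, with the same property as `y`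
and `∃ γ ∈ iN h', Rel j x γ`.  `Θ` is definable in the names `S, χ, υ, ι, iN h'`; by `Fc.truth` some `q' ∈ g.G`, w.l.o.g. `q' ≤ q`, forces `Θ`.
(3) `Cov (cN χ ι) (uN χ υ ι) s h' q'`: let `q1 ≤ q'`, `Cs _ _ s β q1`.  Take `g'` with `q1 ∈ g'.G` in which all names used (also `iN β`, `S`, `iN α` for `α ∈ s`, `iN h'`) are
denoted.  By `cN χ ι β q1` there is `y ∈ X` with `Rel j y (value of iN β)`.  For `α ∈ S`, the value of `iN α'`, `α' ∈ s`, and `x ∈ X` with `Rel j x α`: `¬ Rel U x y`,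
otherwise by `Fc.truth` some `r ∈ g'.G` has `uN χ υ ι α' β r`, and a common lower bound of `r` and `q1` contradicts `Cs`.  By `Θ` there is `x ∈ X` with `Rel U x y`, with the same
property, and `Rel j x γ`, `γ ∈ iN h'`; `γ` is the value of `iN α`, `α < h'` (`mem_o`, `iN_lt`).  By `Fc.truth` some `r ∈ g'.G`, `r ≤ q1`, forces: `∃ x ∈ X, ∃ y ∈ X, Rel j x (iN α) ∧ Rel j y (iN β) ∧
Rel U x y` (`uN`), and: for all `x ∈ X` with `Rel j x (iN α)`, for all `α' ∈ S` and `x' ∈ X` with `Rel j x' α'`, `¬ Rel U x' x`.  Then `cN χ ι α r` (from `uN`), and for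
`α' ∈ s`, `r' ≤ r`: `¬ uN χ υ ι α' α r'` (a generic structure containing `r'`, with `S` and `iN α'` denoted; `j` is an injection).
-/

set_option autoImplicit false

namespace Pool.Agent.H16.HD

open Pool.Agent.H90.Frc Pool.Agent.H51.Hfc Ordinal Cardinal

/-- `y` is in no `U_x` for `x ∈ X` with index in `S` -/
def NC {M : Type} (E : M → M → Prop) (S X U j y : M) : Prop :=
  ∀ α, E α S → ∀ x, E x X → Rel E j x α → ¬ Rel E U x y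

theorem dfn_NC {n : ℕ} (i1 i2 i3 i4 i5 : Fin n) :
    Dfn (fun _ E v => NC E (v i1) (v i2) (v i3) (v i4) (v i5)) :=
  .all (.imp (.mem _ _) (.all (.imp (.mem _ _) (.imp (dfn_rel _ _ _) (.not (dfn_rel _ _ _))))))

/-- the covering statement -/
def Theta : Pred 5 := fun _ E a => ∀ y, E y (a 1) → NC E (a 0) (a 1) (a 2) (a 3) y →
  ∃ x, E x (a 1) ∧ Rel E (a 2) x y ∧ NC E (a 0) (a 1) (a 2) (a 3) x ∧
    ∃ γ, E γ (a 4) ∧ Rel E (a 3) x γ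

theorem dfn_Theta : Dfn Theta :=
  .all (.imp (.mem _ _) (.imp (dfn_NC _ _ _ _ _) (.ex (.and (.mem _ _) (.and (dfn_rel _ _ _)
    (.and (dfn_NC _ _ _ _ _) (.ex (.and (.mem _ _) (dfn_rel _ _ _)))))))))

/-- the statement about the point `x` with index `α` -/
def Phi : Pred 6 := fun _ E a => (∃ x, E x (a 2) ∧ ∃ y, E y (a 2) ∧
    Rel E (a 4) x (a 0) ∧ Rel E (a 4) y (a 1) ∧ Rel E (a 3) x y) ∧
    ∀ x, E x (a 2) → Rel E (a 4) x (a 0) → NC E (a 5) (a 2) (a 3) (a 4) x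

theorem dfn_Phi : Dfn Phi :=
  .and (.ex (.and (.mem _ _) (.ex (.and (.mem _ _) (.and (dfn_rel _ _ _) (.and (dfn_rel _ _ _)
    (dfn_rel _ _ _))))))) (.all (.imp (.mem _ _) (.imp (dfn_rel _ _ _) (dfn_NC _ _ _ _ _))))

/-- the name of the finite set of the elements of `s` -/
noncomputable def sN (s : List Ix) : Name Cd :=
  Name.mk {α // α ∈ s} (fun α => iN α.1) (fun _ => ⊤)

theorem mem_sN {g : Gen Cd} {s : List Ix} {S z : g.M} (hS : g.Den (sN s) S) :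
    g.E z S ↔ ∃ α ∈ s, g.Den (iN α) z := by
  rw [Gen.mem_iff hS]
  constructor
  · rintro ⟨α, -, h⟩
    exact ⟨α.1, α.2, h⟩
  · rintro ⟨α, hα, h⟩
    exact ⟨⟨α, hα⟩, g.top_mem, h⟩

/-- the countable subcover in a generic structure -/
theorem lpr_one {g : Gen Cd} {w l X U j o S : g.M} (hw : g.Den (onN Cd ω) w)
    (ho : g.Den (onN Cd (ω_ 1)) o) (h : Psi g.M g.E ![w, l, X, U, j, o]) :
    ∃ d, g.E d o ∧ Theta g.M g.E ![S, X, U, j, d] := by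
  obtain ⟨hX, hl, hU, hj⟩ := h
  have hX' : IsHFCw g.E w l X := hX
  have hl' : IsOrd g.E l := hl
  have hU' : IsNbhd g.E w l X U := hU
  have hj' : IsInj g.E j X o := hj
  have hC : Cx g w l X := ⟨hw, hl', hX'⟩
  obtain ⟨C, hCs⟩ := g.zfc.sep (n := 4) (R := fun _ E a => NC E (a 0) (a 1) (a 2) (a 3) (a 4))
    (dfn_NC _ _ _ _ _) ![S, X, U, j] X
  have hCm : ∀ y, g.E y C ↔ g.E y X ∧ NC g.E S X U j y := hCs
  obtain ⟨Y, hYC, hYw, hY⟩ := hlu hC hU' (fun y hy => ((hCm y).1 hy).1)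
  obtain ⟨J, hJs⟩ := g.zfc.sep (n := 2) (R := fun _ E a => ∃ y, E y (a 0) ∧ Rel E (a 1) y (a 2))
    (.ex (.and (.mem _ _) (dfn_rel _ _ _))) ![Y, j] o
  have hJm : ∀ γ, g.E γ J ↔ g.E γ o ∧ ∃ y, g.E y Y ∧ Rel g.E j y γ := hJs
  have hJw : SizeLe g.E J w := by
    refine g.zfc.sizeLe_trans (b := Y) ?_ hYw
    refine g.zfc.sizeLe_of_rel (n := 1) (R := fun _ E a => Rel E (a 0) (a 2) (a 1))
      (dfn_rel _ _ _) ![j] ?_ ?_ ?_
    · intro γ hγ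
      obtain ⟨-, y, hy, hyγ⟩ := (hJm γ).1 hγ
      exact ⟨y, hy, hyγ⟩
    · intro γ y y' _ hy hy' h1 h2
      exact hj'.2 y y' γ ((hCm y).1 (hYC y hy)).1 ((hCm y').1 (hYC y' hy')).1 h1 h2
    · intro γ γ' y _ _ hy h1 h2
      exact isInj_fun hj' ((hCm y).1 (hYC y hy)).1 h1 h2
  obtain ⟨d, hd, hb⟩ := bounded_of_ctbl hw ho (fun γ hγ => ((hJm γ).1 hγ).1) hJw
  refine ⟨d, hd, ?_⟩
  intro y hy hNC
  obtain ⟨x, hx, hxy⟩ := hY y ((hCm y).2 ⟨hy, hNC⟩)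
  obtain ⟨h1, h2⟩ := (hCm x).1 (hYC x hx)
  obtain ⟨γ, hγ, hxγ, -⟩ := hj'.1 x h1
  exact ⟨x, h1, hxy, h2, γ, hb γ ((hJm γ).2 ⟨hγ, x, hx, hxγ⟩), hxγ⟩

theorem lpr {p : Cd} {lm χ υ ι : Name Cd} (h : Fc p (v6 lm χ υ ι) Psi) (s : List Ix) {q : Cd}
    (hq : q ≤ p) : ∃ q' ≤ q, ∃ h', Cov (cN χ ι) (uN χ υ ι) s h' q' := by
  obtain ⟨g, hg, hL, a, ha⟩ := exists_gen_set q (v6 lm χ υ ι) (L := {sN s})
    (Set.countable_singleton _)
  obtain ⟨S, hS⟩ := hL _ rfl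
  have hPsi : Psi g.M g.E ![a 0, a 1, a 2, a 3, a 4, a 5] :=
    h g (g.up q hg p hq) _ (den6 (ha 0) (ha 1) (ha 2) (ha 3) (ha 4) (ha 5))
  have a0 : g.Den (onN Cd ω) (a 0) := ha 0
  have a2 : g.Den χ (a 2) := ha 2
  have a3 : g.Den υ (a 3) := ha 3
  have a4 : g.Den ι (a 4) := ha 4
  have a5 : g.Den (onN Cd (ω_ 1)) (a 5) := ha 5
  obtain ⟨d, hd, hTh⟩ := lpr_one (S := S) a0 a5 hPsi
  obtain ⟨h', hh'⟩ := (mem_o a5).1 hd
  obtain ⟨q₁, hq₁, hf⟩ := (Fc.truth dfn_Theta (v := ![sN s, χ, υ, ι, iN h'])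
    (den5 hS a2 a3 a4 hh')).1 hTh
  obtain ⟨q', hq', h1, h2⟩ := g.dir q₁ hq₁ q hg
  refine ⟨q', h2, h', ?_⟩
  intro β q1 hq1 hCs
  obtain ⟨g', hg', hL', b, hb⟩ := exists_gen_set q1 (v6 lm χ υ ι) (L := {sN s, iN h', iN β})
    (by simp)
  obtain ⟨S', hS'⟩ := hL' (sN s) (by simp)
  obtain ⟨d', hd'⟩ := hL' (iN h') (by simp)
  obtain ⟨b', hb'⟩ := hL' (iN β) (by simp)
  have hPsi' : Psi g'.M g'.E ![b 0, b 1, b 2, b 3, b 4, b 5] :=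
    h g' (g'.up q1 hg' p (hq1.trans (h2.trans hq))) _
      (den6 (hb 0) (hb 1) (hb 2) (hb 3) (hb 4) (hb 5))
  have b2 : g'.Den χ (b 2) := hb 2
  have b3 : g'.Den υ (b 3) := hb 3
  have b4 : g'.Den ι (b 4) := hb 4
  have b5 : g'.Den (onN Cd (ω_ 1)) (b 5) := hb 5
  have hj' : IsInj g'.E (b 4) (b 2) (b 5) := hPsi'.2.2.2
  have hTh' : Theta g'.M g'.E ![S', b 2, b 3, b 4, d'] :=
    hf g' (g'.up q1 hg' q₁ (hq1.trans h1)) _ (den5 hS' b2 b3 b4 hd')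
  obtain ⟨y, hy, hyb⟩ : ∃ x, g'.E x (b 2) ∧ Rel g'.E (b 4) x b' :=
    hCs.1 g' hg' ![b', b 2, b 4] (den3 hb' b2 b4)
  obtain ⟨x, hx, hxy, hNCx, γ, hγ, hxγ⟩ := hTh' y hy (by
    intro α'' hα'' x hx hxα hxy
    obtain ⟨α', hα's, hα'⟩ := (mem_sN hS').1 hα''
    obtain ⟨r, hr, hfr⟩ := (Fc.truth dfn_uN (v := ![iN α', iN β, χ, υ, ι])
      (a := ![α'', b', b 2, b 3, b 4]) (den5 hα' hb' b2 b3 b4)).1 ⟨x, hx, y, hy, hxα, hyb, hxy⟩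
    obtain ⟨r', hr', h3, h4⟩ := g'.dir r hr q1 hg'
    exact hCs.2 α' hα's r' h4 (hfr.mono h3))
  have hγo : g'.E γ (b 5) := (onN_isOrd b5).1 d' ((mem_o b5).2 ⟨h', hd'⟩) γ hγ
  obtain ⟨α, hα⟩ := (mem_o b5).1 hγo
  have hαh : α < h' := (iN_lt hα hd').1 hγ
  obtain ⟨r, hr, hfr⟩ := (Fc.truth dfn_Phi (v := ![iN α, iN β, χ, υ, ι, sN s])
    (a := ![γ, b', b 2, b 3, b 4, S']) (den6 hα hb' b2 b3 b4 hS')).1 (by
      refine ⟨⟨x, hx, y, hy, hxγ, hyb, hxy⟩, fun x' hx' hx'γ => ?_⟩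
      have : x' = x := hj'.2 x' x γ hx' hx hx'γ hxγ
      rw [this]
      exact hNCx)
  obtain ⟨r', hr', h3, h4⟩ := g'.dir r hr q1 hg'
  have hfr' := hfr.mono h3
  refine ⟨r', h4, α, hαh, ⟨?_, ?_⟩, ?_⟩
  · refine Fc.with_names dfn_cN (L := {iN β, υ, sN s}) (by simp) ?_
    intro g2 hg2 hL2 c hc
    obtain ⟨x1, e1⟩ := hL2 (iN β) (by simp)
    obtain ⟨x2, e2⟩ := hL2 υ (by simp)
    obtain ⟨x3, e3⟩ := hL2 (sN s) (by simp)
    obtain ⟨⟨x, hx, y, hy, k1, k2, k3⟩, -⟩ := hfr' g2 hg2 ![c 0, x1, c 1, x2, c 2, x3]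
      (den6 (hc 0) e1 (hc 1) e2 (hc 2) e3)
    exact ⟨x, hx, k1⟩
  · intro α' hα's r2 hr2 hu
    obtain ⟨g2, hg2, hL2, c, hc⟩ := exists_gen_set r2 ![iN α, iN β, χ, υ, ι, sN s]
      (L := {iN α'}) (Set.countable_singleton _)
    obtain ⟨x1, e1⟩ := hL2 (iN α') rfl
    obtain ⟨x, hx, y, hy, k1, k2, k3⟩ := hu g2 hg2 ![x1, c 0, c 2, c 3, c 4]
      (den5 e1 (hc 0) (hc 2) (hc 3) (hc 4))
    obtain ⟨-, k4⟩ := (hfr'.mono hr2) g2 hg2 ![c 0, c 1, c 2, c 3, c 4, c 5]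
      (den6 (hc 0) (hc 1) (hc 2) (hc 3) (hc 4) (hc 5))
    have c5 : g2.Den (sN s) (c 5) := hc 5
    exact k4 y hy k2 x1 ((mem_sN c5).2 ⟨α', hα's, e1⟩) x hx k1 k3
  · refine Fc.with_names dfn_uN (L := {sN s}) (Set.countable_singleton _) ?_
    intro g2 hg2 hL2 c hc
    obtain ⟨x1, e1⟩ := hL2 (sN s) rfl
    exact (hfr' g2 hg2 ![c 0, c 1, c 2, c 3, c 4, x1]
      (den6 (hc 0) (hc 1) (hc 2) (hc 3) (hc 4) e1)).1

end Pool.Agent.H16.HD
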