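import Pool.Agent.H16.HD.KBase
import Pool.Agent.H16.HD.Fus

/-!
# A closed countable ordinal (module HD-KTH)

`exists_theta`.  Step: for `q ≤ p` and `θ : Ix` with `zr < θ` there are `q' : Cd`, `θ' > θ` with `Hl q' q` and `Cov c u s θ' q'` for all
`s : List Ix` with all elements `< θ`.  Indeed there are countably many such lists (`countable_lt`; the empty list is
one); enumerate them as `s n` and apply `fusion_cover'` with `W = Ix`, `S n q h = Cov c u (s n) h q` (monotone in `q` by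
`Cov.mono`): get `q'` with `Hl q' q` and countable `E n`.  Let `θ'` be larger than `θ` and all elements of all `E n`
(`exists_gt_set`).  `Cov c u (s n) θ' q'`: given `β`, `r ≤ q'` with `Cs c u (s n) β r` take `r' ≤ r`, `h ∈ E n` with
`Cov c u (s n) h r'` and apply this to `β`, `r'` (`Cs.mono`); `α < h < θ'`.
Iterate, starting from `p` and `θ 0 = sc zr`; let `q` be the limit (`exists_lim`) and `θ = lub θ n`.  A list with all elements `< θ` has
all its elements `< θ n` for some `n` (`lt_lub`, the `θ n` increase, induction on the list), so `Cov c u s (θ (n+1)) (q (n+1))`, hence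
`Cov c u s θ q` by `Cov.mono` (`le_lub`).  `Hl q p` by `Hl.trans`.
-/

set_option autoImplicit false

namespace Pool.Agent.H16.HD

open Pool.Agent.H90.Frc Cardinal Ordinal

theorem exists_enum_lists (θ : Ix) : ∃ f : ℕ → List Ix,
    (∀ n, ∀ α ∈ f n, α < θ) ∧ ∀ s : List Ix, (∀ α ∈ s, α < θ) → ∃ n, f n = s := by
  have hc : ({s : List Ix | ∀ α ∈ s, α < θ}).Countable := by
    have : Countable {α : Ix // α < θ} := (countable_lt θ).to_subtype
    have h1 : (Set.range (fun l : List {α : Ix // α < θ} => List.map Subtype.val l)).Countable :=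
      Set.countable_range _
    refine h1.mono ?_
    intro s
    induction s with
    | nil => exact fun _ => ⟨[], rfl⟩
    | cons a s ih =>
      intro hs
      obtain ⟨l, hl⟩ := ih (fun α hα => hs α (List.mem_cons_of_mem _ hα))
      have hl' : List.map Subtype.val l = s := hl
      refine ⟨⟨a, hs a List.mem_cons_self⟩ :: l, ?_⟩
      change List.map Subtype.val (⟨a, _⟩ :: l) = a :: s
      rw [List.map_cons, hl']
  obtain ⟨f, hf⟩ := hc.exists_eq_range ⟨[], by simp⟩
  refine ⟨f, fun n => ?_, fun s hs => ?_⟩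
  · have : f n ∈ {s : List Ix | ∀ α ∈ s, α < θ} := by rw [hf]; exact ⟨n, rfl⟩
    exact this
  · have : s ∈ {s : List Ix | ∀ α ∈ s, α < θ} := hs
    rw [hf] at this
    exact this

theorem exists_theta {c : Ix → Cd → Prop} {u : Ix → Ix → Cd → Prop} (H : CU c u) {p : Cd}
    (hL : ∀ s : List Ix, ∀ q ≤ p, ∃ q' ≤ q, ∃ h, Cov c u s h q') :
    ∃ q ≤ p, ∃ θ : Ix, zr < θ ∧ ∀ s : List Ix, (∀ α ∈ s, α < θ) → Cov c u s θ q := by
  have hstep : ∀ z : {z : Cd × Ix // z.1 ≤ p}, ∃ z' : {z : Cd × Ix // z.1 ≤ p},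
      Hl z'.1.1 z.1.1 ∧ z.1.2 < z'.1.2 ∧
      ∀ s : List Ix, (∀ α ∈ s, α < z.1.2) → Cov c u s z'.1.2 z'.1.1 := by
    rintro ⟨⟨q, θ⟩, hq⟩
    change q ≤ p at hq
    obtain ⟨f, hf1, hf2⟩ := exists_enum_lists θ
    obtain ⟨q', hq', E, hE, hE'⟩ := fusion_cover' (W := Ix) (S := fun n q h => Cov c u (f n) h q)
      (fun n q q' w h hle => h.mono le_rfl hle) (p := q)
      (fun n r hr => hL (f n) r (hr.trans hq))
    obtain ⟨θ', hθ'⟩ := exists_gt_set (s := insert θ (⋃ n, E n))
      ((Set.countable_iUnion hE).insert θ)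
    refine ⟨⟨(q', θ'), hq'.le.trans hq⟩, hq', hθ' θ (Set.mem_insert _ _), fun s hs => ?_⟩
    obtain ⟨n, hn⟩ := hf2 s hs
    subst hn
    intro β r hr hβ
    obtain ⟨r', hr', h, hh, hC⟩ := hE' n r hr
    obtain ⟨r'', hr'', α, hα, h1⟩ := hC β r' le_rfl (hβ.mono H hr')
    exact ⟨r'', hr''.trans hr', α, hα.trans (hθ' h (Set.mem_insert_of_mem _
      (Set.mem_iUnion.2 ⟨n, hh⟩))), h1⟩
  choose N hN1 hN2 hN3 using hstep
  let x : ℕ → {z : Cd × Ix // z.1 ≤ p} := fun n => Nat.rec ⟨(p, sc zr), le_rfl⟩ (fun _ z => N z) n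
  have hx : ∀ n, x (n + 1) = N (x n) := fun n => rfl
  obtain ⟨q, hq, -, -⟩ := exists_lim (f := fun n => (x n).1.1) (fun n => hN1 _)
  have hθmono : StrictMono (fun n => (x n).1.2) := strictMono_nat_of_lt_succ fun n => by
    change (x n).1.2 < (x (n + 1)).1.2
    rw [hx]; exact hN2 _
  refine ⟨q, (hq 0).le.trans (x 0).2, lub (fun n => (x n).1.2),
    (lt_sc_self zr).trans_le (le_lub (fun n => (x n).1.2) 0), fun s hs => ?_⟩
  have hex : ∃ n, ∀ α ∈ s, α < (x n).1.2 := by
    induction s with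
    | nil => exact ⟨0, by simp⟩
    | cons a s ih =>
      obtain ⟨n, hn⟩ := ih (fun α hα => hs α (List.mem_cons_of_mem _ hα))
      obtain ⟨m, hm⟩ := lt_lub.1 (hs a List.mem_cons_self)
      refine ⟨max n m, fun α hα => ?_⟩
      rcases List.mem_cons.1 hα with rfl | hα
      · exact hm.trans_le (hθmono.monotone (le_max_right n m))
      · exact (hn α hα).trans_le (hθmono.monotone (le_max_left n m))
  obtain ⟨n, hn⟩ := hex
  have h1 : Cov c u s (x (n + 1)).1.2 (x (n + 1)).1.1 := by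
    rw [hx]; exact hN3 _ s hn
  exact h1.mono (le_lub (fun n => (x n).1.2) (n + 1)) (hq (n + 1)).le

end Pool.Agent.H16.HD
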