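import Pool.Agent.H16.HD.KDns
import Pool.Agent.H16.HD.KTh

/-!
# The kernel of a neighbourhood assignment (module HD-THMK)

`exists_kernel`: take `q`, `θ` from `exists_theta`, `R` from `exists_kR` with `S₀ = q.2.supp` (`Pk.hr`), `i ∉ R` (`exists_notMem`), `ε : ℕ → Ix` with
range `Set.Iio θ` (nonempty since `zr < θ`, countable by `countable_lt`; `Set.Countable.exists_eq_range`) and `D = Dk c u ε i`.
* monotone: `w <+: q.2.r i <+: q'.2.r i` and `Gr.mono`;
* `D ⊆ C`: `Gr.mem_c`;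
* covering: `density`;
* finiteness: let `D α q` with `w`, `s`.  The finite set is `s.toFinset` (or `{α | α ∈ s}` as a `Finset` by `List.toFinset` with classical
  decidable equality).  If `α' ∉ s`, `q₃ ≤ q` and `D α' q₃` with `w'`, `s'`: `w` and `w'` are initial segments of `q₃.2.r i`, so one is an
  initial segment of the other (`List.prefix_or_prefix_of_prefix`).  If `w' <+: w` then `s'` is an initial segment of `s` (`Gr.pfx`,
  `Gr.mono`, `Gr.functional`), so `α' ∈ s`, a contradiction.  Otherwise `s' = s ++ t` and `α' ∈ t`, so `Gr.not_u` applies.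
-/

set_option autoImplicit false

namespace Pool.Agent.H16.HD

open Pool.Agent.H90.Frc Cardinal Ordinal

theorem exists_kernel {c : Ix → Cd → Prop} {u : Ix → Ix → Cd → Prop} (H : CU c u) {p : Cd}
    (hL : ∀ s : List Ix, ∀ q ≤ p, ∃ q' ≤ q, ∃ h, Cov c u s h q') :
    ∃ q₀ ≤ p, ∃ D : Ix → Cd → Prop, (∀ α q q', D α q → q' ≤ q → D α q') ∧
      (∀ α q, D α q → c α q) ∧
      (∀ β, ∀ q ≤ q₀, c β q → ∃ q' ≤ q, ∃ α, D α q' ∧ u α β q') ∧
      ∀ α q, D α q → ∃ F : Finset Ix, ∀ α' ∉ F, ∀ q' ≤ q, D α' q' → ∀ q'' ≤ q', ¬ u α α' q'' := by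
  classical
  obtain ⟨q, hq, θ, hθ, hC⟩ := exists_theta H hL
  obtain ⟨R, hqR, hR, hK⟩ := exists_kR c u θ (S₀ := q.2.supp) q.2.hr
  obtain ⟨i, hi⟩ := exists_notMem hR
  obtain ⟨ε, hε⟩ := (countable_lt θ).exists_eq_range ⟨zr, hθ⟩
  have hε' : ∀ α, α < θ ↔ ∃ k, ε k = α := by
    intro α
    have : α ∈ Set.Iio θ ↔ α ∈ Set.range ε := by rw [hε]
    exact this
  refine ⟨q, hq, Dk c u ε i, ?_, ?_, ?_, ?_⟩
  · rintro α r r' ⟨w, s, hw, hs, hα⟩ hr
    exact ⟨w, s, hw.trans (hr.2.1 i), hs.mono H hr, hα⟩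
  · rintro α r ⟨w, s, hw, hs, hα⟩
    exact (hs.mem_c hα).2
  · intro β r hr hβ
    exact density H hK hε' hqR hC hi hr hβ
  · rintro α r ⟨w, s, hw, hs, hα⟩
    refine ⟨s.toFinset, fun α' hα' r' hr' hD => ?_⟩
    obtain ⟨w', s', hw', hs', hα''⟩ := hD
    have hα's : α' ∉ s := fun h => hα' (List.mem_toFinset.2 h)
    have hw2 : w <+: r'.2.r i := hw.trans (hr'.2.1 i)
    rcases List.prefix_or_prefix_of_prefix hw2 hw' with h | h
    · obtain ⟨s₀, hs₀, hg₀⟩ := hs'.pfx h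
      have e : s = s₀ := (hs.mono H hr').functional hg₀
      obtain ⟨t, ht⟩ := hs₀
      rw [← e] at ht
      have hα't : α' ∈ t := by
        rw [← ht] at hα''
        rcases List.mem_append.1 hα'' with h1 | h1
        · exact absurd h1 hα's
        · exact h1
      rw [← ht] at hs'
      exact hs'.not_u hα hα't
    · obtain ⟨s₀, hs₀, hg₀⟩ := (hs.mono H hr').pfx h
      have e : s' = s₀ := hs'.functional hg₀
      exact absurd (hs₀.subset (e ▸ hα'')) hα's

end Pool.Agent.H16.HD
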