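import Pool.Agent.H16.HD.Siz
import Pool.Agent.H16.HD.Lpr
import Pool.Agent.H16.HD.KCv
import Pool.Agent.H16.HD.KDs
import Pool.Agent.H16.HD.ThmK

/-!
# A model of ZFC in which every `HFC_w` space is dually discrete
-/

set_option autoImplicit false

namespace Pool.Agent.H16.HD

open Pool.Agent.H90.Frc Pool.Agent.H51.Hfc Ordinal Cardinal

variable {g : Gen Cd}

theorem duallyDiscrete_gen {w o l X : g.M} (hC : Cx g w l X) (ho : g.Den (onN Cd (ω_ 1)) o)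
    (hun : ¬ SizeLe g.E l w) : DuallyDiscrete g.E w l X := by
  intro U hU
  obtain ⟨j, hj⟩ := sizeLe_gen hC ho hun
  obtain ⟨lm, hlm⟩ := g.exists_den l
  obtain ⟨χ, hχ⟩ := g.exists_den X
  obtain ⟨υ, hυ⟩ := g.exists_den U
  obtain ⟨ι, hι⟩ := g.exists_den j
  have key := Gen.tp (v := v6 lm χ υ ι) (a := ![w, l, X, U, j, o])
    (den6 hC.hw hlm hχ hυ hι ho) dfn_Psi
    (S := fun _ E a => ∃ D, IsSub E D (a 2) ∧ IsDiscr E (a 0) (a 1) D ∧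
      ∀ x, E x (a 2) → ∃ d, E d D ∧ Rel E (a 3) d x)
    (.ex (.and (dfn_isSub _ _) (.and (dfn_isDiscr _ _ _)
      (.all (.imp (.mem _ _) (.ex (.and (.mem _ _) (dfn_rel _ _ _)))))))) (fun p hp => ?_)
    ⟨hC.hX, hC.hl, hU, hj⟩
  · exact key
  · obtain ⟨q₀, hq₀, D, hD1, -, hD3, hD4⟩ := exists_kernel (cU χ υ ι)
      (fun s q hq => lpr hp s hq)
    refine ⟨q₀, hq₀, {setN {z | D z.1 z.2}}, Set.countable_singleton _, ?_⟩
    intro g' hg' hL a ha hPsi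
    obtain ⟨dn, hdn⟩ := hL _ rfl
    have hsep : Dfn (n := 4) (fun _ E w => ∃ α, E α (w 1) ∧ Rel E (w 2) (w 3) α) :=
      .ex (.and (.mem _ _) (dfn_rel _ _ _))
    obtain ⟨D', hD'⟩ := g'.zfc.sep hsep ![a 2, dn, a 4] (a 2)
    have hD'' : ∀ x, g'.E x D' ↔ g'.E x (a 2) ∧ ∃ α, g'.E α dn ∧ Rel g'.E (a 4) x α := by
      intro x
      rw [hD' x, ext_vec3]
      exact Iff.rfl
    refine ⟨D', fun x hx => ((hD'' x).1 hx).1,
      ker_discr hp hq₀ hD1 hD4 hg' ha hdn hD'', fun y hy => ?_⟩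
    obtain ⟨x, hx, hα, hxy⟩ := ker_cover hp hq₀ hD3 hg' ha hdn hy
    exact ⟨x, (hD'' x).2 ⟨hx, hα⟩, hxy⟩

theorem exists_model_dd : ∃ (M : Type) (E : M → M → Prop), ZFC E ∧ ¬ HfcStatement E := by
  obtain ⟨g, -, hL, -⟩ := exists_gen_set (⊤ : Cd) (n := 0) Fin.elim0
    (L := {onN Cd ω, onN Cd (ω_ 1)}) (by simp)
  obtain ⟨w, hw⟩ := hL (onN Cd ω) (by simp)
  obtain ⟨o, ho⟩ := hL (onN Cd (ω_ 1)) (by simp)
  refine ⟨g.M, g.E, g.zfc, ?_⟩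
  rintro ⟨w₀, l, X, h1, h2, h3, h4, h5⟩
  have hww : w₀ = w := omega_unique hw h1
  subst hww
  exact h5 (duallyDiscrete_gen ⟨hw, h2.1, h4⟩ ho h3)

end Pool.Agent.H16.HD
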