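import Pool.Agent.H16.HD.Bas

/-!
# Fullness: forced existential statements have names as witnesses (module HD-FULL)

Proof of `Fc.full`.  Let `𝒜 ⊆ P` be a maximal set (Zorn: `zorn_subset` or `exists_maximal_antichain`-style) with:
every `q ∈ 𝒜` is `≤ p` and has a name `σ` with `Fc q (ext v σ) R`; two different elements of `𝒜` are incompatible (no common
lower bound).  By `Fc.exists_name` (in `Pool/Agent/H90/Frc/Names.lean`; it needs no `OrderTop`) applied below `q`, for every `q ≤ p` there are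
`r ≤ q` and `a ∈ 𝒜` with `r ≤ a` (otherwise the condition found could be added to `𝒜`).  Choose `s : P → Name P` with
`Fc q (ext v (s q)) R` for `q ∈ 𝒜`.  Let
`σ = Name.mk {z : Σ q : 𝒜, (s q).idx × P // z.2.2 ≤ z.1 ∧ z.2.2 ≤ (s z.1).r z.2.1} (fun z => (s _).A _) (fun z => z.1.2.2)`.
By `Fc.stable` it is enough to find below every `q ≤ p` some `r` with `Fc r (ext v σ) R`; take `r ≤ q`, `r ≤ a ∈ 𝒜`.
`Feq σ (s a) r` (`feq_def`): a member `(q', i, t)` of `σ` with a condition `q1 ≤ r`, `q1 ≤ t`: `q1 ≤ t ≤ q'` and `q1 ≤ a`, so `q' = a` and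
the member `i` of `s a` is the same name, `q1 ≤ t ≤ (s a).r i` (`Feq.refl`); conversely for a member `i` of `s a` and `q1 ≤ r`,
`q1 ≤ (s a).r i`, the triple `(a, i, q1)` is a member of `σ`.
Then `Fc r (ext v σ) R` by `Fc.with_names` with `L = {s a}`: in `g` with `r ∈ g.G` the names `σ` and `s a` denote the same element
(`Gen.eq_iff`), so `R` follows from `(Fc r (ext v (s a)) R)` (`Fc.mono`).
-/

set_option autoImplicit false

namespace Pool.Agent.H16.HD

open Pool.Agent.H90.Frc Pool.Agent.H51.Hfc Ordinal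

theorem full {P : Type} [PartialOrder P] {n : ℕ} {v : Fin n → Name P} {R : Pred (n + 1)}
    (hR : Dfn R) {p : P} (h : Fc p v (fun M E a => ∃ b, R M E (ext a b))) :
    ∃ σ, Fc p (ext v σ) R := by
  classical
  -- good antichains
  let Good : Set (Set P) := {A | (∀ q ∈ A, q ≤ p ∧ ∃ σ, Fc q (ext v σ) R) ∧
    ∀ q ∈ A, ∀ q' ∈ A, q ≠ q' → ∀ r, r ≤ q → r ≤ q' → False}
  obtain ⟨A, hA⟩ : ∃ A, Maximal (· ∈ Good) A := by
    refine zorn_subset Good ?_
    intro C hC hchain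
    refine ⟨⋃₀ C, ⟨?_, ?_⟩, fun s hs => Set.subset_sUnion_of_mem hs⟩
    · rintro q ⟨s, hs, hq⟩
      exact (hC hs).1 q hq
    · rintro q ⟨s, hs, hq⟩ q' ⟨s', hs', hq'⟩ hne r hr hr'
      rcases hchain.total hs hs' with h1 | h1
      · exact (hC hs').2 q (h1 hq) q' hq' hne r hr hr'
      · exact (hC hs).2 q hq q' (h1 hq') hne r hr hr'
  have hAG : A ∈ Good := hA.prop
  -- predense
  have hpre : ∀ q ≤ p, ∃ r ≤ q, ∃ a ∈ A, r ≤ a := by
    intro q hq
    by_contra hcon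
    push Not at hcon
    obtain ⟨r, hr, σ, hσ⟩ := Fc.exists_name hR (h.mono hq)
    have hrA : r ∉ A := fun hrA => hcon r hr r hrA le_rfl
    have hnew : insert r A ∈ Good := by
      refine ⟨?_, ?_⟩
      · rintro q' (rfl | hq')
        · exact ⟨hr.trans hq, σ, hσ⟩
        · exact hAG.1 q' hq'
      · rintro q1 (rfl | hq1) q2 (rfl | hq2) hne t ht1 ht2
        · exact hne rfl
        · exact hcon t (ht1.trans hr) q2 hq2 ht2
        · exact hcon t (ht2.trans hr) q1 hq1 ht1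
        · exact hAG.2 q1 hq1 q2 hq2 hne t ht1 ht2
    exact hrA (hA.le_of_ge hnew (Set.subset_insert r A) (Set.mem_insert r A))
  have hch : ∀ q : A, ∃ σ, Fc q.1 (ext v σ) R := fun q => (hAG.1 q.1 q.2).2
  choose s hs using hch
  let σ : Name P := Name.mk {z : Σ q : A, (s q).idx × P // z.2.2 ≤ z.1.1 ∧ z.2.2 ≤ (s z.1).r z.2.1}
    (fun z => (s z.1.1).A z.1.2.1) (fun z => z.1.2.2)
  refine ⟨σ, Fc.stable hR fun q hq => ?_⟩
  obtain ⟨r, hr, a, ha, hra⟩ := hpre q hq
  refine ⟨r, hr, ?_⟩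
  have hfeq : Feq σ (s ⟨a, ha⟩) r := by
    rw [feq_def]
    refine ⟨?_, ?_⟩
    · rintro ⟨⟨⟨q', hq'⟩, i, t⟩, ht1, ht2⟩ q1 hq1 hq1t
      change q1 ≤ t at hq1t
      change t ≤ q' at ht1
      have hqa : q' = a := by
        by_contra hne
        exact hAG.2 q' hq' a ha hne q1 (hq1t.trans ht1) (hq1.trans hra)
      subst hqa
      exact ⟨q1, le_rfl, i, hq1t.trans ht2, Feq.refl _ _⟩
    · intro i q1 hq1 hq1i
      exact ⟨q1, le_rfl, ⟨⟨⟨a, ha⟩, i, q1⟩, hq1.trans hra, hq1i⟩, le_rfl, Feq.refl _ _⟩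
  refine Fc.with_names hR (L := {s ⟨a, ha⟩}) (Set.countable_singleton _) ?_
  intro g hg hL b hb
  obtain ⟨c, hc⟩ := hL _ rfl
  have h1 : g.Den σ (b (Fin.last n)) := by simpa using hb (Fin.last n)
  have h2 : b (Fin.last n) = c := (Gen.eq_iff h1 hc).2 ⟨r, hg, hfeq⟩
  refine (hs ⟨a, ha⟩) g (g.up r hg a hra) b ?_
  intro i
  refine Fin.lastCases ?_ (fun j => ?_) i
  · rw [ext_last, h2]
    exact hc
  · have := hb j.castSucc
    simpa using this

end Pool.Agent.H16.HD
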