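import Pool.Agent.H16.HD.One

/-!
# The guessing property of the points (module HD-GSS)

`xV_xv`: `Fc.mono`; `Fc.decide` for `E (a 0) (a 1)`; the two values contradict each other in a generic structure (`exists_gen_fin`).

`guess`.  Write `A` for the name `setN N`.
(1) `q` forces `Θ`: there is `d ∈ ω₁` and there is `Y`, `SizeLe Y w`, such that every `x ∈ X \ Y` has `ξ, ξ' ∈ A` below `d` with `ξ ∈ x`, `ξ' ∉ x`.  Proof: in `g` with `q ∈ g.G` and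
all the names denoted apply `hfc_one`.  `A` is unbounded: for `γ ∈ o`, the value of `iN γ'`, use `tpq` with `q₀ = q`, names `![iN γ', setN N]`, `R` true and conclusion
`∃ ξ ∈ A, ξ = γ ∨ γ ∈ ξ`: given `p' ≤ q` take `q'' ≤ p'`, `z ∈ N` from `Unb`, `L = {iN z.1}` (`mem_setN`, `iN_lt`; `iN z.1` denotes `γ` if `z.1 = γ'`).
(2) By `Fc.exists_mem` (for `d ∈ onN (ω_ 1)`; the index gives `δ : Ix`, cf. `onN_def`) or by `Fc.exists_name` and `mem_o`, and by `Fc.exists_name` for `Y`, there are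
`q1 ≤ q`, `δ : Ix` and a name `η` such that `q1` forces: `SizeLe η w` and every `x ∈ X \ η` has `ξ, ξ' ∈ A` below `iN δ` with `ξ ∈ x`, `ξ' ∉ x`.
(3) Let `ζ = Name.mk {z : Kp × Cd // Fc z.2 ![x z.1, η] (E (a 0) (a 1))} (fun z => kN z.1.1) (fun z => z.1.2)`, the name of `{b | x b ∈ η}`.  `q1` forces
`IsSub ζ (onN kap0)` and `SizeLe ζ w`: with the name `relN kN x (fun _ => ⊤)` denoted, `b ↦ x b` is an injection from `ζ` to `η` (`hx2`; `den_relN`, `kN_inj`).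
`cover_names` gives `q2 ≤ q1` and a countable `T`; let `E = {b : Kp | b.toOrd.1 ∈ T}` (countable, `toOrd_inj`) and `q' = q2`.
(4) Let `b ∉ E`, `i : Bool`, `r ≤ q2`.  Take `g` with `r ∈ g.G` in which all the names used (also `x b`, `kN b`, `iN δ`, `ζ`) are denoted.  The value of `x b` is not in
the value of `η`: otherwise some `r' ∈ g.G` forces this (`Fc.truth`), so the value of `kN b` is in the value of `ζ` and `b.toOrd.1 ∈ T`.  So by (2) there is `ξ ∈ A` below `iN δ` with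
`ξ ∈ x b ↔ i = true`; `ξ` is the value of `iN z.1`, `z ∈ N`, `z.2 ∈ g.G` (`mem_setN`), `z.1 < δ` (`iN_lt`), and some condition in `g.G` forces
`iN z.1 ∈ x b ↔ i = true`; take a common lower bound in `g.G` of it, `r` and `z.2`.
-/

set_option autoImplicit false

namespace Pool.Agent.H16.HD

open Pool.Agent.H90.Frc Pool.Agent.H51.Hfc Ordinal Cardinal

/-- `q` forces that the value at `ξ` of the characteristic function of `σ` is `i` -/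
def xv (σ : Name Cd) (ξ : Ix) (i : Bool) (q : Cd) : Prop :=
  Fc q ![iN ξ, σ] (fun _ E a => E (a 0) (a 1) ↔ i = true)

theorem xV_xv (σ : Name Cd) : XV (xv σ) where
  mono _ _ _ _ h hq := Fc.mono h hq
  dec ξ q := by
    obtain ⟨q', hq', h | h⟩ := Fc.decide (Dfn.mem 0 1) ![iN ξ, σ] q
    · exact ⟨q', hq', true, h.imp fun _ _ _ h1 => ⟨fun _ => rfl, fun _ => h1⟩⟩
    · exact ⟨q', hq', false, h.imp fun _ _ _ h1 =>
        ⟨fun h2 => absurd h2 h1, fun h2 => absurd h2 (by decide)⟩⟩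
  cons ξ q h h' := by
    obtain ⟨g, hg, a, ha⟩ := exists_gen_fin q ![iN ξ, σ]
    have h1 := (h g hg a ha).2 rfl
    exact absurd ((h' g hg a ha).1 h1) (by decide)

/-- the statement forced in the proof of `guess` -/
def GTh : Pred 5 := fun _ E a => SizeLe E (a 4) (a 0) ∧ ∀ x, E x (a 1) → ¬ E x (a 4) →
  (∃ ξ, E ξ (a 2) ∧ E ξ (a 3) ∧ E ξ x) ∧ ∃ ξ, E ξ (a 2) ∧ E ξ (a 3) ∧ ¬ E ξ x

theorem dfn_GTh : Dfn GTh :=
  .and (dfn_sizeLe 4 0) (.all (.imp (.mem 5 1) (.imp (.not (.mem 5 4))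
    (.and (.ex (.and (.mem 6 2) (.and (.mem 6 3) (.mem 6 5))))
      (.ex (.and (.mem 6 2) (.and (.mem 6 3) (.not (.mem 6 5)))))))))

theorem gss_unb {g : Gen Cd} {N : Set (Ix × Cd)} {q : Cd} (hN : Unb N q) (hq : q ∈ g.G)
    {o A : g.M} (ho : g.Den (onN Cd (ω_ 1)) o) (hA : g.Den (setN N) A) (γ : g.M) (hγ : g.E γ o) :
    ∃ ξ, g.E ξ A ∧ (ξ = γ ∨ g.E γ ξ) := by
  obtain ⟨γ', hγ'⟩ := (mem_o ho).1 hγ
  refine tpq (g := g) (n := 2) (v := ![iN γ', setN N]) (a := ![γ, A]) (den2 hγ' hA)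
    (R := fun _ _ _ => True) (S := fun _ E a => ∃ ξ, E ξ (a 1) ∧ (ξ = a 0 ∨ E (a 0) ξ)) Dfn.true
    (.ex (.and (.mem 2 1) (.or (.eq 2 0) (.mem 0 2)))) hq ?_ trivial
  intro p' hp' _
  obtain ⟨q'', hq'', z, hz, hz1, hz2⟩ := hN γ' p' hp'
  refine ⟨q'', hq'', {iN z.1}, Set.countable_singleton _, ?_⟩
  intro g' hg' hL a ha _
  obtain ⟨ξ, hξ⟩ := hL _ rfl
  have a0 : g'.Den (iN γ') (a 0) := ha 0
  have a1 : g'.Den (setN N) (a 1) := ha 1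
  refine ⟨ξ, (mem_setN a1).2 ⟨z, hz, g'.up q'' hg' _ hz2, hξ⟩, ?_⟩
  rcases hz1.lt_or_eq with h1 | h1
  · exact Or.inr ((iN_lt a0 hξ).2 h1)
  · left
    rw [← h1] at hξ
    exact hξ.unique a0

theorem guess {p : Cd} {lm χ : Name Cd}
    (h : Fc p ![onN Cd ω, lm, χ, onN Cd (ω_ 1)] (fun _ E a => IsHFCw E (a 0) (a 1) (a 2) ∧
      IsOrd E (a 1) ∧ IsSub E (a 3) (a 1)))
    {x : Kp → Name Cd} (hx1 : ∀ b, Fc p ![x b, χ] (fun _ E a => E (a 0) (a 1)))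
    (hx2 : ∀ b b', b ≠ b' → Fc p ![x b, x b'] (fun _ _ a => a 0 ≠ a 1))
    (N : Set (Ix × Cd)) {q : Cd} (hq : q ≤ p) (hN : Unb N q) :
    ∃ q' ≤ q, ∃ δ : Ix, ∃ E : Set Kp, E.Countable ∧
      ∀ b ∉ E, Nc (xv (x b)) {z | z ∈ N ∧ z.1 < δ} q' := by
  -- steps (1), (2)
  obtain ⟨q1, hq1, δ, η, hΘ⟩ : ∃ q1 ≤ q, ∃ (δ : Ix) (η : Name Cd),
      Fc q1 ![onN Cd ω, χ, setN N, iN δ, η] GTh := by
    obtain ⟨g, hg, a, ha⟩ := exists_gen_fin q ![onN Cd ω, lm, χ, onN Cd (ω_ 1), setN N]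
    have a0 : g.Den (onN Cd ω) (a 0) := ha 0
    have a1 : g.Den lm (a 1) := ha 1
    have a2 : g.Den χ (a 2) := ha 2
    have a3 : g.Den (onN Cd (ω_ 1)) (a 3) := ha 3
    have a4 : g.Den (setN N) (a 4) := ha 4
    obtain ⟨h1, h2, h3⟩ := h g (g.up q hg p hq) ![a 0, a 1, a 2, a 3] (den4 a0 a1 a2 a3)
    have hC : Cx g (a 0) (a 1) (a 2) := ⟨a0, h2, h1⟩
    have hAo : IsSub g.E (a 4) (a 3) := by
      intro z hz
      obtain ⟨y, -, -, hy⟩ := (mem_setN a4).1 hz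
      exact (mem_o a3).2 ⟨y.1, hy⟩
    obtain ⟨d, hd, Y, hY1, hY2⟩ := hfc_one hC a3 h3 hAo (gss_unb hN hg a3 a4)
    obtain ⟨δ, hδ⟩ := (mem_o a3).1 hd
    obtain ⟨η, hη⟩ := g.exists_den Y
    obtain ⟨r, hr, hfr⟩ := (Fc.truth (v := ![onN Cd ω, χ, setN N, iN δ, η])
      (a := ![a 0, a 2, a 4, d, Y]) dfn_GTh (den5 a0 a2 a4 hδ hη)).1 ⟨hY1, hY2⟩
    obtain ⟨q1, hq1, h4, h5⟩ := g.dir q hg r hr
    exact ⟨q1, h4, δ, η, hfr.mono h5⟩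
  -- step (3)
  obtain ⟨ζ, hζ⟩ : ∃ ζ : Name Cd, ζ = Name.mk {z : Kp × Cd // Fc z.2 ![x z.1, η]
    (fun _ E a => E (a 0) (a 1))} (fun z => kN z.1.1) (fun z => z.1.2) := ⟨_, rfl⟩
  have hmemζ : ∀ (g : Gen Cd) (z u : g.M), g.Den ζ z → (g.E u z ↔ ∃ (b : Kp) (s : Cd),
      Fc s ![x b, η] (fun _ E a => E (a 0) (a 1)) ∧ s ∈ g.G ∧ g.Den (kN b) u) := by
    intro g z u hz
    rw [hζ] at hz
    rw [Gen.mem_iff hz]
    constructor
    · rintro ⟨⟨⟨b, s⟩, hs⟩, h1, h2⟩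
      exact ⟨b, s, hs, h1, h2⟩
    · rintro ⟨b, s, hs, h1, h2⟩
      exact ⟨⟨(b, s), hs⟩, h1, h2⟩
  have hcov : Fc q1 ![onN Cd ω, onN Cd kap0, ζ]
      (fun _ E a => IsSub E (a 2) (a 1) ∧ SizeLe E (a 2) (a 0)) := by
    refine Fc.with_names (.and (dfn_isSub 2 1) (dfn_sizeLe 2 0))
      (L := {χ, setN N, iN δ, η, relN (fun b : Kp => kN b) x (fun _ => ⊤)}) (by simp) ?_
    intro g hg hL a ha
    have a0 : g.Den (onN Cd ω) (a 0) := ha 0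
    have a1 : g.Den (onN Cd kap0) (a 1) := ha 1
    have a2 : g.Den ζ (a 2) := ha 2
    obtain ⟨X, hX⟩ := hL χ (by simp)
    obtain ⟨A, hA⟩ := hL (setN N) (by simp)
    obtain ⟨d, hd⟩ := hL (iN δ) (by simp)
    obtain ⟨Y, hY⟩ := hL η (by simp)
    obtain ⟨f, hf⟩ := hL (relN (fun b : Kp => kN b) x (fun _ => ⊤)) (by simp)
    have hT := hΘ g hg ![a 0, X, A, d, Y] (den5 a0 hX hA hd hY)
    have hpG : p ∈ g.G := g.up q1 hg p (hq1.trans hq)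
    refine ⟨fun z hz => ?_, g.zfc.sizeLe_trans (b := Y) ⟨f, ?_, ?_⟩ hT.1⟩
    · obtain ⟨b, -, -, -, hb⟩ := (hmemζ g (a 2) z a2).1 hz
      exact (mem_k a1).2 ⟨b, hb⟩
    · intro z hz
      obtain ⟨b, s, hs, hsG, hb⟩ := (hmemζ g (a 2) z a2).1 hz
      obtain ⟨y, hy⟩ := relN_exists hf (i := b) g.top_mem hb
      have hxb : ∀ y', Rel g.E f z y' → g.Den (x b) y' := by
        intro y' hy'
        obtain ⟨b', -, hb', hxb'⟩ := (den_relN hf z y').1 hy'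
        rw [kN_inj hb hb']
        exact hxb'
      refine ⟨y, hs g hsG ![y, Y] (den2 (hxb y hy) hY), hy, fun y' hy' => (hxb y' hy').unique (hxb y hy)⟩
    · intro z z' y hz hz' hzy hzy'
      obtain ⟨b, -, hb, hxb⟩ := (den_relN hf z y).1 hzy
      obtain ⟨b', -, hb', hxb'⟩ := (den_relN hf z' y).1 hzy'
      by_cases hbb : b = b'
      · subst hbb
        exact hb.unique hb'
      · exact absurd rfl (hx2 b b' hbb g hpG ![y, y] (den2 hxb hxb'))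
  obtain ⟨q2, hq2, T, hT, hcv⟩ := cover_names hcov
  refine ⟨q2, hq2.trans hq1, δ, {b : Kp | (b.toOrd.1 : Ordinal.{0}) ∈ T}, ?_, ?_⟩
  · exact hT.preimage fun b b' hbb => toOrd_inj hbb
  -- step (4)
  intro b hb i r hr
  obtain ⟨g, hg, a, ha⟩ := exists_gen_fin r ![onN Cd ω, χ, setN N, iN δ, η, x b, kN b, ζ]
  have a0 : g.Den (onN Cd ω) (a 0) := ha 0
  have a1 : g.Den χ (a 1) := ha 1
  have a2 : g.Den (setN N) (a 2) := ha 2
  have a3 : g.Den (iN δ) (a 3) := ha 3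
  have a4 : g.Den η (a 4) := ha 4
  have a5 : g.Den (x b) (a 5) := ha 5
  have a6 : g.Den (kN b) (a 6) := ha 6
  have a7 : g.Den ζ (a 7) := ha 7
  have hq2G : q2 ∈ g.G := g.up r hg q2 hr
  have hq1G : q1 ∈ g.G := g.up q2 hq2G q1 hq2
  have hpG : p ∈ g.G := g.up q1 hq1G p (hq1.trans hq)
  have hnot : ¬ g.E (a 5) (a 4) := by
    intro h1
    obtain ⟨s, hs, hfs⟩ := (Fc.truth (v := ![x b, η]) (a := ![a 5, a 4]) (Dfn.mem 0 1)
      (den2 a5 a4)).1 h1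
    have h2 : g.E (a 6) (a 7) := (hmemζ g (a 7) (a 6) a7).2 ⟨b, s, hfs, hs, a6⟩
    exact hb (hcv g hq2G (a 7) (a 6) a7 h2 _ b.toOrd.2 a6)
  have hin : g.E (a 5) (a 1) := hx1 b g hpG ![a 5, a 1] (den2 a5 a1)
  obtain ⟨h1, h2⟩ := (hΘ g hq1G ![a 0, a 1, a 2, a 3, a 4] (den5 a0 a1 a2 a3 a4)).2 (a 5) hin hnot
  obtain ⟨ξ, hξ1, hξ2, hξ3⟩ : ∃ ξ, g.E ξ (a 2) ∧ g.E ξ (a 3) ∧ (g.E ξ (a 5) ↔ i = true) := by
    cases i with
    | true =>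
      obtain ⟨ξ, h3, h4, h5⟩ := h1
      exact ⟨ξ, h3, h4, ⟨fun _ => rfl, fun _ => h5⟩⟩
    | false =>
      obtain ⟨ξ, h3, h4, h5⟩ := h2
      exact ⟨ξ, h3, h4, ⟨fun h6 => absurd h6 h5, fun h6 => absurd h6 (by decide)⟩⟩
  obtain ⟨z, hz, hzG, hzξ⟩ := (mem_setN a2).1 hξ1
  obtain ⟨s, hs, hfs⟩ := (Fc.truth (v := ![iN z.1, x b]) (a := ![ξ, a 5])
    (R := fun _ E a => E (a 0) (a 1) ↔ i = true) (.iff (.mem 0 1) (.const _))
    (den2 hzξ a5)).1 hξ3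
  obtain ⟨t1, ht1, h3, h4⟩ := g.dir r hg s hs
  obtain ⟨t, ht, h5, h6⟩ := g.dir t1 ht1 z.2 hzG
  exact ⟨t, h5.trans h3, z, ⟨hz, (iN_lt hzξ a3).1 hξ2⟩, h6, hfs.mono (h5.trans h4)⟩

end Pool.Agent.H16.HD
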