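import Pool.Agent.H16.HD.HStp

/-!
# Covering by countably many basic open sets (module HD-HAL)

* `hn_all`: induction on `k`; for `k = 0` all `F` are empty (`empty_of_sizeLe`), so if `Rel PP x₀ F₀` for some `x₀`, `F₀`
  then `YY = {(x₀, F₀)}` (`exists_pair`) works (`Agree F₀ x₀ x` for all `x`), otherwise `exists_empty_ctbl`.  Step: `hn_step` (`exists_den_nat`).
* `hl_fin`: for `PP` with finite `F`: `exists_ctbl_collect` with `Γ = w` and `R m Y =` (for all `x F` with `Rel PP x F`, `SizeLe F m` there are `y F'` with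
  `Rel Y y F'`, `Rel PP y F'`, `Agree F' y x`), using `hn_all` for the set of the pairs with `SizeLe F m` (`exists_relSep`; `isFin_iff`).
-/

set_option autoImplicit false

namespace Pool.Agent.H16.HD

open Pool.Agent.H90.Frc Pool.Agent.H51.Hfc Ordinal

variable {P : Type} [PartialOrder P] [OrderTop P] {g : Gen P}

theorem hn_all {w l X : g.M} (hC : Cx g w l X) (k : ℕ) {m : g.M} (hm : g.Den (onN P k) m) :
    HN g w l X m := by
  induction k generalizing m with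
  | zero =>
    intro PP hPP
    by_cases hex : ∃ x₀ F₀, Rel g.E PP x₀ F₀
    · obtain ⟨x₀, F₀, h0⟩ := hex
      obtain ⟨Y, hY1, hY2, hY3⟩ := exists_pair hC.hw x₀ F₀
      refine ⟨Y, hY1, fun y F h => ?_, fun x F h => ⟨x₀, F₀, hY2, fun α hα => ?_⟩⟩
      · obtain ⟨h1, h2⟩ := hY3 y F h
        rw [h1, h2]
        exact h0
      · exact absurd hα (empty_of_sizeLe hm (hPP x₀ F₀ h0).2.2 α)
    · push Not at hex
      obtain ⟨Y, hY1, hY2⟩ := exists_empty_ctbl (g := g) (w := w)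
      refine ⟨Y, hY1, fun y F h => ?_, fun x F h => absurd h (hex x F)⟩
      obtain ⟨c, -, hc⟩ := h
      exact absurd hc (hY2 c)
  | succ k ih =>
    obtain ⟨m₀, hm₀⟩ := exists_den_nat hC.hw k
    exact hn_step hC hm₀ hm (ih hm₀)

theorem hl_fin {w l X : g.M} (hC : Cx g w l X) {PP : g.M}
    (hPP : ∀ x F, Rel g.E PP x F → g.E x X ∧ IsSub g.E F l ∧ IsFin g.E w F) :
    ∃ YY, SizeLe g.E YY w ∧ CovBy g.E PP YY := by
  have h1 : ∀ m, g.E m w → ∃ Y, SizeLe g.E Y w ∧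
      ∀ x F, Rel g.E PP x F → SizeLe g.E F m → ∃ y F', Rel g.E Y y F' ∧ Rel g.E PP y F' ∧
        ∀ α, g.E α F' → (g.E α y ↔ g.E α x) := by
    intro m hm
    obtain ⟨β, hβ, hβm⟩ := (den_onN hC.hw m).1 hm
    obtain ⟨k, rfl⟩ := lt_omega0.1 hβ
    obtain ⟨PP', -, -, hPP'⟩ := exists_relSep (n := 1)
      (R := fun _ E v => SizeLe E (v 2) (v 0)) (dfn_sizeLe _ _) ![m] PP
    have hPP'' : ∀ x F, Rel g.E PP' x F ↔ Rel g.E PP x F ∧ SizeLe g.E F m := fun x F =>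
      (hPP' x F).trans Iff.rfl
    obtain ⟨Y, hY1, hY2, hY3⟩ := hn_all hC k hβm PP' (fun x F h => by
      obtain ⟨h2, h3⟩ := (hPP'' x F).1 h
      exact ⟨(hPP x F h2).1, (hPP x F h2).2.1, h3⟩)
    refine ⟨Y, hY1, fun x F h h' => ?_⟩
    obtain ⟨y, F', h2, h3⟩ := hY3 x F ((hPP'' x F).2 ⟨h, h'⟩)
    exact ⟨y, F', h2, ((hPP'' y F').1 (hY2 y F' h2)).1, h3⟩
  obtain ⟨Z, hZ1, hZ2⟩ := exists_ctbl_collect (g := g) (Γ := w) hC.hw (g.zfc.sizeLe_refl w) (n := 1)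
    (R := fun _ E v => ∀ x F, Rel E (v 0) x F → SizeLe E F (v 1) →
      ∃ y F', Rel E (v 2) y F' ∧ Rel E (v 0) y F' ∧ ∀ α, E α F' → (E α y ↔ E α x))
    (.all (.all (.imp (dfn_rel 0 3 4) (.imp (dfn_sizeLe 4 1) (.ex (.ex (.and (dfn_rel 2 5 6)
      (.and (dfn_rel 0 5 6) (.all (.imp (.mem 7 6) (.iff (.mem 7 5) (.mem 7 3))))))))))))
    ![PP] (fun m hm => by
      obtain ⟨Y, hY1, hY2⟩ := h1 m hm
      exact ⟨Y, hY1, hY2⟩)
  obtain ⟨YY, hYY1, -, hYY2⟩ := exists_relSep (n := 1)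
      (R := fun _ E v => Rel E (v 0) (v 1) (v 2)) (dfn_rel _ _ _) ![PP] Z
  have hYY3 : ∀ x F, Rel g.E YY x F ↔ Rel g.E Z x F ∧ Rel g.E PP x F := fun x F =>
    (hYY2 x F).trans Iff.rfl
  refine ⟨YY, g.zfc.sizeLe_trans (g.zfc.sizeLe_of_sub hYY1) hZ1,
    fun y F h => ((hYY3 y F).1 h).2, fun x F h => ?_⟩
  obtain ⟨n, hn, hFn⟩ := (hPP x F h).2.2
  obtain ⟨Y, hY1, -, hY2⟩ := hZ2 n hn
  obtain ⟨y, F', h2, h3, h4⟩ := hY2 x F h hFn
  refine ⟨y, F', (hYY3 y F').2 ⟨?_, h3⟩, h4⟩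
  obtain ⟨c, hc, hc'⟩ := h2
  exact ⟨c, hc, hY1 c hc'⟩

end Pool.Agent.H16.HD
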