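import Pool.Agent.H16.HD.Ord
import Pool.Agent.H16.HD.Fns

/-!
# Covering by countably many basic open sets: definitions

A set `PP` of pairs `(x, F)` stands for the family of the basic open sets of all `z` which agree with `x` on `F`.
-/

set_option autoImplicit false

namespace Pool.Agent.H16.HD

open Pool.Agent.H90.Frc Pool.Agent.H51.Hfc Ordinal

variable {P : Type} [PartialOrder P] [OrderTop P]

/-- `YY` is a set of pairs from `PP` and for every `(x, F)` in `PP` the point `x` is in the basic open set of
some `(y, F')` in `YY` -/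
def CovBy {M : Type} (E : M → M → Prop) (PP YY : M) : Prop :=
  (∀ y F, Rel E YY y F → Rel E PP y F) ∧
    ∀ x F, Rel E PP x F → ∃ y F', Rel E YY y F' ∧ Agree E F' y x

/-- `l` is an ordinal and `X` is an `HFC_w` subspace of `2^l` -/
structure Cx (g : Gen P) (w l X : g.M) : Prop where
  hw : g.Den (onN P ω) w
  hl : IsOrd g.E l
  hX : IsHFCw g.E w l X

/-- every set of pairs `(x, F)`, `x ∈ X`, `F ⊆ l` of size at most `m`, is covered by countably many -/
def HN (g : Gen P) (w l X m : g.M) : Prop :=
  ∀ PP, (∀ x F, Rel g.E PP x F → g.E x X ∧ IsSub g.E F l ∧ SizeLe g.E F m) →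
    ∃ YY, SizeLe g.E YY w ∧ CovBy g.E PP YY

end Pool.Agent.H16.HD
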