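import Pool.Agent.H16.HD.Ord
import Pool.Agent.H16.HD.Enu

/-!
# Uniqueness of the increasing enumeration and boxes (module HD-INB)

* `isEnum_unique`: well-founded induction on `i` (`g.wf_E.induction`): suppose `Rel e i α` and let `Rel e' i β` (`i ∈ n`).  `α, β ∈ F ⊆ l` are
  comparable (`ord_tri`, `ord_mem`).  If `α ∈ β`: `α ∈ F` so `Rel e' j α` for some `j`, and `j ∈ i` by monotonicity of `e'`; by induction applied
  to `j` and to `e'`, `e` exchanged (the induction hypothesis is for both directions: prove `Rel e i α ↔ Rel e' i α` for all `α`)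
  `Rel e j α`, so `j ∈ i` gives `α ∈ α` by monotonicity of `e`, a contradiction.  The case `β ∈ α` is symmetric.
* `agree_of_inBox`: by uniqueness both boxes use the same enumeration.
* `exists_inBox`: `b = {i ∈ n | ∃ α, Rel e i α ∧ α ∈ x}` (separation).
* `isEnum_one`: `e = {(0, ξ)}` (`ZFC.exists_rel` on `n × F`); `n = 1` has the only element `z₀ = 0` (`onN_succ`, `onN_mem_iff`).
* `inBox_one`: any enumeration of `{ξ}` by `1` relates exactly `z₀` and `ξ`.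
-/

set_option autoImplicit false

namespace Pool.Agent.H16.HD

open Pool.Agent.H90.Frc Pool.Agent.H51.Hfc Ordinal

variable {P : Type} [PartialOrder P] [OrderTop P] {g : Gen P}

omit [OrderTop P] in
theorem isEnum_unique_aux {l n F : g.M} (hl : IsOrd g.E l) (hF : IsSub g.E F l) (i : g.M) :
    ∀ e e', IsEnum g.E n F e → IsEnum g.E n F e' → ∀ α, Rel g.E e i α → Rel g.E e' i α := by
  induction i using g.wf_E.induction with
  | _ i ih =>
    intro e e' h h' α hα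
    obtain ⟨hi, hαF⟩ := h.2.1 i α hα
    obtain ⟨β, hβF, hβ⟩ := h'.1 i hi
    rcases ord_tri (ord_mem hl (hF α hαF)) (ord_mem hl (hF β hβF)) with h1 | h1 | h1
    · exfalso
      obtain ⟨j, hj⟩ := h'.2.2.1 α hαF
      have hji : g.E j i := (h'.2.2.2.2 j i α β hj hβ).2 h1
      have h2 : Rel g.E e j α := ih j hji e' e h' h α hj
      exact Gen.not_E_self α ((h.2.2.2.2 j i α α h2 hα).1 hji)
    · rw [h1]
      exact hβ
    · exfalso
      obtain ⟨j, hj⟩ := h.2.2.1 β hβF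
      have hji : g.E j i := (h.2.2.2.2 j i β α hj hα).2 h1
      have h2 : Rel g.E e' j β := ih j hji e e' h h' β hj
      exact Gen.not_E_self β ((h'.2.2.2.2 j i β β h2 hβ).1 hji)

omit [OrderTop P] in
theorem isEnum_unique {l n F e e' : g.M} (hl : IsOrd g.E l) (hF : IsSub g.E F l)
    (h : IsEnum g.E n F e) (h' : IsEnum g.E n F e') (i α : g.M) : Rel g.E e i α ↔ Rel g.E e' i α :=
  ⟨isEnum_unique_aux hl hF i e e' h h' α, isEnum_unique_aux hl hF i e' e h' h α⟩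

omit [OrderTop P] in
theorem agree_of_inBox {l n F b x y : g.M} (hl : IsOrd g.E l) (hF : IsSub g.E F l)
    (hx : InBox g.E n F b x) (hy : InBox g.E n F b y) : Agree g.E F y x := by
  obtain ⟨e, he, hx⟩ := hx
  obtain ⟨e', he', hy⟩ := hy
  intro α hα
  obtain ⟨i, hi⟩ := he.2.2.1 α hα
  rw [hx i α hi, hy i α ((isEnum_unique hl hF he he' i α).1 hi)]

theorem exists_inBox {n F e : g.M} (h : IsEnum g.E n F e) (x : g.M) :
    ∃ b, IsSub g.E b n ∧ InBox g.E n F b x := by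
  obtain ⟨b, hb⟩ := g.zfc.sep (n := 2) (R := fun _ E w => ∃ α, Rel E (w 0) (w 2) α ∧ E α (w 1))
    (.ex (.and (dfn_rel _ _ _) (.mem _ _))) ![e, x] n
  have hb' : ∀ z, g.E z b ↔ g.E z n ∧ ∃ α, Rel g.E e z α ∧ g.E α x := hb
  refine ⟨b, fun z hz => ((hb' z).1 hz).1, e, h, fun i α hi => ?_⟩
  rw [hb']
  constructor
  · intro hα
    exact ⟨(h.2.1 i α hi).1, α, hi, hα⟩
  · rintro ⟨-, β, hβ, hβx⟩
    rw [h.2.2.2.1 i α β hi hβ]
    exact hβx

theorem mem_one {n z₀ z : g.M} (hn : g.Den (onN P (1 : ℕ)) n) (hz : g.Den (onN P (0 : ℕ)) z₀) :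
    g.E z n ↔ z = z₀ := by
  rw [den_onN hn]
  constructor
  · rintro ⟨β, hβ, h⟩
    have : β = 0 := by
      have h1 : β < 1 := by simpa using hβ
      exact Order.lt_one_iff.1 h1
    subst this
    have hz' : g.Den (onN P 0) z₀ := by simpa using hz
    exact h.unique hz'
  · rintro rfl
    exact ⟨(0 : ℕ), by simp, hz⟩

theorem isEnum_one {n F ξ : g.M} (hn : g.Den (onN P (1 : ℕ)) n) (hF : ∀ z, g.E z F ↔ z = ξ) :
    ∃ e, IsEnum g.E n F e := by
  obtain ⟨z₀, hz₀⟩ := exists_pred_nat (k := 0) hn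
  have hone : ∀ z, g.E z n ↔ z = z₀ := fun z => mem_one hn hz₀
  obtain ⟨e, he⟩ := g.zfc.exists_rel (n := 0) (R := fun _ _ _ => True) Dfn.true ![] n F
  have he' : ∀ i α, Rel g.E e i α ↔ i = z₀ ∧ α = ξ := by
    intro i α
    rw [he i α, hone, hF]
    tauto
  refine ⟨e, ?_, ?_, ?_, ?_, ?_⟩
  · intro i hi
    exact ⟨ξ, (hF ξ).2 rfl, (he' i ξ).2 ⟨(hone i).1 hi, rfl⟩⟩
  · intro i α h
    obtain ⟨h1, h2⟩ := (he' i α).1 h
    exact ⟨(hone i).2 h1, (hF α).2 h2⟩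
  · intro α hα
    exact ⟨z₀, (he' z₀ α).2 ⟨rfl, (hF α).1 hα⟩⟩
  · intro i α β h1 h2
    rw [((he' i α).1 h1).2, ((he' i β).1 h2).2]
  · intro i j α β h1 h2
    obtain ⟨rfl, rfl⟩ := (he' i α).1 h1
    obtain ⟨rfl, rfl⟩ := (he' j β).1 h2
    exact ⟨fun h => absurd h (Gen.not_E_self _), fun h => absurd h (Gen.not_E_self _)⟩

theorem inBox_one {n F ξ z₀ b x : g.M} (hn : g.Den (onN P (1 : ℕ)) n)
    (hz : g.Den (onN P (0 : ℕ)) z₀) (hF : ∀ z, g.E z F ↔ z = ξ) :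
    InBox g.E n F b x ↔ (g.E ξ x ↔ g.E z₀ b) := by
  constructor
  · rintro ⟨e, he, h⟩
    obtain ⟨i, hi⟩ := he.2.2.1 ξ ((hF ξ).2 rfl)
    have h1 : i = z₀ := (mem_one hn hz).1 (he.2.1 i ξ hi).1
    rw [h i ξ hi, h1]
  · intro h
    obtain ⟨e, he⟩ := isEnum_one hn hF
    refine ⟨e, he, fun i α hi => ?_⟩
    obtain ⟨h1, h2⟩ := he.2.1 i α hi
    rw [(mem_one hn hz).1 h1, (hF α).1 h2]
    exact h

end Pool.Agent.H16.HD
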