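import Pool.Agent.H16.HD.Cun
import Pool.Agent.H16.HD.Fns

/-!
# Small tools: unions of two countable sets, sets of pairs (module HD-UNI)

* `exists_union_ctbl`: `c = a ∪ b` exists (`ZFC.exists_union₂`).  `SizeLe c w`: apply `exists_ctbl_collect` with `Γ = {a, b}` (`ZFC.pairing`; `SizeLe Γ w`, e.g.
  by `ZFC.sizeLe_of_rel` mapping `a` to the value of `onN P 0` and `b ≠ a` to the value of `onN P 1`) and `R α Y = (Y = α)`; `c ⊆ Z`, `ZFC.sizeLe_of_sub`,
  `ZFC.sizeLe_trans`.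
* `exists_pair`: `Y = {(x, F)}`.
-/

set_option autoImplicit false

namespace Pool.Agent.H16.HD

open Pool.Agent.H90.Frc Pool.Agent.H51.Hfc Ordinal

variable {P : Type} [PartialOrder P] [OrderTop P] {g : Gen P}

omit [OrderTop P] in
theorem opair_unique {x F z z' : g.M} (h : IsOPair g.E x F z) (h' : IsOPair g.E x F z') : z = z' := by
  obtain ⟨s, t, hs, ht, hz⟩ := h
  obtain ⟨s', t', hs', ht', hz'⟩ := h'
  have e1 : s = s' := Gen.extensional fun y => by rw [hs, hs']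
  have e2 : t = t' := Gen.extensional fun y => by rw [ht, ht']
  subst e1; subst e2
  exact Gen.extensional fun y => by rw [hz, hz']

/-- the subset of the pairs in `PP` with a definable property -/
theorem exists_relSep {n : ℕ} {R : Pred (n + 2)} (hR : Dfn R) (c : Fin n → g.M) (PP : g.M) :
    ∃ PP', IsSub g.E PP' PP ∧ (∀ z, g.E z PP' → ∃ x F, IsOPair g.E x F z) ∧
      ∀ x F, Rel g.E PP' x F ↔ Rel g.E PP x F ∧ R g.M g.E (ext (ext c x) F) := by
  have hD : Dfn (n := n + 1) (fun M E w => ∃ x F, IsOPair E x F (w (Fin.last n)) ∧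
      R M E (ext (ext (fun i => w i.castSucc) x) F)) := by
    refine .ex (.ex (.and (dfn_isOPair _ _ _) (hR.comp'
      (ext (ext (fun i => i.castSucc.castSucc.castSucc) (Fin.last _).castSucc) (Fin.last _)) ?_)))
    intro M E w
    rw [ext_comp, ext_comp]
  obtain ⟨PP', h⟩ := g.zfc.sep hD c PP
  have h' : ∀ z, g.E z PP' ↔ g.E z PP ∧ ∃ x F, IsOPair g.E x F z ∧ R g.M g.E (ext (ext c x) F) := by
    intro z
    rw [h z]
    simp only [ext_last, ext_castSucc]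
  refine ⟨PP', fun z hz => ((h' z).1 hz).1, fun z hz => ?_, fun x F => ?_⟩
  · obtain ⟨x, F, hxF, -⟩ := ((h' z).1 hz).2
    exact ⟨x, F, hxF⟩
  · constructor
    · rintro ⟨z, hz, hzP⟩
      obtain ⟨hz1, x', F', hz2, hR'⟩ := (h' z).1 hzP
      obtain ⟨rfl, rfl⟩ := hz.inj hz2
      exact ⟨⟨z, hz, hz1⟩, hR'⟩
    · rintro ⟨⟨z, hz, hzP⟩, hR'⟩
      exact ⟨z, hz, (h' z).2 ⟨hzP, x, F, hz, hR'⟩⟩

/-- a set with at most one element is countable -/
theorem sizeLe_single {w a x : g.M} (hw : g.Den (onN P ω) w) (h : ∀ z, g.E z a → z = x) :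
    SizeLe g.E a w := by
  obtain ⟨e, he⟩ := exists_empty g
  obtain ⟨m0, hm0⟩ := exists_den_nat hw 0
  obtain ⟨m1, hm1⟩ := exists_den_nat hw (0 + 1)
  exact sizeLe_nat_omega hw hm1 (sizeLe_succ hm0 hm1 (sizeLe_empty he)
    (fun z hz => Or.inr (h z hz)))

/-- a set with at most two elements is countable -/
theorem sizeLe_double {w a x y : g.M} (hw : g.Den (onN P ω) w)
    (h : ∀ z, g.E z a → z = x ∨ z = y) : SizeLe g.E a w := by
  obtain ⟨e, he⟩ := exists_empty g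
  obtain ⟨c, hc⟩ := exists_insert e x
  obtain ⟨m0, hm0⟩ := exists_den_nat hw 0
  obtain ⟨m1, hm1⟩ := exists_den_nat hw (0 + 1)
  obtain ⟨m2, hm2⟩ := exists_den_nat hw (0 + 1 + 1)
  have h1 : SizeLe g.E c m1 := sizeLe_succ hm0 hm1 (sizeLe_empty he)
    (fun z hz => (hc z).1 hz)
  exact sizeLe_nat_omega hw hm2 (sizeLe_succ hm1 hm2 h1
    (fun z hz => (h z hz).imp_left fun h => (hc z).2 (Or.inr h)))

/-- the union of two countable sets is countable -/
theorem exists_union_ctbl {w a b : g.M} (hw : g.Den (onN P ω) w) (ha : SizeLe g.E a w)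
    (hb : SizeLe g.E b w) : ∃ c, (∀ z, g.E z c ↔ g.E z a ∨ g.E z b) ∧ SizeLe g.E c w := by
  obtain ⟨c, hc⟩ := g.zfc.exists_union₂ a b
  refine ⟨c, hc, ?_⟩
  obtain ⟨Γ, hΓ⟩ := g.zfc.pairing a b
  obtain ⟨Z, hZ, hZ'⟩ := exists_ctbl_collect hw (Γ := Γ)
    (sizeLe_double hw fun z hz => (hΓ z).1 hz) (n := 0) (R := fun _ _ w => w 1 = w 0)
    (Dfn.eq 1 0) ![] (by
      intro α hα
      rcases (hΓ α).1 hα with h | h
      · subst h
        exact ⟨α, ha, rfl⟩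
      · subst h
        exact ⟨α, hb, rfl⟩)
  refine g.zfc.sizeLe_trans (g.zfc.sizeLe_of_sub (fun z hz => ?_)) hZ
  rcases (hc z).1 hz with h | h
  · obtain ⟨Y, hY, -, hYa⟩ := hZ' a ((hΓ a).2 (Or.inl rfl))
    have hYa' : Y = a := hYa
    rw [hYa'] at hY
    exact hY z h
  · obtain ⟨Y, hY, -, hYb⟩ := hZ' b ((hΓ b).2 (Or.inr rfl))
    have hYb' : Y = b := hYb
    rw [hYb'] at hY
    exact hY z h

/-- one-element sets of pairs -/
theorem exists_pair {w : g.M} (hw : g.Den (onN P ω) w) (x F : g.M) :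
    ∃ Y, SizeLe g.E Y w ∧ Rel g.E Y x F ∧ ∀ x' F', Rel g.E Y x' F' → x' = x ∧ F' = F := by
  obtain ⟨z, hz⟩ := g.zfc.exists_opair x F
  obtain ⟨e, he⟩ := exists_empty g
  obtain ⟨Y, hY⟩ := exists_insert e z
  have hY' : ∀ y, g.E y Y ↔ y = z := fun y => by
    rw [hY y]
    exact ⟨fun h => h.resolve_left (he y), Or.inr⟩
  refine ⟨Y, sizeLe_single hw fun y hy => (hY' y).1 hy, ⟨z, hz, (hY' z).2 rfl⟩, ?_⟩
  rintro x' F' ⟨y, hy, hyY⟩
  rw [hY'] at hyY
  subst hyY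
  obtain ⟨h1, h2⟩ := hy.inj hz
  exact ⟨h1, h2⟩

/-- the empty set is countable -/
theorem exists_empty_ctbl {w : g.M} : ∃ Y : g.M, SizeLe g.E Y w ∧ ∀ z, ¬ g.E z Y := by
  obtain ⟨e, he⟩ := exists_empty g
  exact ⟨e, sizeLe_empty he, he⟩

end Pool.Agent.H16.HD
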