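import Pool.Agent.H16.HD.HBase
import Pool.Agent.H16.HD.Uni
import Pool.Agent.H16.HD.Inb

/-!
# The case of an uncountable disjoint family (module HD-HUN)

All pairs `(x, F)` in `PP` have `x ∈ [F * b]`; `K ⊆ PP` is an uncountable set of pairs with pairwise disjoint second components.
(1) Let `A` be the set of all second components of elements of `K` (separation from the power set of `l`).  `¬ SizeLe A w`: the relation
`z ↦ F`, `z = (x, F)`, is an injection from `K` to `A` (if `(x, F), (x', F) ∈ K` are different, `F` is disjoint from itself, but nonempty), so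
`SizeLe K A`.  The elements of `A` are pairwise disjoint and of size `n` (`hPP`).
(2) `HFC_w` gives `B ⊆ A` with `SizeLe B w` such that `Y = {x ∈ X | ∀ F ∈ B, ¬ InBox n F b x}` (separation) has `SizeLe Y w`.
(3) `YY₁ = {z ∈ K | ∃ x F, z = (x, F), F ∈ B}` injects into `B`, so it is countable.
(4) By `exists_ctbl_collect` with `Γ = Y`, `R x Z = ((∃ F, Rel PP x F) → ∃ F, Rel PP x F ∧ Rel Z x F)` (take `Z = {(x, F)}` or `∅`: `exists_pair`, `exists_empty_ctbl`) there is `Z` with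
`SizeLe Z w` such that for `x ∈ Y` with `Rel PP x F` for some `F` there is `F'` with `Rel PP x F'` and `Rel Z x F'`.
(5) `YY = (YY₁ ∪ Z) ∩ PP` (`exists_union_ctbl`, `exists_relSep`, both in `Uni.lean`).  Covering: let `Rel PP x F`.  If `x ∈ Y` then `Rel YY x F'` for some `F'` and
`Agree F' x x`.  Otherwise `InBox n F₀ b x` for some `F₀ ∈ B`, `(y, F₀) ∈ K ⊆ PP` for some `y`, so `InBox n F₀ b y` and `Agree F₀ y x` by
`agree_of_inBox`.
-/

set_option autoImplicit false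

namespace Pool.Agent.H16.HD

open Pool.Agent.H90.Frc Pool.Agent.H51.Hfc Ordinal

variable {P : Type} [PartialOrder P] [OrderTop P] {g : Gen P}

theorem hn_unctbl {w l X : g.M} (hC : Cx g w l X) {n b : g.M} (hn : g.E n w)
    (hb : IsSub g.E b n) {PP K : g.M}
    (hPP : ∀ x F, Rel g.E PP x F → g.E x X ∧ IsSub g.E F l ∧ (∃ e, IsEnum g.E n F e) ∧
      (∃ α, g.E α F) ∧ InBox g.E n F b x)
    (hKP : IsSub g.E K PP) (hKp : ∀ z, g.E z K → ∃ x F, IsOPair g.E x F z)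
    (hdisj : ∀ x F x' F' z z', IsOPair g.E x F z → IsOPair g.E x' F' z' → g.E z K → g.E z' K →
      z ≠ z' → ¬ ∃ α, g.E α F ∧ g.E α F')
    (hK : ¬ SizeLe g.E K w) : ∃ YY, SizeLe g.E YY w ∧ CovBy g.E PP YY := by
  obtain ⟨Q, hQ⟩ := g.zfc.power l
  -- the family of second components
  obtain ⟨A, hA⟩ := g.zfc.sep (n := 1) (R := fun _ E w => ∃ x, Rel E (w 0) x (w 1))
    (.ex (dfn_rel _ _ _)) ![K] Q
  have hRK : ∀ x F, Rel g.E K x F → Rel g.E PP x F := fun x F ⟨c, h1, h2⟩ => ⟨c, h1, hKP c h2⟩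
  have hAm : ∀ F, g.E F A ↔ ∃ x, Rel g.E K x F := by
    intro F
    rw [hA F]
    constructor
    · rintro ⟨-, x, h⟩
      exact ⟨x, h⟩
    · rintro ⟨x, h⟩
      exact ⟨(hQ F).2 (hPP x F (hRK x F h)).2.1, x, h⟩
  have hinjK : ∀ x F x' z z', IsOPair g.E x F z → IsOPair g.E x' F z' → g.E z K → g.E z' K →
      z = z' := by
    intro x F x' z z' h1 h2 h3 h4
    by_contra hne
    obtain ⟨α, hα⟩ := (hPP x F (hRK x F ⟨z, h1, h3⟩)).2.2.2.1
    exact hdisj x F x' F z z' h1 h2 h3 h4 hne ⟨α, hα, hα⟩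
  have hAunc : ¬ SizeLe g.E A w := by
    intro h
    refine hK (g.zfc.sizeLe_trans (b := A) ?_ h)
    refine g.zfc.sizeLe_of_rel (n := 0) (R := fun _ E w => ∃ x, IsOPair E x (w 1) (w 0))
      (.ex (dfn_isOPair _ _ _)) ![] ?_ ?_ ?_
    · intro z hz
      obtain ⟨x, F, h1⟩ := hKp z hz
      exact ⟨F, (hAm F).2 ⟨x, z, h1, hz⟩, x, h1⟩
    · rintro z F F' - - - ⟨x, h1⟩ ⟨x', h2⟩
      exact (h1.inj h2).2
    · rintro z z' F hz hz' - ⟨x, h1⟩ ⟨x', h2⟩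
      exact hinjK x F x' z z' h1 h2 hz hz'
  obtain ⟨B, hBA, hBw, hB⟩ := hC.hX.2 n hn A
    (fun F hF => by
      obtain ⟨x, hx⟩ := (hAm F).1 hF
      obtain ⟨-, h1, h2, -, -⟩ := hPP x F (hRK x F hx)
      exact ⟨h1, h2⟩)
    (by
      intro F F' α hF hF' hα hα'
      obtain ⟨x, z, h1, h2⟩ := (hAm F).1 hF
      obtain ⟨x', z', h3, h4⟩ := (hAm F').1 hF'
      by_contra hne
      refine hdisj x F x' F' z z' h1 h3 h2 h4 ?_ ⟨α, hα, hα'⟩
      rintro rfl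
      exact hne (h1.inj h3).2) hAunc
  -- the exceptional points
  obtain ⟨Y, hY⟩ := g.zfc.sep (n := 3) (R := fun _ E w => ∀ F, E F (w 0) →
    ¬ InBox E (w 1) F (w 2) (w 3))
    (.all (.imp (.mem _ _) (.not (dfn_inBox _ _ _ _)))) ![B, n, b] X
  have hYm : ∀ x, g.E x Y ↔ g.E x X ∧ ∀ F, g.E F B → ¬ InBox g.E n F b x := hY
  have hYw : SizeLe g.E Y w := hB b hb Y hYm
  -- the pairs of K with second component in B
  obtain ⟨Y₁, hY₁⟩ := g.zfc.sep (n := 1) (R := fun _ E w => ∃ x, ∃ F, IsOPair E x F (w 1) ∧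
    E F (w 0)) (.ex (.ex (.and (dfn_isOPair _ _ _) (.mem _ _)))) ![B] K
  have hY₁m : ∀ z, g.E z Y₁ ↔ g.E z K ∧ ∃ x F, IsOPair g.E x F z ∧ g.E F B := hY₁
  have hY₁w : SizeLe g.E Y₁ w := by
    refine g.zfc.sizeLe_trans (b := B) ?_ hBw
    refine g.zfc.sizeLe_of_rel (n := 0) (R := fun _ E w => ∃ x, IsOPair E x (w 1) (w 0))
      (.ex (dfn_isOPair _ _ _)) ![] ?_ ?_ ?_
    · intro z hz
      obtain ⟨-, x, F, h1, h2⟩ := (hY₁m z).1 hz
      exact ⟨F, h2, x, h1⟩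
    · rintro z F F' - - - ⟨x, h1⟩ ⟨x', h2⟩
      exact (h1.inj h2).2
    · rintro z z' F hz hz' - ⟨x, h1⟩ ⟨x', h2⟩
      exact hinjK x F x' z z' h1 h2 ((hY₁m z).1 hz).1 ((hY₁m z').1 hz').1
  -- pairs for the exceptional points
  obtain ⟨Z, hZ, hZ'⟩ := exists_ctbl_collect hC.hw hYw (n := 1) (R := fun _ E w =>
    (∃ F, Rel E (w 0) (w 1) F) → ∃ F, Rel E (w 0) (w 1) F ∧ Rel E (w 2) (w 1) F)
    (.imp (.ex (dfn_rel _ _ _)) (.ex (.and (dfn_rel _ _ _) (dfn_rel _ _ _)))) ![PP] (by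
      intro x _
      by_cases h : ∃ F, Rel g.E PP x F
      · obtain ⟨F, hF⟩ := h
        obtain ⟨Y', h1, h2, -⟩ := exists_pair hC.hw x F
        exact ⟨Y', h1, fun _ => ⟨F, hF, h2⟩⟩
      · obtain ⟨e, he, -⟩ := exists_empty_ctbl (g := g) (w := w)
        exact ⟨e, he, fun h' => absurd h' h⟩)
  obtain ⟨U, hU, hUw⟩ := exists_union_ctbl hC.hw hY₁w hZ
  obtain ⟨YY, hYY⟩ := g.zfc.sep (n := 1) (R := fun _ E w => E (w 1) (w 0)) (Dfn.mem 1 0) ![PP] U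
  have hYYm : ∀ z, g.E z YY ↔ g.E z U ∧ g.E z PP := hYY
  refine ⟨YY, g.zfc.sizeLe_trans (g.zfc.sizeLe_of_sub fun z hz => ((hYYm z).1 hz).1) hUw, ?_, ?_⟩
  · rintro y F ⟨c, hc, hcY⟩
    exact ⟨c, hc, ((hYYm c).1 hcY).2⟩
  · intro x F hxF
    obtain ⟨hxX, hFl, -, -, -⟩ := hPP x F hxF
    by_cases hxY : g.E x Y
    · obtain ⟨Y', hY'Z, -, h1⟩ := hZ' x hxY
      obtain ⟨F', ⟨c, hc, hcP⟩, ⟨c', hc', hcY'⟩⟩ : ∃ F, Rel g.E PP x F ∧ Rel g.E Y' x F :=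
        h1 ⟨F, hxF⟩
      have := opair_unique hc hc'
      subst this
      exact ⟨x, F', ⟨c, hc, (hYYm c).2 ⟨(hU c).2 (Or.inr (hY'Z c hcY')), hcP⟩⟩,
        fun _ _ => Iff.rfl⟩
    · rw [hYm] at hxY
      push Not at hxY
      obtain ⟨F₀, hF₀, hbox⟩ := hxY hxX
      obtain ⟨y, z, h1, h2⟩ := (hAm F₀).1 (hBA F₀ hF₀)
      obtain ⟨-, h3, -, -, h4⟩ := hPP y F₀ (hRK y F₀ ⟨z, h1, h2⟩)
      exact ⟨y, F₀, ⟨z, h1, (hYYm z).2 ⟨(hU z).2 (Or.inl ((hY₁m z).2 ⟨h2, y, F₀, h1, hF₀⟩)),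
        hKP z h2⟩⟩, agree_of_inBox hC.hl h3 hbox h4⟩

end Pool.Agent.H16.HD
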