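import Pool.Agent.H16.HD.HCt
import Pool.Agent.H16.HD.HUn
import Pool.Agent.H16.HD.Max

/-!
# One box (module HD-HBOX)

`hn_box` (fixed `n`, `b`, nonempty `F`): let `PP₀` be the set of the `z ∈ PP` which are pairs (separation; `Rel PP₀ x F ↔ Rel PP x F`).  Apply
  `exists_maxIndep` to `C = PP₀` and the relation (no parameters) `R z z' = ∃ x F x' F' α, z = (x, F), z' = (x', F'), α ∈ F, α ∈ F'` (reflexive on `PP₀`
  since the `F` are nonempty, symmetric): get `K`.  If `SizeLe K w` use `hn_ctbl` for `PP₀` (every `z ∈ PP₀` is related to some `z' ∈ K`), otherwise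
  `hn_unctbl` for `PP₀`.
-/

set_option autoImplicit false

namespace Pool.Agent.H16.HD

open Pool.Agent.H90.Frc Pool.Agent.H51.Hfc Ordinal

variable {P : Type} [PartialOrder P] [OrderTop P] {g : Gen P}

theorem hn_box {w l X : g.M} (hC : Cx g w l X) {k : ℕ} {m m' : g.M}
    (hm : g.Den (onN P k) m) (hm' : g.Den (onN P (k + 1 : ℕ)) m') (IH : HN g w l X m)
    {n b : g.M} (hn : g.E n w) (hb : IsSub g.E b n) {PP : g.M}
    (hPP : ∀ x F, Rel g.E PP x F → g.E x X ∧ IsSub g.E F l ∧ SizeLe g.E F m' ∧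
      (∃ e, IsEnum g.E n F e) ∧ (∃ α, g.E α F) ∧ InBox g.E n F b x) :
    ∃ YY, SizeLe g.E YY w ∧ CovBy g.E PP YY := by
  obtain ⟨PP₀, hsub, hpair, hrel⟩ := exists_relSep (n := 0) (R := fun _ _ _ => True) Dfn.true ![] PP
  have hrel' : ∀ x F, Rel g.E PP₀ x F ↔ Rel g.E PP x F := fun x F => by
    rw [hrel x F, and_true]
  obtain ⟨K, hKP, hind, hmax⟩ := exists_maxIndep PP₀ (n := 0) (R := fun _ E w =>
    ∃ x, ∃ F, ∃ x', ∃ F', ∃ α, IsOPair E x F (w 0) ∧ IsOPair E x' F' (w 1) ∧ E α F ∧ E α F')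
    (.ex (.ex (.ex (.ex (.ex (.and (dfn_isOPair _ _ _) (.and (dfn_isOPair _ _ _)
      (.and (.mem _ _) (.mem _ _))))))))) ![] (by
      intro z hz
      obtain ⟨x, F, hxF⟩ := hpair z hz
      obtain ⟨α, hα⟩ := (hPP x F ((hrel' x F).1 ⟨z, hxF, hz⟩)).2.2.2.2.1
      exact ⟨x, F, x, F, α, hxF, hxF, hα, hα⟩) (by
      rintro z z' - - ⟨x, F, x', F', α, h1, h2, h3, h4⟩
      exact ⟨x', F', x, F, α, h2, h1, h4, h3⟩)
  have hcov : ∃ YY, SizeLe g.E YY w ∧ CovBy g.E PP₀ YY := by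
    by_cases hK : SizeLe g.E K w
    · refine hn_ctbl hC.hw hm hm' IH (PP := PP₀) (K := K) ?_ hK ?_ ?_
      · intro x F h
        obtain ⟨h1, h2, h3, -⟩ := hPP x F ((hrel' x F).1 h)
        exact ⟨h1, h2, h3⟩
      · intro z hz
        obtain ⟨x, F, hxF⟩ := hpair z (hKP z hz)
        exact ⟨x, F, hxF, (hPP x F ((hrel' x F).1 ⟨z, hxF, hKP z hz⟩)).2.2.1⟩
      · rintro x F ⟨z, h1, h2⟩
        obtain ⟨z', hz', x1, F1, x', F', α, h3, h4, h5, h6⟩ := hmax z h2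
        obtain ⟨-, h7⟩ := h1.inj h3
        subst h7
        exact ⟨x', F', ⟨z', h4, hz'⟩, α, h5, h6⟩
    · refine hn_unctbl hC hn hb (PP := PP₀) (K := K) ?_ hKP (fun z hz => hpair z (hKP z hz)) ?_ hK
      · intro x F h
        obtain ⟨h1, h2, h3, h4, h5, h6⟩ := hPP x F ((hrel' x F).1 h)
        exact ⟨h1, h2, h4, h5, h6⟩
      · rintro x F x' F' z z' h1 h2 h3 h4 hne ⟨α, h5, h6⟩
        exact hind z z' h3 h4 hne ⟨x, F, x', F', α, h1, h2, h5, h6⟩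
  obtain ⟨YY, hYY, h1, h2⟩ := hcov
  exact ⟨YY, hYY, fun y F h => (hrel' y F).1 (h1 y F h), fun x F h => h2 x F ((hrel' x F).2 h)⟩

end Pool.Agent.H16.HD
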