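import Pool.Agent.H16.HD.HFix
import Pool.Agent.H16.HD.Uni

/-!
# The case of a countable maximal family (module HD-HCT)

`K` is countable and the second component of every pair in `PP` meets the second component of some pair in `K`.
(1) By `exists_ctbl_collect` with `Γ = K`, `R z Y = (∀ x F, z = (x, F) → ∀ α ∈ F, α ∈ Y)` (for `z ∈ K`, `z = (x, F)`, take `Y = F`, which is countable by
`hK'` and `sizeLe_nat_omega`) there is `G` with `SizeLe G w` which contains all elements of all `F`, `(x, F) ∈ K`.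
(2) By `exists_ctbl_collect` with `Γ = G` and `R α Y =` (`Y` is a set of pairs from `PP`: `∀ y F, Rel Y y F → Rel PP y F`, and for all `x F` with
`Rel PP x F`, `α ∈ F`, `α ∈ x` there are `y F'` with `Rel Y y F'` and `Agree F' y x`) and `hn_fix` with `v = True` we get `Z₁`; with `α ∉ x`, `v = False` we get `Z₂`.
Let `YY = (Z₁ ∪ Z₂) ∩ PP` (`exists_union_ctbl`, separation, `ZFC.sizeLe_of_sub`).  Note that the pairs `z ∈ Y` are in `PP`, so in `YY`: if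
`Rel Y y F'`, `z = (y, F') ∈ Y` is in `Z₁` and `Rel PP y F'`, so `z ∈ PP` (`IsOPair` determines `z`, `Gen.extensional`).
-/

set_option autoImplicit false

namespace Pool.Agent.H16.HD

open Pool.Agent.H90.Frc Pool.Agent.H51.Hfc Ordinal

variable {P : Type} [PartialOrder P] [OrderTop P] {g : Gen P}

theorem hn_ctbl_aux {w l X G : g.M} (hw : g.Den (onN P ω) w) {k : ℕ} {m m' : g.M}
    (hm : g.Den (onN P k) m) (hm' : g.Den (onN P (k + 1 : ℕ)) m') (IH : HN g w l X m) {PP : g.M}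
    (hPP : ∀ x F, Rel g.E PP x F → g.E x X ∧ IsSub g.E F l ∧ SizeLe g.E F m')
    (hG : SizeLe g.E G w) (v : Prop) :
    ∃ Z, SizeLe g.E Z w ∧ ∀ x F α, Rel g.E PP x F → g.E α F → g.E α G → (g.E α x ↔ v) →
      ∃ y F', Rel g.E Z y F' ∧ Rel g.E PP y F' ∧ Agree g.E F' y x := by
  obtain ⟨Z, hZ, hZ'⟩ := exists_ctbl_collect hw hG (n := 1) (R := fun _ E w =>
    (∀ y, ∀ F, Rel E (w 2) y F → Rel E (w 0) y F) ∧
    ∀ x, ∀ F, Rel E (w 0) x F → E (w 1) F → (E (w 1) x ↔ v) →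
      ∃ y, ∃ F', Rel E (w 2) y F' ∧ Agree E F' y x)
    (.and (.all (.all (.imp (dfn_rel _ _ _) (dfn_rel _ _ _))))
      (.all (.all (.imp (dfn_rel _ _ _) (.imp (.mem _ _) (.imp (.iff (.mem _ _) (.const v))
        (.ex (.ex (.and (dfn_rel _ _ _) (dfn_agree _ _ _)))))))))) ![PP] (by
      intro α _
      obtain ⟨YY, h1, h2, h3⟩ := hn_fix hm hm' IH hPP α v
      exact ⟨YY, h1, h2, h3⟩)
  refine ⟨Z, hZ, fun x F α hxF hαF hαG hv => ?_⟩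
  obtain ⟨Y, hYZ, -, h1, h2⟩ := hZ' α hαG
  obtain ⟨y, F', h3, h4⟩ := h2 x F hxF hαF hv
  obtain ⟨c, hc, hcY⟩ := h3
  exact ⟨y, F', ⟨c, hc, hYZ c hcY⟩, h1 y F' ⟨c, hc, hcY⟩, h4⟩

theorem hn_ctbl {w l X : g.M} (hw : g.Den (onN P ω) w) {k : ℕ} {m m' : g.M}
    (hm : g.Den (onN P k) m) (hm' : g.Den (onN P (k + 1 : ℕ)) m') (IH : HN g w l X m) {PP K : g.M}
    (hPP : ∀ x F, Rel g.E PP x F → g.E x X ∧ IsSub g.E F l ∧ SizeLe g.E F m')
    (hK : SizeLe g.E K w) (hK' : ∀ z, g.E z K → ∃ x F, IsOPair g.E x F z ∧ SizeLe g.E F m')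
    (hmeet : ∀ x F, Rel g.E PP x F → ∃ y F', Rel g.E K y F' ∧ ∃ α, g.E α F ∧ g.E α F') :
    ∃ YY, SizeLe g.E YY w ∧ CovBy g.E PP YY := by
  obtain ⟨G, hG, hG'⟩ := exists_ctbl_collect hw hK (n := 0) (R := fun _ E w =>
    ∀ x, ∀ F, IsOPair E x F (w 0) → ∀ α, E α F → E α (w 1))
    (.all (.all (.imp (dfn_isOPair _ _ _) (.all (.imp (.mem _ _) (.mem _ _)))))) ![] (by
      intro z hz
      obtain ⟨x, F, h1, h2⟩ := hK' z hz
      refine ⟨F, sizeLe_nat_omega hw hm' h2, ?_⟩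
      intro x' F' h3 α hα
      obtain ⟨-, h4⟩ := h1.inj h3
      rw [← h4] at hα
      exact hα)
  obtain ⟨Z₁, hZ₁, hZ₁'⟩ := hn_ctbl_aux hw hm hm' IH hPP hG True
  obtain ⟨Z₂, hZ₂, hZ₂'⟩ := hn_ctbl_aux hw hm hm' IH hPP hG False
  obtain ⟨U, hU, hUw⟩ := exists_union_ctbl hw hZ₁ hZ₂
  obtain ⟨YY, hYY⟩ := g.zfc.sep (n := 1) (R := fun _ E w => E (w 1) (w 0)) (Dfn.mem 1 0) ![PP] U
  have hYYm : ∀ z, g.E z YY ↔ g.E z U ∧ g.E z PP := hYY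
  refine ⟨YY, g.zfc.sizeLe_trans (g.zfc.sizeLe_of_sub fun z hz => ((hYYm z).1 hz).1) hUw, ?_, ?_⟩
  · rintro y F ⟨c, hc, hcY⟩
    exact ⟨c, hc, ((hYYm c).1 hcY).2⟩
  · intro x F hxF
    obtain ⟨y, F', ⟨z, hz, hzK⟩, α, hαF, hαF'⟩ := hmeet x F hxF
    obtain ⟨Y, hYG, -, hY⟩ := hG' z hzK
    have hαG : g.E α G := hYG α (hY y F' hz α hαF')
    by_cases hαx : g.E α x
    · obtain ⟨y₁, F₁, ⟨c, hc, hcZ⟩, ⟨c', hc', hcP⟩, hag⟩ :=
        hZ₁' x F α hxF hαF hαG (iff_of_true hαx trivial)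
      have := opair_unique hc hc'
      subst this
      exact ⟨y₁, F₁, ⟨c, hc, (hYYm c).2 ⟨(hU c).2 (Or.inl hcZ), hcP⟩⟩, hag⟩
    · obtain ⟨y₁, F₁, ⟨c, hc, hcZ⟩, ⟨c', hc', hcP⟩, hag⟩ :=
        hZ₂' x F α hxF hαF hαG (iff_of_false hαx id)
      have := opair_unique hc hc'
      subst this
      exact ⟨y₁, F₁, ⟨c, hc, (hYYm c).2 ⟨(hU c).2 (Or.inr hcZ), hcP⟩⟩, hag⟩

end Pool.Agent.H16.HD
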