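import Pool.Agent.H16.HD.HBase
import Pool.Agent.H16.HD.Uni

/-!
# Pairs whose second component contains a given `α` (module HD-HFIX)

Let `v : Prop`.  By separation / `ZFC.exists_rel` (parameters `α`, `PP`; the statement `v` by `Dfn.const`) there is `PP'` with
`Rel PP' x F' ↔ ∃ F, Rel PP x F ∧ α ∈ F ∧ (α ∈ x ↔ v) ∧ ∀ z, z ∈ F' ↔ z ∈ F ∧ z ≠ α` (domain `X`, codomain the power set of `l`).
`SizeLe F' m` by `sizeLe_pred`.  By `HN` for `m` there is `YY'` with `SizeLe YY' w`, `CovBy PP' YY'`.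
Let `YY ⊆ PP` be the set of all `z ∈ PP` such that `z = (y, F)`, `α ∈ F`, `(α ∈ y ↔ v)` and `Rel YY' y F'` for the `F' = F \ {α}`.  `SizeLe YY w`: the
relation `z ↦ z'`, `z = (y, F)`, `z' = (y, F \ {α})` (`z' ∈ YY'`) is an injection from `YY` to `YY'` (`F` is determined by `F'` since `α ∈ F`;
`IsOPair.inj`, `Gen.extensional`), so `ZFC.sizeLe_of_rel`, `ZFC.sizeLe_trans`.
Covering: if `Rel PP x F`, `α ∈ F`, `(α ∈ x ↔ v)`, let `F' = F \ {α}` (`exists_erase`); `Rel PP' x F'`, so there are `y`, `F''` with `Rel YY' y F''`,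
`Agree F'' y x`, and `Rel PP' y F''`, so `F'' = F₀ \ {α}` with `Rel PP y F₀`, `α ∈ F₀`, `(α ∈ y ↔ v)`; then `Rel YY y F₀` and `Agree F₀ y x`.
-/

set_option autoImplicit false

namespace Pool.Agent.H16.HD

open Pool.Agent.H90.Frc Pool.Agent.H51.Hfc Ordinal

variable {P : Type} [PartialOrder P] [OrderTop P] {g : Gen P}

theorem hn_fix {w l X : g.M} {k : ℕ} {m m' : g.M} (hm : g.Den (onN P k) m)
    (hm' : g.Den (onN P (k + 1 : ℕ)) m') (IH : HN g w l X m) {PP : g.M}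
    (hPP : ∀ x F, Rel g.E PP x F → g.E x X ∧ IsSub g.E F l ∧ SizeLe g.E F m') (α : g.M)
    (v : Prop) :
    ∃ YY, SizeLe g.E YY w ∧ (∀ y F, Rel g.E YY y F → Rel g.E PP y F) ∧
      ∀ x F, Rel g.E PP x F → g.E α F → (g.E α x ↔ v) →
        ∃ y F', Rel g.E YY y F' ∧ Agree g.E F' y x := by
  obtain ⟨Q, hQ⟩ := g.zfc.power l
  obtain ⟨PP', hPP'⟩ := g.zfc.exists_rel (n := 2) (R := fun _ E w => ∃ F, Rel E (w 1) (w 2) F ∧
    E (w 0) F ∧ (E (w 0) (w 2) ↔ v) ∧ ∀ z, E z (w 3) ↔ E z F ∧ ¬ z = w 0)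
    (.ex (.and (dfn_rel _ _ _) (.and (.mem _ _) (.and (.iff (.mem _ _) (.const v))
      (.all (.iff (.mem _ _) (.and (.mem _ _) (.not (.eq _ _)))))))))
    ![α, PP] X Q
  have hPP2 : ∀ x F', Rel g.E PP' x F' ↔ ∃ F, Rel g.E PP x F ∧
      g.E α F ∧ (g.E α x ↔ v) ∧ ∀ z, g.E z F' ↔ g.E z F ∧ ¬ z = α := by
    intro x F'
    rw [hPP' x F']
    constructor
    · rintro ⟨-, -, h⟩
      exact h
    · rintro ⟨F, h1, h2, h3, h4⟩
      refine ⟨(hPP x F h1).1, (hQ F').2 fun z hz => (hPP x F h1).2.1 z ((h4 z).1 hz).1,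
        F, h1, h2, h3, h4⟩
  obtain ⟨YY', hYY', hsub', hcov'⟩ := IH PP' (by
    intro x F' h
    obtain ⟨F, h1, h2, h3, h4⟩ := (hPP2 x F').1 h
    exact ⟨(hPP x F h1).1, fun z hz => (hPP x F h1).2.1 z ((h4 z).1 hz).1,
      sizeLe_pred hm hm' (hPP x F h1).2.2 h2 fun z hz => (h4 z).1 hz⟩)
  obtain ⟨YY, hYY⟩ := g.zfc.sep (n := 2) (R := fun _ E w => ∃ y, ∃ F, IsOPair E y F (w 2) ∧
    E (w 0) F ∧ (E (w 0) y ↔ v) ∧ ∃ F', Rel E (w 1) y F' ∧ ∀ z, E z F' ↔ E z F ∧ ¬ z = w 0)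
    (.ex (.ex (.and (dfn_isOPair _ _ _) (.and (.mem _ _) (.and (.iff (.mem _ _) (.const v))
      (.ex (.and (dfn_rel _ _ _) (.all (.iff (.mem _ _) (.and (.mem _ _)
        (.not (.eq _ _))))))))))))
    ![α, YY'] PP
  have hYYm : ∀ z, g.E z YY ↔ g.E z PP ∧ ∃ y, ∃ F, IsOPair g.E y F z ∧
    g.E α F ∧ (g.E α y ↔ v) ∧ ∃ F', Rel g.E YY' y F' ∧ ∀ z, g.E z F' ↔ g.E z F ∧ ¬ z = α := hYY
  refine ⟨YY, ?_, ?_, ?_⟩
  · refine g.zfc.sizeLe_trans ?_ hYY'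
    refine g.zfc.sizeLe_of_rel (n := 1) (R := fun _ E w => ∃ y, ∃ F, ∃ F', IsOPair E y F (w 1) ∧
      IsOPair E y F' (w 2) ∧ E (w 0) F ∧ ∀ z, E z F' ↔ E z F ∧ ¬ z = w 0)
      (.ex (.ex (.ex (.and (dfn_isOPair _ _ _) (.and (dfn_isOPair _ _ _) (.and (.mem _ _)
        (.all (.iff (.mem _ _) (.and (.mem _ _) (.not (.eq _ _)))))))))))
      ![α] ?_ ?_ ?_
    · intro z hz
      obtain ⟨-, y, F, h1, h2, -, F', ⟨c, hc, hcY⟩, h4⟩ := (hYYm z).1 hz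
      exact ⟨c, hcY, y, F, F', h1, hc, h2, h4⟩
    · rintro z z' z'' - - - ⟨y, F, F', h1, h2, h3, h4⟩ ⟨y1, F1, F1', h5, h6, h7, h8⟩
      obtain ⟨e1, e2⟩ := IsOPair.inj h1 h5
      subst e1 e2
      have e3 : F' = F1' := Gen.extensional fun u => (h4 u).trans (h8 u).symm
      subst e3
      exact opair_unique h2 h6
    · rintro z z1 z' - - - ⟨y, F, F', h1, h2, h3, h4⟩ ⟨y1, F1, F1', h5, h6, h7, h8⟩
      obtain ⟨e1, e2⟩ := IsOPair.inj h2 h6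
      subst e1 e2
      have e3 : F = F1 := Gen.extensional fun u => by
        by_cases hu : u = α
        · subst hu
          exact ⟨fun _ => h7, fun _ => h3⟩
        · constructor
          · intro h
            exact ((h8 u).1 ((h4 u).2 ⟨h, hu⟩)).1
          · intro h
            exact ((h4 u).1 ((h8 u).2 ⟨h, hu⟩)).1
      subst e3
      exact opair_unique h1 h5
  · rintro y F ⟨c, hc, hcY⟩
    exact ⟨c, hc, ((hYYm c).1 hcY).1⟩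
  · intro x F hxF hαF hv
    obtain ⟨F', hF'⟩ := exists_erase F α
    obtain ⟨y, F'', hy, hag⟩ := hcov' x F' ((hPP2 x F').2 ⟨F, hxF, hαF, hv, hF'⟩)
    obtain ⟨F₀, h1, h2, h3, h4⟩ := (hPP2 y F'').1 (hsub' y F'' hy)
    obtain ⟨c, hc, hcP⟩ := h1
    refine ⟨y, F₀, ⟨c, hc, (hYYm c).2 ⟨hcP, y, F₀, hc, h2, h3, F'', hy, h4⟩⟩, fun β hβ => ?_⟩
    by_cases hβα : β = α
    · rw [hβα, h3, hv]
    · exact hag β ((h4 β).2 ⟨hβ, hβα⟩)

end Pool.Agent.H16.HD
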