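import Pool.Agent.H16.HD.Uni
import Pool.Agent.H16.HD.Enu

/-!
# The power set of a natural number is countable (module HD-POW)

`exists_pow`: `n` is the value of `onN P k`; induction on `k`.  `k = 0`: the power set of `∅` is `{∅}`.  Step from `n` to
`n' = n ∪ {n}` (`onN_succ`): let `Q` be the power set of `n`, `SizeLe Q w`.  By `exists_ctbl_collect` with `Γ = Q`, and `R` saying that `z ∈ Y` and
`z ∪ {n} ∈ Y` (for `z ∈ Q` the set `Y` with these two elements is finite, `sizeLe_succ` twice from the empty set) there is `Z` with `SizeLe Z w`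
containing all `z` and `z ∪ {n}`, `z ∈ Q`.  The power set `Q'` of `n'` (`g.zfc.power`) is contained in `Z`: for `z ⊆ n'` let `z₀ = z ∩ n ∈ Q`; `z = z₀` or
`z = z₀ ∪ {n}`.
-/

set_option autoImplicit false

namespace Pool.Agent.H16.HD

open Pool.Agent.H90.Frc Pool.Agent.H51.Hfc Ordinal

variable {P : Type} [PartialOrder P] [OrderTop P] {g : Gen P}

theorem exists_pow_nat {w : g.M} (hw : g.Den (onN P ω) w) (k : ℕ) : ∀ n : g.M,
    g.Den (onN P k) n → ∃ Q, (∀ z, g.E z Q ↔ IsSub g.E z n) ∧ SizeLe g.E Q w := by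
  induction k with
  | zero =>
    intro n hn
    obtain ⟨Q, hQ⟩ := g.zfc.power n
    refine ⟨Q, hQ, sizeLe_single hw (x := n) fun z hz => ?_⟩
    have hn0 : ∀ y, ¬ g.E y n := fun y hy => by
      obtain ⟨β, hβ, -⟩ := (den_onN hn y).1 hy
      simp at hβ
    exact Gen.extensional fun y => ⟨fun hy => (hQ z).1 hz y hy, fun hy => absurd hy (hn0 y)⟩
  | succ k ih =>
    intro n' hn'
    obtain ⟨n, hn⟩ := exists_pred_nat hn'
    have hs := onN_succ hn hn'
    obtain ⟨Q, hQ, hQw⟩ := ih n hn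
    obtain ⟨Z, hZ, hZ'⟩ := exists_ctbl_collect hw hQw (n := 1)
      (R := fun _ E w => E (w 1) (w 2) ∧ ∃ z', (∀ y, E y z' ↔ E y (w 1) ∨ y = w 0) ∧ E z' (w 2))
      (.and (.mem _ _) (.ex (.and (.all (.iff (.mem _ _) (.or (.mem _ _) (.eq _ _))))
        (.mem _ _)))) ![n] (by
        intro z hz
        obtain ⟨z', hz'⟩ := exists_insert z n
        obtain ⟨Y, hY⟩ := g.zfc.pairing z z'
        exact ⟨Y, sizeLe_double hw fun y hy => (hY y).1 hy, (hY z).2 (Or.inl rfl), z', hz',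
          (hY z').2 (Or.inr rfl)⟩)
    obtain ⟨Q', hQ'⟩ := g.zfc.power n'
    refine ⟨Q', hQ', g.zfc.sizeLe_trans (g.zfc.sizeLe_of_sub (fun z hz => ?_)) hZ⟩
    have hz1 := (hQ' z).1 hz
    obtain ⟨z₀, hz₀⟩ := exists_erase z n
    have hz₀Q : g.E z₀ Q := (hQ z₀).2 fun y hy => by
      obtain ⟨h1, h2⟩ := (hz₀ y).1 hy
      exact ((hs y).1 (hz1 y h1)).resolve_right h2
    obtain ⟨Y, hYZ, -, hR⟩ := hZ' z₀ hz₀Q
    obtain ⟨h3, z', h4, h5⟩ : g.E z₀ Y ∧ ∃ z', (∀ y, g.E y z' ↔ g.E y z₀ ∨ y = n) ∧ g.E z' Y := hR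
    by_cases hnz : g.E n z
    · have : z = z' := Gen.extensional fun y => by
        rw [h4, hz₀]
        constructor
        · intro hy
          by_cases hyn : y = n
          · exact Or.inr hyn
          · exact Or.inl ⟨hy, hyn⟩
        · rintro (⟨hy, -⟩ | rfl)
          · exact hy
          · exact hnz
      rw [this]
      exact hYZ z' h5
    · have : z = z₀ := Gen.extensional fun y => by
        rw [hz₀]
        constructor
        · intro hy
          refine ⟨hy, ?_⟩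
          rintro rfl
          exact hnz hy
        · rintro ⟨hy, -⟩
          exact hy
      rw [this]
      exact hYZ z₀ h3

theorem exists_pow {w n : g.M} (hw : g.Den (onN P ω) w) (hn : g.E n w) :
    ∃ Q, (∀ z, g.E z Q ↔ IsSub g.E z n) ∧ SizeLe g.E Q w := by
  obtain ⟨β, hβ, hn'⟩ := (den_onN hw n).1 hn
  obtain ⟨k, rfl⟩ := lt_omega0.1 hβ
  exact exists_pow_nat hw k n hn'

end Pool.Agent.H16.HD
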