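import Pool.Agent.H16.HD.HBox
import Pool.Agent.H16.HD.Enu
import Pool.Agent.H16.HD.Pow

/-!
# The induction step (module HD-HSTP)

`hn_step`: let `PP` be as in `HN` for `m'`.  If `Rel PP x₀ F₀` for some `x₀` and some empty `F₀` then `YY = {(x₀, F₀)}` (`exists_pair`) covers
  everything, as `Agree F₀ x₀ x` holds for all `x`.  So assume that all `F` with `Rel PP x F` are nonempty.  For `n ∈ w` and `b ⊆ n` let `PP n b` be the set of pairs (`exists_relSep`) `(x, F)` in `PP` with `∃ e, IsEnum n F e`, `InBox n F b x`.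
  `hn_box` gives a countable `YY` with `CovBy (PP n b) YY`.  For fixed `n`: `exists_ctbl_collect` with `Γ` = the power set of `n` (`exists_pow`) and
  `R b Y =` (for all `x F` with `Rel PP x F`, `∃ e, IsEnum n F e`, `InBox n F b x` there are `y F'` with `Rel Y y F'`, `Rel PP y F'`, `Agree F' y x`; the
  parameters are `PP`, `n`) gives `Z n`; since every pair `(x, F)` in `PP` with `∃ e, IsEnum n F e` is in some box (`exists_inBox`), `Z n` covers all
  these.  Then `exists_ctbl_collect` with `Γ = w` and `R n Y =` (for all `x F` with `Rel PP x F`, `∃ e, IsEnum n F e` there are `y F'` with `Rel Y y F'`,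
  `Rel PP y F'`, `Agree F' y x`) gives `Z`; every `F` has an enumeration by some `n ∈ w` (`exists_isEnum`, `isFin_iff`), so
  `YY = Z ∩ PP` works.
-/

set_option autoImplicit false

namespace Pool.Agent.H16.HD

open Pool.Agent.H90.Frc Pool.Agent.H51.Hfc Ordinal

variable {P : Type} [PartialOrder P] [OrderTop P] {g : Gen P}

theorem hn_step {w l X : g.M} (hC : Cx g w l X) {k : ℕ} {m m' : g.M}
    (hm : g.Den (onN P k) m) (hm' : g.Den (onN P (k + 1 : ℕ)) m') (IH : HN g w l X m) :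
    HN g w l X m' := by
  intro PP hPP
  by_cases hemp : ∃ x₀ F₀, Rel g.E PP x₀ F₀ ∧ ∀ α, ¬ g.E α F₀
  · obtain ⟨x₀, F₀, h1, h2⟩ := hemp
    obtain ⟨YY, h3, h4, h5⟩ := exists_pair hC.hw x₀ F₀
    refine ⟨YY, h3, fun y F h => ?_, fun x F _ => ⟨x₀, F₀, h4, fun α hα => absurd hα (h2 α)⟩⟩
    obtain ⟨rfl, rfl⟩ := h5 y F h
    exact h1
  · push Not at hemp
    -- fixed n
    have hN : ∀ n, g.E n w → ∃ Z, SizeLe g.E Z w ∧ ∀ x, ∀ F, Rel g.E PP x F →
        (∃ e, IsEnum g.E n F e) →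
        ∃ y, ∃ F', Rel g.E Z y F' ∧ Rel g.E PP y F' ∧ Agree g.E F' y x := by
      intro n hn
      obtain ⟨Q, hQ, hQw⟩ := exists_pow hC.hw hn
      obtain ⟨Z, hZ, hZ'⟩ := exists_ctbl_collect hC.hw hQw (n := 2) (R := fun _ E w =>
        ∀ x, ∀ F, Rel E (w 0) x F → (∃ e, IsEnum E (w 1) F e) → InBox E (w 1) F (w 2) x →
          ∃ y, ∃ F', Rel E (w 3) y F' ∧ Rel E (w 0) y F' ∧ Agree E F' y x)
        (.all (.all (.imp (dfn_rel _ _ _) (.imp (.ex (dfn_isEnum _ _ _))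
          (.imp (dfn_inBox _ _ _ _) (.ex (.ex (.and (dfn_rel _ _ _) (.and (dfn_rel _ _ _)
            (dfn_agree _ _ _))))))))))
        ![PP, n] (by
          intro b hb
          obtain ⟨PP', hsub, -, hrel⟩ := exists_relSep (n := 2) (R := fun _ E w =>
            (∃ e, IsEnum E (w 0) (w 3) e) ∧ InBox E (w 0) (w 3) (w 1) (w 2))
            (.and (.ex (dfn_isEnum _ _ _)) (dfn_inBox _ _ _ _)) ![n, b] PP
          have hrel' : ∀ x F, Rel g.E PP' x F ↔ Rel g.E PP x F ∧ (∃ e, IsEnum g.E n F e) ∧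
            InBox g.E n F b x := hrel
          obtain ⟨YY, hYY, h1, h2⟩ := hn_box hC hm hm' IH hn ((hQ b).1 hb) (PP := PP') (by
            intro x F hxF
            obtain ⟨h3, h4, h5⟩ := (hrel' x F).1 hxF
            obtain ⟨h6, h7, h8⟩ := hPP x F h3
            exact ⟨h6, h7, h8, h4, hemp x F h3, h5⟩)
          refine ⟨YY, hYY, ?_⟩
          intro x F hxF he hbox
          obtain ⟨y, F', h3, h4⟩ := h2 x F ((hrel' x F).2 ⟨hxF, he, hbox⟩)
          exact ⟨y, F', h3, ((hrel' y F').1 (h1 y F' h3)).1, h4⟩)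
      refine ⟨Z, hZ, fun x F hxF he => ?_⟩
      obtain ⟨e, he'⟩ := he
      obtain ⟨b, hb, hbox⟩ := exists_inBox he' x
      obtain ⟨Y, hYZ, -, hY⟩ := hZ' b ((hQ b).2 hb)
      obtain ⟨y, F', ⟨c, hc, hcY⟩, h4, h5⟩ := hY x F hxF ⟨e, he'⟩ hbox
      exact ⟨y, F', ⟨c, hc, hYZ c hcY⟩, h4, h5⟩
    obtain ⟨Z, hZ, hZ'⟩ := exists_ctbl_collect hC.hw (g.zfc.sizeLe_refl w) (n := 1)
      (R := fun _ E w => ∀ x, ∀ F, Rel E (w 0) x F → (∃ e, IsEnum E (w 1) F e) →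
        ∃ y, ∃ F', Rel E (w 2) y F' ∧ Rel E (w 0) y F' ∧ Agree E F' y x)
      (.all (.all (.imp (dfn_rel _ _ _) (.imp (.ex (dfn_isEnum _ _ _))
        (.ex (.ex (.and (dfn_rel _ _ _) (.and (dfn_rel _ _ _) (dfn_agree _ _ _)))))))))
      ![PP] hN
    obtain ⟨YY, hYY⟩ := g.zfc.sep (n := 1) (R := fun _ E w => E (w 1) (w 0)) (Dfn.mem 1 0)
      ![PP] Z
    have hYYm : ∀ z, g.E z YY ↔ g.E z Z ∧ g.E z PP := hYY
    refine ⟨YY, g.zfc.sizeLe_trans (g.zfc.sizeLe_of_sub fun z hz => ((hYYm z).1 hz).1) hZ, ?_, ?_⟩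
    · rintro y F ⟨c, hc, hcY⟩
      exact ⟨c, hc, ((hYYm c).1 hcY).2⟩
    · intro x F hxF
      obtain ⟨h1, h2, h3⟩ := hPP x F hxF
      obtain ⟨n, hn, he⟩ := exists_isEnum hC.hw hC.hl h2
        ((isFin_iff hC.hw).2 ⟨k + 1, m', hm', h3⟩)
      obtain ⟨Y, hYZ, -, hY⟩ := hZ' n hn
      obtain ⟨y, F', ⟨c, hc, hcY⟩, ⟨c', hc', hcP⟩, h5⟩ := hY x F hxF he
      have := opair_unique hc hc'
      subst this
      exact ⟨y, F', ⟨c, hc, (hYYm c).2 ⟨hYZ c hcY, hcP⟩⟩, h5⟩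

end Pool.Agent.H16.HD
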