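import Pool.Agent.H16.HD.Poset

/-!
# Names for neighbourhood assignments on subsets of `ω₁`

`c α q` stands for: `q` forces `α ∈ C`.  `u α β q` stands for: `q` forces `α, β ∈ C` and `β ∈ U_α`.
-/

set_option autoImplicit false

namespace Pool.Agent.H16.HD

open Pool.Agent.H90.Frc Cardinal Ordinal

/-- `A` is the set of conditions forcing some statement -/
structure Rg (A : Cd → Prop) : Prop where
  mono : ∀ q q', A q → q' ≤ q → A q'
  stab : ∀ q, (∀ q' ≤ q, ∃ q'' ≤ q', A q'') → A q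

/-- the hypotheses on names for a set `C ⊆ ω₁` and a neighbourhood assignment on it -/
structure CU (c : Ix → Cd → Prop) (u : Ix → Ix → Cd → Prop) : Prop where
  hc : ∀ α, Rg (c α)
  hu : ∀ α β, Rg (u α β)

/-- `q` forces that `β ∈ C` is in no `U_α`, `α ∈ s` -/
def Cs (c : Ix → Cd → Prop) (u : Ix → Ix → Cd → Prop) (s : List Ix) (β : Ix) (q : Cd) : Prop :=
  c β q ∧ ∀ α ∈ s, ∀ q' ≤ q, ¬ u α β q'

/-- `q` forces: every `β ∈ C` which is in no `U_α`, `α ∈ s`, is in `U_α` for some `α < h` in `C` which is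
itself in no `U_α'`, `α' ∈ s` -/
def Cov (c : Ix → Cd → Prop) (u : Ix → Ix → Cd → Prop) (s : List Ix) (h : Ix) (q : Cd) : Prop :=
  ∀ β, ∀ q' ≤ q, Cs c u s β q' → ∃ q'' ≤ q', ∃ α < h, Cs c u s α q'' ∧ u α β q''

variable {c : Ix → Cd → Prop} {u : Ix → Ix → Cd → Prop}

theorem Cs.mono (H : CU c u) {s : List Ix} {β : Ix} {q q' : Cd} (h : Cs c u s β q) (hq : q' ≤ q) :
    Cs c u s β q' :=
  ⟨(H.hc β).mono _ _ h.1 hq, fun α hα r hr => h.2 α hα r (hr.trans hq)⟩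

theorem Cov.mono {s : List Ix} {h h' : Ix} {q q' : Cd} (hC : Cov c u s h q) (hh : h ≤ h')
    (hq : q' ≤ q) : Cov c u s h' q' := by
  intro β r hr hβ
  obtain ⟨r', hr', α, hα, h1⟩ := hC β r (hr.trans hq) hβ
  exact ⟨r', hr', α, hα.trans_le hh, h1⟩

end Pool.Agent.H16.HD
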