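import Pool.Agent.H16.HD.KGr
import Pool.Agent.H16.HD.CloA

/-!
# The density argument (module HD-KDNS)

Closure of `R` (`hR`): for all lists `s` and all `α`, below every condition with support in `R` there is one with support in
`R` which decides `Cs s α`; and the witnesses of `Cov s θ` can be found with support in `R`.

`exists_kR`: apply `exists_rfl` with `J = (List Ix × Ix) ⊕ (List Ix × Ix)` (size `≤ 𝔠`), `O (inl (s, α)) q = (Cs c u s α q ∨ ∀ q' ≤ q, ¬ Cs c u s α q')`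
(always possible: by cases) and `O (inr (s, β)) q = ∃ α < θ, Cs c u s α q ∧ u α β q`.

`exists_gr`: for `q` with support in `R` and every `w` there are `q' ≤ q` with support in `R` and `s` with `Gr w s q'`: induction on `w` from the
right (`List.reverseRecOn` / `List.reverseRecOn`), using `hR.1` and `Gr.mono`.

`density`: let `i ∉ R`, `q ≤ q₀`, `c β q`; `q₀` has support in `R` and forces all `Cov s θ`.  Let `w = q.2.r i`.
(a) `q₁ := (q.1, mix R q.2 ⊤)` has support in `R`, `q₁ ≤ q₀`; by `exists_gr` there are `q₂ ≤ q₁`, `InR R q₂`, `Gr w s q₂`; by `hR.1` we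
may assume that `q₂` decides `Cs s β`.  Let `q₂' = (q₂.1, mix R q₂.2 q.2)`; it is below `q` and `q₂` and `q₂'.2.r i = w`.
(b) If no `q' ≤ q₂` has `Cs s β q'`: then `¬ Cs s β q₂'`, but `c β q₂'`, so there are `α ∈ s`, `q' ≤ q₂'` with `u α β q'`; as
`w <+: q'.2.r i`, `Dk α q'` with `w`, `s` (`Gr.mono`).
(c) If `Cs s β q₂`: as all elements of `s` are `< θ` (`Gr.mem_c`, `hε`), `Cov s θ q₂` gives `q' ≤ q₂`, `α < θ` with `Cs s α q'`, `u α β q'`, and by `hR.2` we may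
assume `InR R q'`.  `α = ε k` for some `k`.  Let `q''` be `(q'.1, r)` with `r = ap [(i, w ++ [k])] (mix R q'.2 q.2)`, that is `r j = q'.2.r j` for `j ∈ R`,
`r i = w ++ [k]`, `r j = q.2.r j` otherwise.  `q'' ≤ q`, `q'' ≤ q'` (`(q'.2 = mix R q'.2 ⊤)`), and `Gr (w ++ [k]) (s ++ [α]) q''` by `Gr.yes`
and monotonicity.  So `Dk α q''` and `u α β q''`.
-/

set_option autoImplicit false

namespace Pool.Agent.H16.HD

open Pool.Agent.H90.Frc Cardinal Ordinal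

variable {c : Ix → Cd → Prop} {u : Ix → Ix → Cd → Prop}

/-- `q` forces that `α` is one of the elements chosen greedily along the Cohen real at coordinate `i` -/
def Dk (c : Ix → Cd → Prop) (u : Ix → Ix → Cd → Prop) (ε : ℕ → Ix) (i : Kp) (α : Ix) (q : Cd) :
    Prop :=
  ∃ w s, w <+: q.2.r i ∧ Gr c u ε w s q ∧ α ∈ s

/-- the closure properties of `R` -/
structure KR (c : Ix → Cd → Prop) (u : Ix → Ix → Cd → Prop) (θ : Ix) (R : Set Kp) : Prop where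
  dec : ∀ s α q, InR R q → ∃ q' ≤ q, InR R q' ∧
    (Cs c u s α q' ∨ ∀ q'' ≤ q', ¬ Cs c u s α q'')
  wit : ∀ s β q, InR R q → (∃ q' ≤ q, ∃ α < θ, Cs c u s α q' ∧ u α β q') →
    ∃ q' ≤ q, InR R q' ∧ ∃ α < θ, Cs c u s α q' ∧ u α β q'

theorem exists_kR (c : Ix → Cd → Prop) (u : Ix → Ix → Cd → Prop) (θ : Ix) {S₀ : Set Kp}
    (h : S₀.Countable) : ∃ R, S₀ ⊆ R ∧ #R ≤ 𝔠 ∧ KR c u θ R := by
  have hIx : #Ix ≤ 𝔠 := by rw [mk_ix]; exact aleph_one_le_continuum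
  have hL : #(List Ix) ≤ 𝔠 := by
    refine (mk_list_le_max Ix).trans ?_
    exact max_le aleph0_le_continuum hIx
  have hLI : #(List Ix × Ix) ≤ 𝔠 := by
    rw [mk_prod, Cardinal.lift_id, Cardinal.lift_id]
    exact (mul_le_mul' hL hIx).trans (mul_eq_self aleph0_le_continuum).le
  have hJ : #((List Ix × Ix) ⊕ (List Ix × Ix)) ≤ 𝔠 := by
    rw [mk_sum, Cardinal.lift_id]
    exact (add_le_add hLI hLI).trans (add_eq_self aleph0_le_continuum).le
  obtain ⟨R, h1, h2, h3⟩ := exists_rfl hJ (fun j q => Sum.elim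
    (fun z : List Ix × Ix => Cs c u z.1 z.2 q ∨ ∀ q' ≤ q, ¬ Cs c u z.1 z.2 q')
    (fun z : List Ix × Ix => ∃ α < θ, Cs c u z.1 α q ∧ u α z.2 q) j) h
  refine ⟨R, h1, h2, ⟨fun s α q hq => ?_, fun s β q hq hex => ?_⟩⟩
  · refine h3 (Sum.inl (s, α)) q hq ?_
    by_cases h4 : ∃ q' ≤ q, Cs c u s α q'
    · obtain ⟨q', hq', h5⟩ := h4
      exact ⟨q', hq', Or.inl h5⟩
    · push Not at h4
      exact ⟨q, le_rfl, Or.inr h4⟩
  · exact h3 (Sum.inr (s, β)) q hq hex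

theorem exists_gr (H : CU c u) {θ : Ix} {R : Set Kp} (hR : KR c u θ R) (ε : ℕ → Ix) (w : List ℕ)
    {q : Cd} (hq : InR R q) : ∃ q' ≤ q, InR R q' ∧ ∃ s, Gr c u ε w s q' := by
  induction w using List.reverseRecOn with
  | nil => exact ⟨q, le_rfl, hq, [], .nil _⟩
  | append_singleton w k ih =>
    obtain ⟨q', hq', hqR, s, hs⟩ := ih
    obtain ⟨q'', hq'', hqR', h | h⟩ := hR.dec s (ε k) q' hqR
    · exact ⟨q'', hq''.trans hq', hqR', s ++ [ε k], .yes _ _ _ _ (hs.mono H hq'') h⟩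
    · exact ⟨q'', hq''.trans hq', hqR', s, .no _ _ _ _ (hs.mono H hq'') h⟩

theorem density (H : CU c u) {θ : Ix} {R : Set Kp} (hR : KR c u θ R) {ε : ℕ → Ix}
    (hε : ∀ α, α < θ ↔ ∃ k, ε k = α) {q₀ : Cd} (h₀ : InR R q₀)
    (hC : ∀ s : List Ix, (∀ α ∈ s, α < θ) → Cov c u s θ q₀) {i : Kp} (hi : i ∉ R) {q : Cd}
    (hq : q ≤ q₀) {β : Ix} (hβ : c β q) : ∃ q' ≤ q, ∃ α, Dk c u ε i α q' ∧ u α β q' := by
  have h₀' : mix R q₀.2 ⊤ = q₀.2 := mix_top_of_supp h₀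
  -- the part on `R`
  let q₁ : Cd := (q.1, mix R q.2 ⊤)
  have hq₁R : InR R q₁ := by
    change (mix R q.2 ⊤).supp ⊆ R
    rw [supp_mix_top]
    exact Set.inter_subset_right
  have hq₁ : q₁ ≤ q₀ := by
    refine ⟨hq.1, ?_⟩
    change mix R q.2 ⊤ ≤ q₀.2
    rw [← h₀']
    exact mix_top_mono hq.2
  obtain ⟨q₂, hq₂, hq₂R, s, hs⟩ := exists_gr H hR ε (q.2.r i) hq₁R
  obtain ⟨q₃, hq₃, hq₃R, hdec⟩ := hR.dec s β q₂ hq₂R
  have hs₃ : Gr c u ε (q.2.r i) s q₃ := hs.mono H hq₃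
  -- amalgamation
  have hamal : ∀ r : Cd, InR R r → r ≤ q₁ →
      ((r.1, mix R r.2 q.2) : Cd) ≤ q ∧ ((r.1, mix R r.2 q.2) : Cd) ≤ r := by
    intro r hr hrq
    refine ⟨⟨hrq.1, ?_⟩, ⟨le_rfl, ?_⟩⟩
    · change mix R r.2 q.2 ≤ q.2
      have h1 : mix R q.2 q.2 = q.2 := mix_self _ _
      rw [← h1, mix_mix_right]
      refine mix_mono ?_ le_rfl
      have h2 := mix_top_mono (R := R) hrq.2
      change mix R r.2 ⊤ ≤ mix R (mix R q.2 ⊤) ⊤ at h2
      rw [mix_mix_left] at h2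
      exact h2
    · change mix R r.2 q.2 ≤ r.2
      have h1 : mix R r.2 ⊤ = r.2 := mix_top_of_supp hr
      conv_rhs => rw [← h1]
      exact mix_mono le_rfl (mix_top_mono' le_top)
  obtain ⟨ha1, ha2⟩ := hamal q₃ hq₃R (hq₃.trans hq₂)
  rcases hdec with hCs | hCs
  · -- `β` is not yet covered
    have hsθ : ∀ α ∈ s, α < θ := fun α hα => (hε α).2 (hs.mem_c hα).1
    obtain ⟨q₄, hq₄, hex⟩ := hC s hsθ β q₃ (hq₃.trans (hq₂.trans hq₁)) hCs
    obtain ⟨q₅, hq₅, hq₅R, α, hαθ, hα1, hα2⟩ := hR.wit s β q₃ hq₃R ⟨q₄, hq₄, hex⟩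
    obtain ⟨k, hk⟩ := (hε α).1 hαθ
    obtain ⟨hb1, hb2⟩ := hamal q₅ hq₅R (hq₅.trans (hq₃.trans hq₂))
    let q₆ : Cd := (q₅.1, ap [(i, q.2.r i ++ [k])] (mix R q₅.2 q.2))
    have hmixi : (mix R q₅.2 q.2).r i = q.2.r i := mix_of_notMem hi
    have hkeys : keys [(i, q.2.r i ++ [k])] = {i} := by
      ext j
      simp [keys]
    have hri : q₆.2.r i = q.2.r i ++ [k] := by
      change (look [(i, q.2.r i ++ [k])] i).getD _ = _
      simp [look]
    have hq₆ : q₆ ≤ ((q₅.1, mix R q₅.2 q.2) : Cd) := by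
      refine ⟨le_rfl, fun j => ?_, (Set.finite_singleton i).subset ?_⟩
      · by_cases hj : j = i
        · subst hj
          rw [hri]
          change (mix R q₅.2 q.2).r j <+: _
          rw [hmixi]
          exact List.prefix_append _ _
        · have : q₆.2.r j = (mix R q₅.2 q.2).r j :=
            ap_of_notMem (by rw [hkeys]; exact hj)
          rw [this]
      · rintro j ⟨-, hj⟩
        by_contra hcon
        exact hj (ap_of_notMem (by rw [hkeys]; exact hcon))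
    refine ⟨q₆, hq₆.trans hb1, α, ⟨q.2.r i ++ [k], s ++ [α], ?_, ?_, ?_⟩, ?_⟩
    · rw [hri]
    · rw [← hk]
      refine .yes _ _ _ _ (hs₃.mono H (hq₆.trans (hb2.trans hq₅))) ?_
      rw [hk]
      exact hα1.mono H (hq₆.trans hb2)
    · simp
    · exact (H.hu α β).mono _ _ hα2 (hq₆.trans hb2)
  · -- `β` is covered already
    have h1 : ¬ Cs c u s β (q₃.1, mix R q₃.2 q.2) := hCs _ ha2
    have h2 : c β (q₃.1, mix R q₃.2 q.2) := (H.hc β).mono _ _ hβ ha1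
    have h3 : ∃ α ∈ s, ∃ q' ≤ ((q₃.1, mix R q₃.2 q.2) : Cd), u α β q' := by
      by_contra hcon
      push Not at hcon
      exact h1 ⟨h2, hcon⟩
    obtain ⟨α, hα, q', hq', hu⟩ := h3
    refine ⟨q', hq'.trans ha1, α, ⟨q.2.r i, s, ?_, hs₃.mono H (hq'.trans ha2), hα⟩, hu⟩
    exact (hq'.trans ha1).2.1 i

end Pool.Agent.H16.HD
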