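import Pool.Agent.H16.HD.KBase

/-!
# The greedy subsequence (module HD-KGR)

`ε : ℕ → Ix` is a function.  `Gr w s q`: `q` forces that `s` is the subsequence of `ε w₀, ε w₁, …` chosen greedily: an element is
chosen if it is in `C` and in no `U_α` for the previously chosen `α`.

* `Gr.mono`: induction (`Cs.mono`).
* `Gr.functional`: induction on the first derivation (`w` is snoc; `List.append_inj'`), the mixed case contradicts
  `Cs` at `q` itself.
* `Gr.pfx`: if `Gr w s q` and `w₀ <+: w` then some `s₀ <+: s` has `Gr w₀ s₀ q`: induction on the derivation; for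
  `w = w' ++ [k]` either `w₀ = w` or `w₀ <+: w'` (`List.prefix_concat_iff`).
* `Gr.mem_c`: all elements of `s` are of the form `ε k` and `c` of them is forced by `q`.
* `Gr.not_u`: if `Gr w (s ++ t) q` where `s`, `t` are lists, `α ∈ s`, `β ∈ t`, then `q' ≤ q` never has `u α β q'`.  Induction on the
  derivation generalizing `s`, `t`: in case `yes`, `s ++ t = s₁ ++ [ε k]`, so `t = []` or `t = t' ++ [ε k]` with `s ++ t' = s₁`
  (`List.eq_nil_or_concat`); for `β = ε k` use `Cs`.
-/

set_option autoImplicit false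

namespace Pool.Agent.H16.HD

open Pool.Agent.H90.Frc Cardinal Ordinal

/-- greedy choice -/
inductive Gr (c : Ix → Cd → Prop) (u : Ix → Ix → Cd → Prop) (ε : ℕ → Ix) :
    List ℕ → List Ix → Cd → Prop
  | nil (q : Cd) : Gr c u ε [] [] q
  | yes (w : List ℕ) (s : List Ix) (k : ℕ) (q : Cd) (h : Gr c u ε w s q)
      (h' : Cs c u s (ε k) q) : Gr c u ε (w ++ [k]) (s ++ [ε k]) q
  | no (w : List ℕ) (s : List Ix) (k : ℕ) (q : Cd) (h : Gr c u ε w s q)
      (h' : ∀ q' ≤ q, ¬ Cs c u s (ε k) q') : Gr c u ε (w ++ [k]) s q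

variable {c : Ix → Cd → Prop} {u : Ix → Ix → Cd → Prop} {ε : ℕ → Ix}

theorem Gr.mono (H : CU c u) {w : List ℕ} {s : List Ix} {q q' : Cd} (h : Gr c u ε w s q)
    (hq : q' ≤ q) : Gr c u ε w s q' := by
  induction h with
  | nil q => exact .nil _
  | yes w s k q h h' ih => exact .yes _ _ _ _ (ih hq) (h'.mono H hq)
  | no w s k q h h' ih => exact .no _ _ _ _ (ih hq) fun r hr => h' r (hr.trans hq)

theorem Gr.functional {w : List ℕ} {s s' : List Ix} {q : Cd} (h : Gr c u ε w s q)
    (h' : Gr c u ε w s' q) : s = s' := by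
  induction h generalizing s' with
  | nil q =>
    generalize hw : ([] : List ℕ) = w at h'
    cases h' with
    | nil => rfl
    | yes w s k _ h h1 => simp at hw
    | no w s k _ h h1 => simp at hw
  | yes w s k q h h1 ih =>
    generalize hw : w ++ [k] = w' at h'
    cases h' with
    | nil => simp at hw
    | yes w2 s2 k2 _ h2 h3 =>
      obtain ⟨rfl, e⟩ := List.append_inj' hw rfl
      obtain rfl : k = k2 := by simpa using e
      rw [ih h2]
    | no w2 s2 k2 _ h2 h3 =>
      obtain ⟨rfl, e⟩ := List.append_inj' hw rfl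
      obtain rfl : k = k2 := by simpa using e
      have := ih h2
      subst this
      exact absurd h1 (h3 q le_rfl)
  | no w s k q h h1 ih =>
    generalize hw : w ++ [k] = w' at h'
    cases h' with
    | nil => simp at hw
    | yes w2 s2 k2 _ h2 h3 =>
      obtain ⟨rfl, e⟩ := List.append_inj' hw rfl
      obtain rfl : k = k2 := by simpa using e
      have := ih h2
      subst this
      exact absurd h3 (h1 q le_rfl)
    | no w2 s2 k2 _ h2 h3 =>
      obtain ⟨rfl, e⟩ := List.append_inj' hw rfl
      exact ih h2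

theorem Gr.pfx {w w₀ : List ℕ} {s : List Ix} {q : Cd} (h : Gr c u ε w s q) (hw : w₀ <+: w) :
    ∃ s₀, s₀ <+: s ∧ Gr c u ε w₀ s₀ q := by
  induction h with
  | nil q =>
    rw [List.prefix_nil] at hw
    subst hw
    exact ⟨[], List.prefix_rfl, .nil _⟩
  | yes w s k q h h1 ih =>
    rcases List.prefix_concat_iff.1 hw with rfl | hw
    · exact ⟨_, List.prefix_rfl, .yes _ _ _ _ h h1⟩
    · obtain ⟨s₀, hs₀, hg⟩ := ih hw
      exact ⟨s₀, hs₀.trans (List.prefix_append _ _), hg⟩
  | no w s k q h h1 ih =>
    rcases List.prefix_concat_iff.1 hw with rfl | hw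
    · exact ⟨_, List.prefix_rfl, .no _ _ _ _ h h1⟩
    · exact ih hw

theorem Gr.mem_c {w : List ℕ} {s : List Ix} {q : Cd} (h : Gr c u ε w s q) {α : Ix} (hα : α ∈ s) :
    (∃ k, ε k = α) ∧ c α q := by
  induction h with
  | nil q => simp at hα
  | yes w s k q h h1 ih =>
    rcases List.mem_append.1 hα with hα | hα
    · exact ih hα
    · rw [List.mem_singleton] at hα
      subst hα
      exact ⟨⟨k, rfl⟩, h1.1⟩
  | no w s k q h h1 ih => exact ih hα

theorem Gr.not_u {w : List ℕ} {s t : List Ix} {q : Cd} (h : Gr c u ε w (s ++ t) q) {α β : Ix}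
    (hα : α ∈ s) (hβ : β ∈ t) : ∀ q' ≤ q, ¬ u α β q' := by
  generalize hst : s ++ t = st at h
  induction h generalizing t with
  | nil q =>
    simp only [List.append_eq_nil_iff] at hst
    rw [hst.1] at hα
    simp at hα
  | yes w s' k q h h1 ih =>
    rcases List.eq_nil_or_concat t with rfl | ⟨t', b, rfl⟩
    · simp at hβ
    · rw [List.concat_eq_append] at hst hβ
      rw [← List.append_assoc] at hst
      obtain ⟨e1, e2⟩ := List.append_inj' hst rfl
      rcases List.mem_append.1 hβ with hβ | hβ
      · exact ih hβ e1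
      · have e3 : b = ε k := by simpa using e2
        rw [List.mem_singleton] at hβ
        subst hβ
        rw [e3]
        refine h1.2 α ?_
        rw [← e1]
        exact List.mem_append_left _ hα
  | no w s' k q h h1 ih => exact ih hβ hst

end Pool.Agent.H16.HD
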