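import Pool.Agent.H16.HD.Cov
import Pool.Agent.H16.HD.Uni
import Pool.Agent.H16.HD.Inb
import Pool.Agent.H16.HD.HBase

/-!
# `HFC_w` for one-element sets (module HD-ONE)

(1) `¬ SizeLe A w`: otherwise `bounded_of_ctbl` gives `d ∈ o` with `ξ ∈ d` for all `ξ ∈ A`, but some `ξ ∈ A` is `d` or has `d ∈ ξ` (`g.wf_E` is well-founded).
(2) Let `AA` be the set of all `F ⊆ l` (separation from the power set) such that `F = {ξ}` for some `ξ ∈ A`.  `SizeLe A AA` (`ξ ↦ {ξ}`), so `¬ SizeLe AA w`.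
Let `n`, `z₀` be the values of `onN Cd (1 : ℕ)`, `onN Cd (0 : ℕ)` (`exists_den_nat`), `n ∈ w`.  By `hC.hX` (`isEnum_one`) there is `B ⊆ AA` with `SizeLe B w` such that the sets
`Y b = {x ∈ X | ∀ F ∈ B, ¬ InBox n F b x}`, `b ⊆ n`, are countable.  Take `b = ∅` and `b = n` (`z₀ ∈ n`): by `inBox_one`, `x ∈ X \ Y ∅` has `ξ ∉ x` for some `{ξ} ∈ B`, and
`x ∈ X \ Y n` has `ξ ∈ x` for some `{ξ} ∈ B`.  Let `Y = Y ∅ ∪ Y n` (`exists_union_ctbl`).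
(3) `A' = {ξ ∈ A | {ξ} ∈ B}` injects into `B`, so `SizeLe A' w` and `bounded_of_ctbl` gives `d`.
-/

set_option autoImplicit false

namespace Pool.Agent.H16.HD

open Pool.Agent.H90.Frc Pool.Agent.H51.Hfc Ordinal Cardinal

variable {g : Gen Cd}

theorem hfc_one {w o l X A : g.M} (hC : Cx g w l X) (ho : g.Den (onN Cd (ω_ 1)) o)
    (hol : IsSub g.E o l) (hA : IsSub g.E A o)
    (hunb : ∀ γ, g.E γ o → ∃ ξ, g.E ξ A ∧ (ξ = γ ∨ g.E γ ξ)) :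
    ∃ d, g.E d o ∧ ∃ Y, SizeLe g.E Y w ∧ ∀ x, g.E x X → ¬ g.E x Y →
      (∃ ξ, g.E ξ A ∧ g.E ξ d ∧ g.E ξ x) ∧ ∃ ξ, g.E ξ A ∧ g.E ξ d ∧ ¬ g.E ξ x := by
  have hAunc : ¬ SizeLe g.E A w := by
    intro h
    obtain ⟨d, hd, hb⟩ := bounded_of_ctbl hC.hw ho hA h
    obtain ⟨ξ, hξ, rfl | hdξ⟩ := hunb d hd
    · exact Gen.not_E_self _ (hb _ hξ)
    · have h1 := hb ξ hξ
      exact Gen.not_E_self d (((onN_isOrd ho).2 d hd ξ h1) d hdξ)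
  obtain ⟨Q, hQ⟩ := g.zfc.power l
  obtain ⟨AA, hAA⟩ := g.zfc.sep (n := 1) (R := fun _ E w => ∃ ξ, E ξ (w 0) ∧
    ∀ z, E z (w 1) ↔ z = ξ) (.ex (.and (.mem _ _) (.all (.iff (.mem _ _) (.eq _ _))))) ![A] Q
  have hAAm : ∀ F, g.E F AA ↔ ∃ ξ, g.E ξ A ∧ ∀ z, g.E z F ↔ z = ξ := by
    intro F
    rw [hAA F]
    constructor
    · rintro ⟨-, h⟩
      exact h
    · rintro ⟨ξ, h1, h2⟩
      refine ⟨(hQ F).2 fun z hz => ?_, ξ, h1, h2⟩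
      rw [(h2 z).1 hz]
      exact hol ξ (hA ξ h1)
  have hAAunc : ¬ SizeLe g.E AA w := by
    intro h
    refine hAunc (g.zfc.sizeLe_trans (b := AA) ?_ h)
    refine g.zfc.sizeLe_of_rel (n := 0) (R := fun _ E w => ∀ z, E z (w 1) ↔ z = w 0)
      (.all (.iff (.mem _ _) (.eq _ _))) ![] ?_ ?_ ?_
    · intro ξ hξ
      obtain ⟨F, hF⟩ := g.zfc.pairing ξ ξ
      have hF' : ∀ z, g.E z F ↔ z = ξ := fun z => by rw [hF z, or_self]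
      exact ⟨F, (hAAm F).2 ⟨ξ, hξ, hF'⟩, hF'⟩
    · intro ξ F F' _ _ _ h1 h2
      exact Gen.extensional fun z => (h1 z).trans (h2 z).symm
    · intro ξ ξ' F _ _ _ h1 h2
      have h3 : g.E ξ F := (h1 ξ).2 rfl
      exact (h2 ξ).1 h3
  obtain ⟨n, hn⟩ := exists_den_nat hC.hw 1
  obtain ⟨z₀, hz₀⟩ := exists_den_nat hC.hw 0
  have hnw : g.E n w := (onN_mem_iff hn hC.hw).2 (natCast_lt_omega0 1)
  obtain ⟨B, hBA, hBw, hB⟩ := hC.hX.2 n hnw AA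
    (fun F hF => by
      obtain ⟨ξ, h1, h2⟩ := (hAAm F).1 hF
      refine ⟨fun z hz => ?_, isEnum_one hn h2⟩
      rw [(h2 z).1 hz]
      exact hol ξ (hA ξ h1))
    (by
      intro F F' α hF hF' hα hα'
      obtain ⟨ξ, h1, h2⟩ := (hAAm F).1 hF
      obtain ⟨ξ', h3, h4⟩ := (hAAm F').1 hF'
      have e1 : α = ξ := (h2 α).1 hα
      have e2 : α = ξ' := (h4 α).1 hα'
      exact Gen.extensional fun z => by rw [h2, h4, ← e1, ← e2]) hAAunc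
  obtain ⟨e₀, he₀⟩ := exists_empty g
  have hYb : ∀ b, IsSub g.E b n → ∃ Y, SizeLe g.E Y w ∧ ∀ x, g.E x X → ¬ g.E x Y →
      ∃ F, g.E F B ∧ InBox g.E n F b x := by
    intro b hb
    obtain ⟨Y, hY⟩ := g.zfc.sep (n := 3) (R := fun _ E w => ∀ F, E F (w 0) →
      ¬ InBox E (w 1) F (w 2) (w 3))
      (.all (.imp (.mem _ _) (.not (dfn_inBox _ _ _ _)))) ![B, n, b] X
    have hYm : ∀ x, g.E x Y ↔ g.E x X ∧ ∀ F, g.E F B → ¬ InBox g.E n F b x := hY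
    refine ⟨Y, hB b hb Y hYm, fun x hx hxY => ?_⟩
    by_contra hcon
    push Not at hcon
    exact hxY ((hYm x).2 ⟨hx, hcon⟩)
  obtain ⟨Y₀, hY₀, hY₀'⟩ := hYb e₀ (fun z hz => absurd hz (he₀ z))
  obtain ⟨Y₁, hY₁, hY₁'⟩ := hYb n (fun z hz => hz)
  obtain ⟨Y, hY, hYw⟩ := exists_union_ctbl hC.hw hY₀ hY₁
  obtain ⟨A', hA'⟩ := g.zfc.sep (n := 1) (R := fun _ E w => ∃ F, E F (w 0) ∧
    ∀ z, E z F ↔ z = w 1) (.ex (.and (.mem _ _) (.all (.iff (.mem _ _) (.eq _ _))))) ![B] A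
  have hA'm : ∀ ξ, g.E ξ A' ↔ g.E ξ A ∧ ∃ F, g.E F B ∧ ∀ z, g.E z F ↔ z = ξ := hA'
  have hA'w : SizeLe g.E A' w := by
    refine g.zfc.sizeLe_trans (b := B) ?_ hBw
    refine g.zfc.sizeLe_of_rel (n := 0) (R := fun _ E w => ∀ z, E z (w 1) ↔ z = w 0)
      (.all (.iff (.mem _ _) (.eq _ _))) ![] ?_ ?_ ?_
    · intro ξ hξ
      obtain ⟨-, F, h1, h2⟩ := (hA'm ξ).1 hξ
      exact ⟨F, h1, h2⟩
    · intro ξ F F' _ _ _ h1 h2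
      exact Gen.extensional fun z => (h1 z).trans (h2 z).symm
    · intro ξ ξ' F _ _ _ h1 h2
      have h3 : g.E ξ F := (h1 ξ).2 rfl
      exact (h2 ξ).1 h3
  obtain ⟨d, hd, hbd⟩ := bounded_of_ctbl hC.hw ho
    (fun ξ hξ => hA ξ ((hA'm ξ).1 hξ).1) hA'w
  refine ⟨d, hd, Y, hYw, fun x hx hxY => ⟨?_, ?_⟩⟩
  · obtain ⟨F, hF, hbox⟩ := hY₁' x hx fun h => hxY ((hY x).2 (Or.inr h))
    obtain ⟨ξ, h1, h2⟩ := (hAAm F).1 (hBA F hF)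
    rw [inBox_one hn hz₀ h2] at hbox
    have hz : g.E z₀ n := (mem_one hn hz₀).2 rfl
    exact ⟨ξ, h1, hbd ξ ((hA'm ξ).2 ⟨h1, F, hF, h2⟩), hbox.2 hz⟩
  · obtain ⟨F, hF, hbox⟩ := hY₀' x hx fun h => hxY ((hY x).2 (Or.inl h))
    obtain ⟨ξ, h1, h2⟩ := (hAAm F).1 (hBA F hF)
    rw [inBox_one hn hz₀ h2] at hbox
    exact ⟨ξ, h1, hbd ξ ((hA'm ξ).2 ⟨h1, F, hF, h2⟩), fun h => he₀ _ (hbox.1 h)⟩

end Pool.Agent.H16.HD
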