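import Pool.Agent.H16.HD.Bas

/-!
# Ordinals in the generic structure (module HD-ORD)

* `ord_mem`: elements of ordinals (transitive sets of transitive sets) are ordinals.
* `ord_tri`: by double well-founded induction (`g.wf_E.induction`) on `a` and `b`: assume the statement for `(a', b)`, `a' ∈ a` and for `(a, b')`,
  `b' ∈ b`.  If some `a' ∈ a` has `b = a'` or `b ∈ a'` then `b ∈ a` (`a` is transitive).  If some `b' ∈ b` has `a = b'` or `a ∈ b'` then `a ∈ b`.
  Otherwise all `a' ∈ a` are in `b` and all `b' ∈ b` are in `a`, so `a = b` (`Gen.extensional`).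
* `omega_unique`: let `w₀` be another `ω`; if `w ∈ w₀` then `w` is empty (impossible) or a successor of some `y`; `y ∈ w`, so there is
  `z ∈ w` with `y ∈ z`; `z ∈ y` or `z = y`, which contradicts well-foundedness (`g.wf_E`).  The same for `w₀ ∈ w`.
* `omega1_sub`: `ord_tri` for `o` (`onN_isOrd`) and `l`: `l ∈ o` is impossible since the elements of `o` are countable (`den_onN`, `sizeLe_onN`,
  `β < ω₁` has `β.card ≤ ℵ₀`, see `isOmega1_onN` in `Pool/Agent/H90/Frc/Cards.lean`).
-/

set_option autoImplicit false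

namespace Pool.Agent.H16.HD

open Pool.Agent.H90.Frc Pool.Agent.H51.Hfc Ordinal

variable {P : Type} [PartialOrder P] [OrderTop P] {g : Gen P}

omit [OrderTop P] in
theorem ord_mem {a x : g.M} (ha : IsOrd g.E a) (hx : g.E x a) : IsOrd g.E x :=
  ⟨fun y hy => ha.2 x hx y hy, fun y hy => ha.2 y (ha.1 x hx y hy)⟩

omit [OrderTop P] in
theorem ord_tri {a b : g.M} (ha : IsOrd g.E a) (hb : IsOrd g.E b) :
    g.E a b ∨ a = b ∨ g.E b a := by
  induction a using g.wf_E.induction generalizing b with
  | _ a iha =>
    induction b using g.wf_E.induction with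
    | _ b ihb =>
      by_cases h1 : ∃ a', g.E a' a ∧ (b = a' ∨ g.E b a')
      · obtain ⟨a', ha', rfl | hba⟩ := h1
        · exact Or.inr (Or.inr ha')
        · exact Or.inr (Or.inr (ha.1 a' ha' b hba))
      · by_cases h2 : ∃ b', g.E b' b ∧ (a = b' ∨ g.E a b')
        · obtain ⟨b', hb', rfl | hab⟩ := h2
          · exact Or.inl hb'
          · exact Or.inl (hb.1 b' hb' a hab)
        · push Not at h1 h2
          refine Or.inr (Or.inl (Gen.extensional fun z => ⟨fun hz => ?_, fun hz => ?_⟩))
          · rcases iha z hz (ord_mem ha hz) hb with h | h | h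
            · exact h
            · exact absurd h.symm (h1 z hz).1
            · exact absurd h (h1 z hz).2
          · rcases ihb z hz (ord_mem hb hz) with h | h | h
            · exact absurd h (h2 z hz).2
            · exact absurd h (h2 z hz).1
            · exact h

theorem omega_unique {w w₀ : g.M} (hw : g.Den (onN P ω) w) (h : IsOmega g.E w₀) : w₀ = w := by
  have h' : IsOmega g.E w := onN_isOmega hw
  have key : ∀ {u v : g.M}, IsOmega g.E u → IsOmega g.E v → ¬ g.E u v := by
    intro u v hu hv huv
    rcases hv.2.2.2 u huv with h1 | ⟨y, hy⟩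
    · obtain ⟨x, hx⟩ := hu.2.1
      exact h1 x hx
    · have hyu : g.E y u := (hy y).2 (Or.inr rfl)
      obtain ⟨z, hz, hyz⟩ := hu.2.2.1 y hyu
      rcases (hy z).1 hz with h2 | h2
      · exact Gen.not_E_self y (hu.1.2 y hyu z h2 y hyz)
      · subst h2
        exact Gen.not_E_self _ hyz
  rcases ord_tri h.1 h'.1 with h1 | h1 | h1
  · exact absurd h1 (key h h')
  · exact h1
  · exact absurd h1 (key h' h)

theorem omega1_sub {w o l : g.M} (hw : g.Den (onN P ω) w) (ho : g.Den (onN P (ω_ 1)) o)
    (hl : IsOrd g.E l) (h : ¬ SizeLe g.E l w) : IsSub g.E o l := by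
  rcases ord_tri (onN_isOrd ho) hl with h1 | h1 | h1
  · exact hl.1 o h1
  · subst h1
    exact fun z hz => hz
  · exfalso
    obtain ⟨β, hβ, hbβ⟩ := (den_onN ho l).1 h1
    apply h
    refine sizeLe_onN ?_ hbβ hw
    rw [card_omega0]
    have h2 : β < (Cardinal.aleph 1 : Cardinal.{0}).ord := by
      simpa using hβ
    rw [Cardinal.lt_ord, ← Cardinal.succ_aleph0] at h2
    exact Order.lt_succ_iff.1 h2

end Pool.Agent.H16.HD
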