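import Pool.Agent.H90.Frc.Cc

/-!
# The partial order

`Cl` is the set of functions from a countable ordinal to `Mu = 2^ω`, ordered by end extension.  `Pk` is the
pseudo-product of `κ = 𝔠⁺` Cohen forcings: functions with countable support `κ → List ℕ`, where `q ≤ p` if
`q` extends `p` pointwise and differs from `p` on only finitely many points of the support of `p`.
-/

set_option autoImplicit false

namespace Pool.Agent.H16.HD

open Pool.Agent.H90.Frc Cardinal Ordinal

/-- the values of the collapsing part -/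
abbrev Mu : Type := ℕ → Bool

/-- the cardinal `κ = 𝔠⁺` as a type -/
abbrev Kp : Type := (Order.succ (𝔠 : Cardinal.{0})).ord.ToType

/-! ### Facts on `ω₁` -/

theorem exists_least {s : Set Ix} (hs : s.Nonempty) : ∃ a ∈ s, ∀ b ∈ s, a ≤ b := by
  obtain ⟨a, ha, h⟩ := WellFounded.has_min (wellFounded_lt (α := Ix)) s hs
  exact ⟨a, ha, fun b hb => not_lt.1 (h b hb)⟩

/-- the least upper bound of a sequence in `ω₁` -/
theorem exists_lub (f : ℕ → Ix) : ∃ a : Ix, ∀ ξ, ξ < a ↔ ∃ n, ξ < f n := by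
  obtain ⟨b, hb⟩ := exists_gt_all f
  obtain ⟨a, ha, hmin⟩ := exists_least (s := {a | ∀ n, f n ≤ a}) ⟨b, fun n => (hb n).le⟩
  refine ⟨a, fun ξ => ⟨fun h => ?_, ?_⟩⟩
  · by_contra hcon
    push Not at hcon
    exact absurd (hmin ξ hcon) (not_le.2 h)
  · rintro ⟨n, hn⟩
    exact hn.trans_le (ha n)

/-- the least upper bound of a sequence in `ω₁` -/
noncomputable def lub (f : ℕ → Ix) : Ix := (exists_lub f).choose

theorem lt_lub {f : ℕ → Ix} {ξ : Ix} : ξ < lub f ↔ ∃ n, ξ < f n := (exists_lub f).choose_spec ξ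

theorem le_lub (f : ℕ → Ix) (n : ℕ) : f n ≤ lub f := by
  by_contra hcon
  exact absurd (lt_lub.2 ⟨n, not_le.1 hcon⟩) (lt_irrefl _)

theorem exists_sc (ξ : Ix) : ∃ a : Ix, ∀ η, η < a ↔ η ≤ ξ := by
  obtain ⟨b, hb, -⟩ := exists_gt_two ξ ξ
  obtain ⟨a, ha, hmin⟩ := exists_least (s := {a | ξ < a}) ⟨b, hb⟩
  refine ⟨a, fun η => ⟨fun h => ?_, fun h => h.trans_lt ha⟩⟩
  by_contra hcon
  exact absurd (hmin η (not_le.1 hcon)) (not_le.2 h)

/-- the successor -/
noncomputable def sc (ξ : Ix) : Ix := (exists_sc ξ).choose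

theorem lt_sc {ξ η : Ix} : η < sc ξ ↔ η ≤ ξ := (exists_sc ξ).choose_spec η

theorem lt_sc_self (ξ : Ix) : ξ < sc ξ := lt_sc.2 le_rfl

theorem sc_le {ξ η : Ix} : sc ξ ≤ η ↔ ξ < η := by
  rw [← not_lt, lt_sc, not_le]

/-- the least element -/
noncomputable def zr : Ix := (exists_least (s := Set.univ)
  ⟨(exists_gt_all (fun _ => ToType.mk ⟨0, omega_pos 1⟩)).choose, trivial⟩).choose

theorem zr_le (ξ : Ix) : zr ≤ ξ := (exists_least (s := Set.univ)
  ⟨(exists_gt_all (fun _ => ToType.mk ⟨0, omega_pos 1⟩)).choose, trivial⟩).choose_spec.2 ξ trivial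

theorem not_lt_zr (ξ : Ix) : ¬ ξ < zr := not_lt.2 (zr_le ξ)

/-! ### The collapse -/

/-- functions from a countable ordinal to `Mu` -/
structure Cl : Type where
  /-- the function -/
  c : Ix → Option Mu
  /-- the domain -/
  len : Ix
  h : ∀ ξ, c ξ ≠ none ↔ ξ < len

theorem Cl.ext_c {a b : Cl} (h : a.c = b.c) : a = b := by
  have hl : a.len = b.len := by
    apply le_antisymm
    · by_contra hcon
      have h1 := (a.h b.len).2 (not_le.1 hcon)
      rw [h, b.h] at h1
      exact lt_irrefl _ h1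
    · by_contra hcon
      have h1 := (b.h a.len).2 (not_le.1 hcon)
      rw [← h, a.h] at h1
      exact lt_irrefl _ h1
  cases a; cases b
  simp only at h hl
  subst h; subst hl
  rfl

instance : PartialOrder Cl where
  le q p := Ext p.c q.c
  le_refl _ := Ext.refl _
  le_trans _ _ _ h h' := h'.trans h
  le_antisymm _ _ h h' := Cl.ext_c (h'.antisymm h)

theorem Cl.le_def {q p : Cl} : q ≤ p ↔ Ext p.c q.c := Iff.rfl

noncomputable instance : OrderTop Cl where
  top := ⟨fun _ => none, zr, fun ξ => by simp [zr_le]⟩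
  le_top _ := fun _ _ h => by cases h

theorem Cl.len_mono {q p : Cl} (h : q ≤ p) : p.len ≤ q.len := by
  by_contra hcon
  have h1 := (p.h q.len).2 (not_le.1 hcon)
  exact absurd ((q.h q.len).1 (Ext.ne_none h h1)) (lt_irrefl _)

/-- the values of the condition, with a default value outside of its domain -/
def Cl.br (q : Cl) (ξ : Ix) : Mu := (q.c ξ).getD default

theorem Cl.c_of_lt (q : Cl) {ξ : Ix} (h : ξ < q.len) : q.c ξ = some (q.br ξ) := by
  obtain ⟨m, hm⟩ := Option.ne_none_iff_exists'.1 ((q.h ξ).2 h)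
  simp [Cl.br, hm]

theorem Cl.c_of_le (q : Cl) {ξ : Ix} (h : q.len ≤ ξ) : q.c ξ = none := by
  by_contra hcon
  exact absurd ((q.h ξ).1 hcon) (not_lt.2 h)

/-- the restriction of `φ` to `δ` -/
noncomputable def ofBr (φ : Ix → Mu) (δ : Ix) : Cl :=
  ⟨fun ξ => if ξ < δ then some (φ ξ) else none, δ, fun ξ => by simp⟩

@[simp] theorem ofBr_len (φ : Ix → Mu) (δ : Ix) : (ofBr φ δ).len = δ := rfl

theorem ofBr_c (φ : Ix → Mu) {δ ξ : Ix} (h : ξ < δ) : (ofBr φ δ).c ξ = some (φ ξ) := if_pos h

theorem ofBr_c' (φ : Ix → Mu) {δ ξ : Ix} (h : δ ≤ ξ) : (ofBr φ δ).c ξ = none := if_neg (not_lt.2 h)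

theorem ofBr_br (φ : Ix → Mu) {δ ξ : Ix} (h : ξ < δ) : (ofBr φ δ).br ξ = φ ξ := by
  simp [Cl.br, ofBr_c φ h]

theorem Cl.ofBr_self (q : Cl) : ofBr q.br q.len = q := by
  apply Cl.ext_c
  funext ξ
  rcases lt_or_ge ξ q.len with h | h
  · rw [ofBr_c _ h, q.c_of_lt h]
  · rw [ofBr_c' _ h, q.c_of_le h]

theorem ofBr_congr {φ ψ : Ix → Mu} {δ : Ix} (h : ∀ ξ < δ, φ ξ = ψ ξ) : ofBr φ δ = ofBr ψ δ := by
  apply Cl.ext_c
  funext ξ
  rcases lt_or_ge ξ δ with h' | h'
  · rw [ofBr_c _ h', ofBr_c _ h', h ξ h']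
  · rw [ofBr_c' _ h', ofBr_c' _ h']

theorem Cl.le_iff {q p : Cl} : q ≤ p ↔ p.len ≤ q.len ∧ ∀ ξ < p.len, q.br ξ = p.br ξ := by
  constructor
  · intro h
    refine ⟨Cl.len_mono h, fun ξ hξ => ?_⟩
    have h1 := h ξ _ (p.c_of_lt hξ)
    simp [Cl.br, h1]
  · rintro ⟨h1, h2⟩ ξ m hm
    have hξ : ξ < p.len := (p.h ξ).1 (by rw [hm]; simp)
    rw [q.c_of_lt (hξ.trans_le h1), h2 ξ hξ, ← p.c_of_lt hξ, hm]

theorem ofBr_le {φ : Ix → Mu} {δ δ' : Ix} (h : δ ≤ δ') : ofBr φ δ' ≤ ofBr φ δ := by
  rw [Cl.le_iff]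
  refine ⟨h, fun ξ hξ => ?_⟩
  rw [ofBr_len] at hξ
  rw [ofBr_br φ hξ, ofBr_br φ (hξ.trans_le h)]

/-- every condition can be prolonged -/
theorem Cl.exists_longer (q : Cl) (δ : Ix) : ∃ q' ≤ q, δ ≤ q'.len := by
  refine ⟨ofBr q.br (max q.len δ), ?_, le_max_right _ _⟩
  conv_rhs => rw [← q.ofBr_self]
  exact ofBr_le (le_max_left _ _)

/-- The limit of a descending sequence. -/
theorem Cl.exists_lim {f : ℕ → Cl} (hf : Antitone f) :
    ∃ q : Cl, (∀ n, q ≤ f n) ∧ q.len = lub (fun n => (f n).len) := by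
  have hch : ∀ i j, Ext (f i).c (f j).c ∨ Ext (f j).c (f i).c := by
    intro i j
    rcases le_total i j with h | h
    · exact Or.inl (hf h)
    · exact Or.inr (hf h)
  refine ⟨⟨unionFun (fun n => (f n).c), lub (fun n => (f n).len), fun ξ => ?_⟩, fun n => ?_, rfl⟩
  · rw [lt_lub]
    constructor
    · intro h
      obtain ⟨n, hn⟩ := unionFun_ne_none h
      exact ⟨n, ((f n).h ξ).1 hn⟩
    · rintro ⟨n, hn⟩
      rw [unionFun_eq (f := fun n => (f n).c) hch ((f n).c_of_lt hn)]
      simp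
  · intro ξ m hm
    exact unionFun_eq (f := fun n => (f n).c) hch hm

/-! ### The pseudo-product -/

/-- functions with countable support from `κ` to finite sequences -/
structure Pk : Type where
  /-- the function -/
  r : Kp → List ℕ
  hr : {i | r i ≠ []}.Countable

theorem Pk.ext_r {a b : Pk} (h : ∀ i, a.r i = b.r i) : a = b := by
  cases a; cases b
  have : ∀ i, _ = _ := h
  simp only at this
  congr
  funext i
  exact this i

/-- the support -/
def Pk.supp (p : Pk) : Set Kp := {i | p.r i ≠ []}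

theorem Pk.mem_supp {p : Pk} {i : Kp} : i ∈ p.supp ↔ p.r i ≠ [] := Iff.rfl

theorem Pk.eq_nil {p : Pk} {i : Kp} (h : i ∉ p.supp) : p.r i = [] := by
  by_contra hcon
  exact h hcon

instance : PartialOrder Pk where
  le q p := (∀ i, p.r i <+: q.r i) ∧ {i | p.r i ≠ [] ∧ q.r i ≠ p.r i}.Finite
  le_refl p := ⟨fun _ => List.prefix_rfl, by simp⟩
  le_trans a b c h h' := by
    refine ⟨fun i => (h'.1 i).trans (h.1 i), (h.2.union h'.2).subset ?_⟩
    rintro i ⟨h1, h2⟩
    by_cases h3 : b.r i = c.r i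
    · left
      refine ⟨by rw [h3]; exact h1, by rw [h3]; exact h2⟩
    · right
      exact ⟨h1, h3⟩
  le_antisymm a b h h' := Pk.ext_r fun i => (h'.1 i).eq_of_length_le ((h.1 i).length_le)

theorem Pk.le_def {q p : Pk} :
    q ≤ p ↔ (∀ i, p.r i <+: q.r i) ∧ {i | p.r i ≠ [] ∧ q.r i ≠ p.r i}.Finite := Iff.rfl

instance : OrderTop Pk where
  top := ⟨fun _ => [], by simp⟩
  le_top _ := ⟨fun _ => List.nil_prefix, by simp⟩

@[simp] theorem Pk.top_r (i : Kp) : (⊤ : Pk).r i = [] := rfl

/-- the horizontal order -/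
def Hle (q p : Pk) : Prop := ∀ i, p.r i ≠ [] → q.r i = p.r i

theorem Hle.refl (p : Pk) : Hle p p := fun _ _ => rfl

theorem Hle.trans {a b c : Pk} (h : Hle a b) (h' : Hle b c) : Hle a c := by
  intro i hi
  have h1 := h' i hi
  rw [h i (by rw [h1]; exact hi), h1]

theorem Hle.le {q p : Pk} (h : Hle q p) : q ≤ p := by
  refine ⟨fun i => ?_, ?_⟩
  · by_cases hi : p.r i = []
    · rw [hi]; exact List.nil_prefix
    · rw [h i hi]
  · have : {i | p.r i ≠ [] ∧ q.r i ≠ p.r i} = ∅ := by
      ext i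
      simp only [Set.mem_ofPred_eq, Set.mem_empty_iff_false, iff_false, not_and, not_not]
      exact h i
    rw [this]
    exact Set.finite_empty

theorem Hle.supp {q p : Pk} (h : Hle q p) : p.supp ⊆ q.supp := by
  intro i hi
  rw [Pk.mem_supp] at hi ⊢
  rw [h i hi]
  exact hi

theorem Pk.supp_mono {q p : Pk} (h : q ≤ p) : p.supp ⊆ q.supp := by
  intro i hi h0
  have h1 := h.1 i
  rw [h0] at h1
  exact hi (List.prefix_nil.1 h1)

open Classical in
/-- the values of `r` on `R` and the values of `s` off `R` -/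
noncomputable def mix (R : Set Kp) (r s : Pk) : Pk where
  r i := if i ∈ R then r.r i else s.r i
  hr := by
    refine (r.hr.union s.hr).mono ?_
    intro i hi
    simp only [Set.mem_ofPred_eq] at hi
    by_cases h : i ∈ R
    · rw [if_pos h] at hi
      exact Or.inl hi
    · rw [if_neg h] at hi
      exact Or.inr hi

theorem mix_of_mem {R : Set Kp} {r s : Pk} {i : Kp} (h : i ∈ R) : (mix R r s).r i = r.r i :=
  if_pos h

theorem mix_of_notMem {R : Set Kp} {r s : Pk} {i : Kp} (h : i ∉ R) : (mix R r s).r i = s.r i :=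
  if_neg h

/-- the order separates into the parts on `R` and off `R` -/
theorem le_mix_iff {R : Set Kp} {q r s : Pk} :
    q ≤ mix R r s ↔ mix R q ⊤ ≤ mix R r ⊤ ∧ mix R ⊤ q ≤ mix R ⊤ s := by
  constructor
  · intro h
    refine ⟨⟨fun i => ?_, h.2.subset ?_⟩, ⟨fun i => ?_, h.2.subset ?_⟩⟩
    · by_cases hi : i ∈ R
      · have := h.1 i
        rw [mix_of_mem hi] at this
        rw [mix_of_mem hi, mix_of_mem hi]
        exact this
      · rw [mix_of_notMem hi]
        exact List.nil_prefix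
    · rintro i ⟨h1, h2⟩
      by_cases hi : i ∈ R
      · rw [mix_of_mem hi] at h1 h2
        rw [mix_of_mem hi] at h2
        refine ⟨?_, ?_⟩
        · rw [mix_of_mem hi]; exact h1
        · rw [mix_of_mem hi]; exact h2
      · rw [mix_of_notMem hi] at h1
        exact absurd rfl h1
    · by_cases hi : i ∈ R
      · rw [mix_of_mem hi]
        exact List.nil_prefix
      · have := h.1 i
        rw [mix_of_notMem hi] at this
        rw [mix_of_notMem hi, mix_of_notMem hi]
        exact this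
    · rintro i ⟨h1, h2⟩
      by_cases hi : i ∈ R
      · rw [mix_of_mem hi] at h1
        exact absurd rfl h1
      · rw [mix_of_notMem hi] at h1 h2
        rw [mix_of_notMem hi] at h2
        refine ⟨?_, ?_⟩
        · rw [mix_of_notMem hi]; exact h1
        · rw [mix_of_notMem hi]; exact h2
  · rintro ⟨h, h'⟩
    refine ⟨fun i => ?_, (h.2.union h'.2).subset ?_⟩
    · by_cases hi : i ∈ R
      · have := h.1 i
        rw [mix_of_mem hi, mix_of_mem hi] at this
        rw [mix_of_mem hi]
        exact this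
      · have := h'.1 i
        rw [mix_of_notMem hi, mix_of_notMem hi] at this
        rw [mix_of_notMem hi]
        exact this
    · rintro i ⟨h1, h2⟩
      by_cases hi : i ∈ R
      · left
        rw [mix_of_mem hi] at h1 h2
        refine ⟨?_, ?_⟩
        · rw [mix_of_mem hi]; exact h1
        · rw [mix_of_mem hi, mix_of_mem hi]; exact h2
      · right
        rw [mix_of_notMem hi] at h1 h2
        refine ⟨?_, ?_⟩
        · rw [mix_of_notMem hi]; exact h1
        · rw [mix_of_notMem hi, mix_of_notMem hi]; exact h2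

theorem mix_mix_left {R : Set Kp} {r s t : Pk} : mix R (mix R r s) t = mix R r t := by
  apply Pk.ext_r
  intro i
  by_cases hi : i ∈ R
  · rw [mix_of_mem hi, mix_of_mem hi, mix_of_mem hi]
  · rw [mix_of_notMem hi, mix_of_notMem hi]

theorem mix_mix_right {R : Set Kp} {r s t : Pk} : mix R r (mix R s t) = mix R r t := by
  apply Pk.ext_r
  intro i
  by_cases hi : i ∈ R
  · rw [mix_of_mem hi, mix_of_mem hi]
  · rw [mix_of_notMem hi, mix_of_notMem hi, mix_of_notMem hi]

theorem mix_self (R : Set Kp) (r : Pk) : mix R r r = r := by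
  apply Pk.ext_r
  intro i
  by_cases hi : i ∈ R
  · rw [mix_of_mem hi]
  · rw [mix_of_notMem hi]

theorem mix_mono {R : Set Kp} {r r' s s' : Pk} (h : mix R r' ⊤ ≤ mix R r ⊤)
    (h' : mix R ⊤ s' ≤ mix R ⊤ s) : mix R r' s' ≤ mix R r s := by
  rw [le_mix_iff, mix_mix_left, mix_mix_right]
  exact ⟨h, h'⟩

theorem mix_top_mono {R : Set Kp} {r r' : Pk} (h : r' ≤ r) : mix R r' ⊤ ≤ mix R r ⊤ := by
  have h1 : r' ≤ mix R r r := by rw [mix_self]; exact h
  exact (le_mix_iff.1 h1).1

theorem mix_top_mono' {R : Set Kp} {r r' : Pk} (h : r' ≤ r) : mix R ⊤ r' ≤ mix R ⊤ r := by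
  have h1 : r' ≤ mix R r r := by rw [mix_self]; exact h
  exact (le_mix_iff.1 h1).2

theorem supp_mix_top (R : Set Kp) (r : Pk) : (mix R r ⊤).supp = r.supp ∩ R := by
  ext i
  rw [Pk.mem_supp]
  by_cases hi : i ∈ R
  · rw [mix_of_mem hi]
    simp [Pk.mem_supp, hi]
  · rw [mix_of_notMem hi]
    simp [hi]

theorem mix_top_of_supp {R : Set Kp} {r : Pk} (h : r.supp ⊆ R) : mix R r ⊤ = r := by
  apply Pk.ext_r
  intro i
  by_cases hi : i ∈ R
  · rw [mix_of_mem hi]
  · rw [mix_of_notMem hi, Pk.eq_nil fun h' => hi (h h')]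
    rfl

theorem mix_top_of_supp' {R : Set Kp} {r : Pk} (h : Disjoint r.supp R) : mix R ⊤ r = r := by
  apply Pk.ext_r
  intro i
  by_cases hi : i ∈ R
  · rw [mix_of_mem hi, Pk.eq_nil fun h' => Set.disjoint_left.1 h h' hi]
    rfl
  · rw [mix_of_notMem hi]

/-! ### Vertical changes -/

open Classical in
/-- the value at `i` of a finite change -/
noncomputable def look : List (Kp × List ℕ) → Kp → Option (List ℕ)
  | [], _ => none
  | x :: a, i => if x.1 = i then some x.2 else look a i

/-- the positions of the change -/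
def keys (a : List (Kp × List ℕ)) : Set Kp := {i | i ∈ a.map Prod.fst}

theorem keys_finite (a : List (Kp × List ℕ)) : (keys a).Finite := List.finite_toSet _

theorem look_eq_none {a : List (Kp × List ℕ)} {i : Kp} : look a i = none ↔ i ∉ keys a := by
  induction a with
  | nil => simp [look, keys]
  | cons x a ih =>
    by_cases h : x.1 = i
    · simp [look, h, keys]
    · have h' : i ≠ x.1 := fun e => h e.symm
      simp only [look, if_neg h, ih, keys, Set.mem_ofPred_eq, List.map_cons, List.mem_cons,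
        h', false_or]

/-- change finitely many values -/
noncomputable def ap (a : List (Kp × List ℕ)) (p : Pk) : Pk where
  r i := (look a i).getD (p.r i)
  hr := by
    refine (p.hr.union (keys_finite a).countable).mono ?_
    intro i hi
    by_cases h : i ∈ keys a
    · exact Or.inr h
    · left
      simp only [Set.mem_ofPred_eq, look_eq_none.2 h, Option.getD_none] at hi
      exact hi

theorem ap_of_notMem {a : List (Kp × List ℕ)} {p : Pk} {i : Kp} (h : i ∉ keys a) :
    (ap a p).r i = p.r i := by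
  change (look a i).getD (p.r i) = _
  rw [look_eq_none.2 h]
  rfl

theorem ap_of_mem {a : List (Kp × List ℕ)} {p q : Pk} {i : Kp} (h : i ∈ keys a) :
    (ap a p).r i = (ap a q).r i := by
  have h1 : look a i ≠ none := fun h0 => look_eq_none.1 h0 h
  obtain ⟨w, hw⟩ := Option.ne_none_iff_exists'.1 h1
  change (look a i).getD (p.r i) = (look a i).getD (q.r i)
  rw [hw]
  rfl

/-- the change with given values on a finite set -/
noncomputable def mkCh {s : Set Kp} (hs : s.Finite) (f : Kp → List ℕ) : List (Kp × List ℕ) :=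
  hs.toFinset.toList.map (fun i => (i, f i))

theorem keys_mkCh {s : Set Kp} (hs : s.Finite) (f : Kp → List ℕ) : keys (mkCh hs f) = s := by
  ext i
  simp [keys, mkCh]

theorem ap_mkCh_of_mem {s : Set Kp} {hs : s.Finite} {f : Kp → List ℕ} {p : Pk} {i : Kp}
    (h : i ∈ s) : (ap (mkCh hs f) p).r i = f i := by
  have key : ∀ l : List Kp, i ∈ l → look (l.map (fun i => (i, f i))) i = some (f i) := by
    intro l
    induction l with
    | nil => simp
    | cons a l ih =>
      intro hl
      by_cases ha : a = i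
      · subst ha
        simp [look]
      · have ha' : i ≠ a := fun e => ha e.symm
        have h2 : i ∈ l := by simpa [ha'] using hl
        simp only [List.map_cons, look, if_neg ha]
        exact ih h2
  change (look (mkCh hs f) i).getD (p.r i) = _
  rw [mkCh, key _ (by simpa using h)]
  rfl

theorem countable_changes {S : Set Kp} (hS : S.Countable) :
    {a : List (Kp × List ℕ) | keys a ⊆ S}.Countable := by
  have := hS.to_subtype
  have h1 : (Set.range (fun l : List (S × List ℕ) => l.map (fun x => ((x.1 : Kp), x.2)))).Countable :=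
    Set.countable_range _
  refine h1.mono ?_
  intro a ha
  induction a with
  | nil => exact ⟨[], rfl⟩
  | cons x a ih =>
    obtain ⟨l, hl⟩ := ih (fun i hi => ha (by
      change i ∈ (x :: a).map Prod.fst
      simp only [List.map_cons, List.mem_cons]
      exact Or.inr hi))
    have hx : x.1 ∈ S := ha (by
      change x.1 ∈ (x :: a).map Prod.fst
      simp)
    refine ⟨(⟨x.1, hx⟩, x.2) :: l, ?_⟩
    simp only [List.map_cons]
    simp only at hl
    rw [hl]

/-! ### Limits in the pseudo-product -/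

open Classical in
/-- the union of a chain of conditions -/
noncomputable def supP {ι : Type} [Countable ι] (f : ι → Pk) : Pk where
  r j := if h : ∃ i, (f i).r j ≠ [] then (f h.choose).r j else []
  hr := by
    refine (Set.countable_iUnion fun i => (f i).hr).mono ?_
    intro j hj
    simp only [Set.mem_ofPred_eq] at hj
    by_cases h : ∃ i, (f i).r j ≠ []
    · exact Set.mem_iUnion.2 h
    · rw [dif_neg h] at hj
      exact absurd rfl hj

theorem supP_supp {ι : Type} [Countable ι] (f : ι → Pk) : (supP f).supp = ⋃ i, (f i).supp := by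
  classical
  ext j
  rw [Pk.mem_supp, Set.mem_iUnion]
  by_cases h : ∃ i, (f i).r j ≠ []
  · have h1 : (supP f).r j = (f h.choose).r j := dif_pos h
    rw [h1]
    exact ⟨fun _ => h, fun _ => h.choose_spec⟩
  · have h1 : (supP f).r j = [] := dif_neg h
    rw [h1]
    exact ⟨fun h2 => absurd rfl h2, fun h2 => absurd h2 h⟩

theorem supP_hle {ι : Type} [Countable ι] {f : ι → Pk}
    (hf : ∀ i j, Hle (f i) (f j) ∨ Hle (f j) (f i)) (i : ι) : Hle (supP f) (f i) := by
  classical
  intro j hj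
  have h : ∃ i, (f i).r j ≠ [] := ⟨i, hj⟩
  have h1 : (supP f).r j = (f h.choose).r j := dif_pos h
  rw [h1]
  rcases hf h.choose i with h2 | h2
  · exact h2 j hj
  · exact (h2 j h.choose_spec).symm

/-- Conditions. -/
abbrev Cd : Type := Cl × Pk

/-- the conditions with support in `R` -/
def InR (R : Set Kp) (q : Cd) : Prop := q.2.supp ⊆ R

/-- the horizontal order -/
def Hl (q p : Cd) : Prop := q.1 ≤ p.1 ∧ Hle q.2 p.2

theorem Hl.le {q p : Cd} (h : Hl q p) : q ≤ p := ⟨h.1, h.2.le⟩

theorem Hl.refl (p : Cd) : Hl p p := ⟨le_rfl, Hle.refl _⟩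

theorem Hl.trans {a b c : Cd} (h : Hl a b) (h' : Hl b c) : Hl a c :=
  ⟨h.1.trans h'.1, h.2.trans h'.2⟩

/-- The limit of a horizontally descending sequence. -/
theorem exists_lim {f : ℕ → Cd} (hf : ∀ n, Hl (f (n + 1)) (f n)) :
    ∃ q : Cd, (∀ n, Hl q (f n)) ∧ q.1.len = lub (fun n => (f n).1.len) ∧
      q.2.supp = ⋃ n, (f n).2.supp := by
  have hmono : ∀ n m, n ≤ m → Hl (f m) (f n) := by
    intro n m hnm
    induction m, hnm using Nat.le_induction with
    | base => exact Hl.refl _
    | succ m _ ih => exact (hf m).trans ih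
  obtain ⟨c, hc, hlen⟩ := Cl.exists_lim (f := fun n => (f n).1) (fun n m h => (hmono n m h).1)
  refine ⟨(c, supP (fun n => (f n).2)), fun n => ⟨hc n, supP_hle (f := fun n => (f n).2) ?_ n⟩,
    hlen, supP_supp _⟩
  intro i j
  rcases le_total i j with h | h
  · exact Or.inr (hmono i j h).2
  · exact Or.inl (hmono j i h).2

end Pool.Agent.H16.HD
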