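import Pool.Agent.H16.HD.CdB
import Pool.Agent.H16.HD.KBase

/-!
# The names attached to an `HFC_w` space of size at most `ω₁` with a neighbourhood assignment (module HD-PSB)

`cU`: monotonicity is `Fc.mono`, stability is `Fc.stable` (definability: `.ex (.and (.mem _ _) (dfn_rel _ _ _))` etc.).
-/

set_option autoImplicit false

namespace Pool.Agent.H16.HD

open Pool.Agent.H90.Frc Pool.Agent.H51.Hfc Ordinal Cardinal

/-- `a 0 = ω`, `a 1 = l`, `a 2 = X`, `a 3 = U`, `a 4` an injection from `X` to `a 5 = ω₁` -/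
def Psi : Pred 6 := fun _ E a => IsHFCw E (a 0) (a 1) (a 2) ∧ IsOrd E (a 1) ∧
  IsNbhd E (a 0) (a 1) (a 2) (a 3) ∧ IsInj E (a 4) (a 2) (a 5)

theorem dfn_Psi : Dfn Psi :=
  .and (dfn_isHFCw _ _ _) (.and (dfn_isOrd _) (.and (dfn_isNbhd _ _ _ _) (dfn_isInj _ _ _)))

/-- the names of `ω, l, X, U, j, ω₁` -/
noncomputable abbrev v6 (lm χ υ ι : Name Cd) : Fin 6 → Name Cd :=
  ![onN Cd ω, lm, χ, υ, ι, onN Cd (ω_ 1)]

/-- `q` forces that `α` is the index of a point of `X` -/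
def cN (χ ι : Name Cd) (α : Ix) (q : Cd) : Prop :=
  Fc q ![iN α, χ, ι] (fun _ E a => ∃ x, E x (a 1) ∧ Rel E (a 2) x (a 0))

/-- `q` forces that `α`, `β` are the indices of points `x`, `y` of `X` with `y ∈ U_x` -/
def uN (χ υ ι : Name Cd) (α β : Ix) (q : Cd) : Prop :=
  Fc q ![iN α, iN β, χ, υ, ι] (fun _ E a => ∃ x, E x (a 2) ∧ ∃ y, E y (a 2) ∧
    Rel E (a 4) x (a 0) ∧ Rel E (a 4) y (a 1) ∧ Rel E (a 3) x y)

theorem dfn_cN : Dfn (n := 3) (fun _ E a => ∃ x, E x (a 1) ∧ Rel E (a 2) x (a 0)) :=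
  .ex (.and (.mem _ _) (dfn_rel _ _ _))

theorem dfn_uN : Dfn (n := 5) (fun _ E a => ∃ x, E x (a 2) ∧ ∃ y, E y (a 2) ∧
    Rel E (a 4) x (a 0) ∧ Rel E (a 4) y (a 1) ∧ Rel E (a 3) x y) :=
  .ex (.and (.mem _ _) (.ex (.and (.mem _ _) (.and (dfn_rel _ _ _) (.and (dfn_rel _ _ _)
    (dfn_rel _ _ _))))))

theorem cU (χ υ ι : Name Cd) : CU (cN χ ι) (uN χ υ ι) where
  hc _ := ⟨fun _ _ h hq => Fc.mono h hq, fun _ h => Fc.stable dfn_cN h⟩
  hu _ _ := ⟨fun _ _ h hq => Fc.mono h hq, fun _ h => Fc.stable dfn_uN h⟩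

end Pool.Agent.H16.HD
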