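import Pool.Agent.H16.HD.Full
import Pool.Agent.H16.HD.Col

/-!
# Names for `κ` many points (module HD-PTS)

Let `b : Kp` and let `y : Set.Iio b → Name Cd` be arbitrary; put `s = Name.mk (Set.Iio b) y (fun _ => ⊤)`.
(1) `Fc p ![χ, s] (fun _ E a => ∃ z, E z (a 0) ∧ ¬ E z (a 1))`: by `Fc.with_names` we may assume that `onN Cd b.toOrd.1`, `onN Cd (ω_ 1)` and
`F = relN (fun c : Set.Iio b => kN c) y (fun _ => ⊤)` are denoted.  `SizeLe s (onN b)` by `ZFC.sizeLe_of_surj` (`F` is functional by `kN_inj`; every element of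
`s` is a value by `Gen.mem_iff` and `relN_exists'`), `SizeLe (onN b) (onN (ω_ 1))` by `sizeLe_col`, so `SizeLe s (onN (ω_ 1))`.  If all elements of `χ` were in
`s` then `SizeLe χ (onN (ω_ 1))` (`ZFC.sizeLe_of_sub`, `ZFC.sizeLe_trans`), a contradiction to `h`.
(2) By `full` there is a name `σ` with `Fc p ![χ, s, σ] (fun _ E a => E (a 2) (a 0) ∧ ¬ E (a 2) (a 1))`; choose `st b y = σ`.
(3) Let `x : Kp → Name Cd` be defined by well-founded recursion, `x b = st b (fun c => x c)`.  Then `Fc p ![x b, χ] (E (a 0) (a 1))` (again `Fc.with_names` to have the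
name `s` denoted).  If `c < b` then `p` forces `x c ∈ s` (`Gen.mem_iff`) and `x b ∉ s`, so `x b ≠ x c`.
-/

set_option autoImplicit false

namespace Pool.Agent.H16.HD

open Pool.Agent.H90.Frc Pool.Agent.H51.Hfc Ordinal Cardinal

theorem step_pts {p : Cd} {χ : Name Cd}
    (h : Fc p ![χ, onN Cd (ω_ 1)] (fun _ E a => ¬ SizeLe E (a 0) (a 1))) (b : Kp)
    (y : Set.Iio b → Name Cd) : ∃ σ, Fc p ![χ, Name.mk (Set.Iio b) y (fun _ => ⊤), σ]
      (fun _ E a => E (a 2) (a 0) ∧ ¬ E (a 2) (a 1)) := by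
  obtain ⟨s, hs⟩ : ∃ s, s = Name.mk (Set.Iio b) y (fun _ => (⊤ : Cd)) := ⟨_, rfl⟩
  obtain ⟨F, hF⟩ : ∃ F, F = relN (fun c : Set.Iio b => kN c) y (fun _ => (⊤ : Cd)) := ⟨_, rfl⟩
  have h1 : Fc p ![χ, s] (fun _ E a => ∃ z, E z (a 0) ∧ ¬ E z (a 1)) := by
    refine Fc.with_names (.ex (.and (.mem _ _) (.not (.mem _ _))))
      (L := {onN Cd b.toOrd.1, onN Cd (ω_ 1), F}) (by simp) ?_
    intro g hg hL u hu
    obtain ⟨bv, hbv⟩ := hL (onN Cd b.toOrd.1) (by simp)
    obtain ⟨o, ho⟩ := hL (onN Cd (ω_ 1)) (by simp)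
    obtain ⟨Fv, hFv⟩ := hL F (by simp)
    have h0 : g.Den χ (u 0) := hu 0
    have h1 : g.Den s (u 1) := hu 1
    subst hs
    subst hF
    have hRel := fun x y => den_relN hFv x y
    have hs1 : SizeLe g.E (u 1) bv := by
      refine g.zfc.sizeLe_of_surj g.wf_E (F := Fv) (onN_total hbv) (onN_trans hbv) ?_ ?_
      · intro x z z' _ _ _ hz hz'
        obtain ⟨i, -, h2, h3⟩ := (hRel x z).1 hz
        obtain ⟨j, -, h4, h5⟩ := (hRel x z').1 hz'
        have : i = j := Subtype.ext (kN_inj h2 h4)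
        subst this
        exact h3.unique h5
      · intro z hz
        obtain ⟨i, hi, hiz⟩ := (Gen.mem_iff h1).1 hz
        obtain ⟨x, hx⟩ := relN_exists' hFv (i := i) g.top_mem hiz
        obtain ⟨j, -, h2, -⟩ := (hRel x z).1 hx
        refine ⟨x, (den_onN hbv x).2 ⟨_, ?_, h2⟩, hx⟩
        exact ToType.mk.symm.lt_iff_lt.2 j.2
    have hs2 : SizeLe g.E bv o := sizeLe_col b.toOrd.2 hbv ho
    by_contra hcon
    push Not at hcon
    exact h g hg ![u 0, o] (den2 h0 ho)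
      (g.zfc.sizeLe_trans (g.zfc.sizeLe_of_sub hcon) (g.zfc.sizeLe_trans hs1 hs2))
  obtain ⟨σ, hσ⟩ := full (v := ![χ, s]) (R := fun _ E a => E (a 2) (a 0) ∧ ¬ E (a 2) (a 1))
    (.and (.mem _ _) (.not (.mem _ _))) h1
  rw [ext_vec2] at hσ
  subst hs
  exact ⟨σ, hσ⟩

theorem exists_pts {p : Cd} {χ : Name Cd}
    (h : Fc p ![χ, onN Cd (ω_ 1)] (fun _ E a => ¬ SizeLe E (a 0) (a 1))) :
    ∃ x : Kp → Name Cd, (∀ b, Fc p ![x b, χ] (fun _ E a => E (a 0) (a 1))) ∧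
      ∀ b b', b ≠ b' → Fc p ![x b, x b'] (fun _ _ a => a 0 ≠ a 1) := by
  choose st hst using step_pts h
  let x : Kp → Name Cd := (wellFounded_lt (α := Kp)).fix (fun b ih => st b (fun c => ih c c.2))
  have hx : ∀ b, x b = st b (fun c : Set.Iio b => x c) := fun b =>
    (wellFounded_lt (α := Kp)).fix_eq _ b
  have key : ∀ b, Fc p ![χ, Name.mk (Set.Iio b) (fun c => x c) (fun _ => ⊤), x b]
      (fun _ E a => E (a 2) (a 0) ∧ ¬ E (a 2) (a 1)) := by
    intro b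
    have h1 := hst b (fun c : Set.Iio b => x c)
    rw [← hx b] at h1
    exact h1
  have hne : ∀ b c, c < b → Fc p ![x b, x c] (fun _ _ a => a 0 ≠ a 1) := by
    intro b c hcb
    refine Fc.with_names (.not (.eq _ _))
      (L := {χ, Name.mk (Set.Iio b) (fun c => x c) (fun _ => ⊤)}) (by simp) ?_
    intro g hg hL u hu
    obtain ⟨X, hX⟩ := hL χ (by simp)
    obtain ⟨s, hs⟩ := hL (Name.mk (Set.Iio b) (fun c => x c) (fun _ => ⊤)) (by simp)
    have h0 : g.Den (x b) (u 0) := hu 0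
    have h1 : g.Den (x c) (u 1) := hu 1
    obtain ⟨-, h2⟩ := key b g hg ![X, s, u 0] (den3 hX hs h0)
    intro he
    have he' : u 0 = u 1 := he
    apply h2
    change g.E (u 0) s
    rw [he']
    exact (Gen.mem_iff hs).2 ⟨⟨c, hcb⟩, g.top_mem, h1⟩
  refine ⟨x, fun b => ?_, fun b b' hbb' => ?_⟩
  · refine Fc.with_names (.mem _ _)
      (L := {Name.mk (Set.Iio b) (fun c => x c) (fun _ => ⊤)}) (by simp) ?_
    intro g hg hL u hu
    obtain ⟨s, hs⟩ := hL (Name.mk (Set.Iio b) (fun c => x c) (fun _ => ⊤)) (by simp)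
    have h0 : g.Den (x b) (u 0) := hu 0
    have h1 : g.Den χ (u 1) := hu 1
    exact (key b g hg ![u 1, s, u 0] (den3 h1 hs h0)).1
  · rcases lt_or_gt_of_ne hbb' with h1 | h1
    · intro g hg u hu he
      have h0 : g.Den (x b) (u 0) := hu 0
      have h2 : g.Den (x b') (u 1) := hu 1
      have he' : u 0 = u 1 := he
      exact hne b' b h1 g hg ![u 1, u 0] (den2 h2 h0) he'.symm
    · exact hne b b' h1

end Pool.Agent.H16.HD
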