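import Pool.Agent.H16.HD.Claim
import Pool.Agent.H16.HD.CloA

/-!
# The combinatorial theorem behind the size bound (module HD-THMS)

`false_of_guess`: let `x b`, `b < κ`, describe functions from `ω₁` to `2`.  It is impossible that some `p` forces: for every
unbounded `N` there is `δ` such that all but countably many `x b` are not constant on `N ∩ δ`.

Proof.  (1) For `N : Set (Ix × Cd)`, `q : Cd` let `W N q` be the union of `q'.2.supp` and `E` for some chosen `q' ≤ q` and countable `E`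
with `∀ b ∉ E, Nc (x b) N q'` (if there are any, `∅` otherwise).  `exists_closedN` with `S₀ = p.2.supp` gives `R`.
So: (*) if `N` is countable, all its elements and `q` have support in `R` and for some `q' ≤ q` and countable `E`,
`∀ b ∉ E, Nc (x b) N q'`, then there are such `q'` with `InR R q'` and `E ⊆ R`.

(2) Let `b ∉ R` (`exists_notMem`), `dec` from `exists_dec` and `P : Pick R (x b)` (`exists_pick`).  By `exists_unb` and `unb_of_unbR`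
(`inR_of_mem_Nm`) there are `a, i, q ≤ p` with `InR R q` and `Unb (P.Nm a i) q`.

(3) By `hG` there are `q' ≤ q`, `δ`, `E` countable with `∀ b ∉ E, Nc (x b) {z ∈ P.Nm a i | z.1 < δ} q'`.  We may assume `δ ≤ q'.1.len`
(`Cl.exists_longer`, `Nc.mono`).  Let `φ = q'.1.br` and
`N = {z | ∃ η < δ, z = P.nd φ η ∧ P.ch φ η = a ∧ P.vl φ η = i}`, a countable set (image of a subset of `Set.Iio δ`,
`countable_lt`) all of whose elements have support in `R`.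
Claim: `Nc (x b') N q'` for `b' ∉ E`: given `j` and `r ≤ q'` take `r' ≤ r`, `z ∈ P.Nm a i` with `z.1 < δ`, `r' ≤ z.2`, `x b' z.1 j r'`;
`z = P.nd ψ η`.  Since `r'.1 ≤ (nq ψ η).1 ≤ ofBr ψ (sc η)` and `r'.1 ≤ q'.1` with `η < δ ≤ q'.1.len`, `ψ` and `φ` agree on all
`ζ ≤ η` (`Cl.le_iff`, `ofBr_br`), so by `node_congr` `z ∈ N`.

(4) Apply (*) to `N` and `(q'.1, mix R q'.2 ⊤)`, which has support in `R` (`supp_mix_top`); `q' ≤ (q'.1, mix R q'.2 ⊤)`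
(`le_mix_iff` with `s = ⊤`).  We get `q3 ≤ (q'.1, mix R q'.2 ⊤)` with `InR R q3` and `Nc (x b) N q3` (as `b ∉ R`).

(5) `N` is nonempty (by `Nc`), say with `η₀`; `keys a ⊆ (P.T φ η₀).supp`.  Let `t = ap a (P.T φ δ)`; `t ≤ P.T φ δ` by `ap_ch_le`.
Let `q4 = (q3.1, mix R q3.2 t)`.  `q4 ≤ q3` as `q3.2 = mix R q3.2 ⊤`.  By `Nc` for the value `!i` there are `q5 ≤ q4`, `z ∈ N` with
`q5 ≤ z.2`, `x b z.1 (!i) q5`; `z = P.nd φ η` with `η < δ`, `P.ch φ η = a`, `P.vl φ η = i`.  `mix R ⊤ q5.2 ≤ mix R ⊤ t = t` (`le_mix_iff`; the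
support of `t` is off `R`: `keys a` and `(P.T φ δ).supp` are, `mix_top_of_supp'`).  `node_le` with `ξ = δ` gives `q5 ≤ P.nq φ η` and
`x b η i (P.nq φ η)`, so `x b η i q5`, a contradiction to `XV.cons'`.
-/

set_option autoImplicit false

namespace Pool.Agent.H16.HD

open Pool.Agent.H90.Frc Cardinal Ordinal

theorem false_of_guess {p : Cd} {x : Kp → Ix → Bool → Cd → Prop} (hx : ∀ b, XV (x b))
    (hG : ∀ N : Set (Ix × Cd), ∀ q ≤ p, Unb N q → ∃ q' ≤ q, ∃ δ : Ix, ∃ E : Set Kp, E.Countable ∧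
      ∀ b ∉ E, Nc (x b) {z | z ∈ N ∧ z.1 < δ} q') : False := by
  classical
  -- (1) the closed set `R`
  have hW : ∀ (N : Set (Ix × Cd)) (q : Cd), ∃ W : Set Kp, W.Countable ∧
      ((∃ q' ≤ q, ∃ E : Set Kp, E.Countable ∧ ∀ b ∉ E, Nc (x b) N q') →
        ∃ q' ≤ q, ∃ E : Set Kp, q'.2.supp ⊆ W ∧ E ⊆ W ∧ ∀ b ∉ E, Nc (x b) N q') := by
    intro N q
    by_cases h : ∃ q' ≤ q, ∃ E : Set Kp, E.Countable ∧ ∀ b ∉ E, Nc (x b) N q'
    · obtain ⟨q', hq', E, hE, h'⟩ := h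
      exact ⟨q'.2.supp ∪ E, q'.2.hr.union hE, fun _ =>
        ⟨q', hq', E, Set.subset_union_left, Set.subset_union_right, h'⟩⟩
    · exact ⟨∅, Set.countable_empty, fun h' => absurd h' h⟩
  choose W hW1 hW2 using hW
  obtain ⟨R, hpR, hR, hcl⟩ := exists_closedN W hW1 (S₀ := p.2.supp) p.2.hr
  -- (2) the point and the tree
  obtain ⟨b, hb⟩ := exists_notMem hR
  obtain ⟨dec, hd1, hd2⟩ := exists_dec hR
  obtain ⟨P⟩ := exists_pick (R := R) (hx b) hd1 hd2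
  obtain ⟨a, i, q, hqp, hqR, hun⟩ := exists_unb P hpR
  have hun' : Unb (P.Nm a i) q := unb_of_unbR (fun z hz => P.inR_of_mem_Nm hz) hqR hun
  -- (3)
  obtain ⟨q₁, hq₁, δ, E, hE, hNc₁⟩ := hG (P.Nm a i) q hqp hun'
  obtain ⟨c, hc, hcδ⟩ := Cl.exists_longer q₁.1 δ
  let q' : Cd := (c, q₁.2)
  have hq'q₁ : q' ≤ q₁ := ⟨hc, le_rfl⟩
  let φ : Ix → Mu := c.br
  let N : Set (Ix × Cd) := {z | ∃ η < δ, z = P.nd φ η ∧ P.ch φ η = a ∧ P.vl φ η = i}
  have hNcount : N.Countable := by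
    refine ((countable_lt δ).image (P.nd φ)).mono ?_
    rintro z ⟨η, hη, rfl, -, -⟩
    exact ⟨η, hη, rfl⟩
  have hNR : ∀ z ∈ N, InR R z.2 := by
    rintro z ⟨η, -, hz, h1, h2⟩
    exact P.inR_of_mem_Nm (a := a) (i := i) ⟨φ, η, hz, h1, h2⟩
  have hNc : ∀ b' ∉ E, Nc (x b') N q' := by
    intro b' hb' j r hr
    obtain ⟨r', hr', z, ⟨⟨ψ, η, hz, h1, h2⟩, hzδ⟩, hrz, hxz⟩ := hNc₁ b' hb' j r (hr.trans hq'q₁)
    refine ⟨r', hr', z, ?_, hrz, hxz⟩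
    have hηδ : η < δ := by rw [hz] at hzδ; exact hzδ
    have hψ : r'.1 ≤ ofBr ψ (sc η) := by
      have h3 : r'.1 ≤ (P.nq ψ η).1 := by rw [hz] at hrz; exact hrz.1
      exact h3.trans (P.nq_le ψ η).1
    have hφ : r'.1 ≤ c := (hr'.trans hr).1
    have hag : ∀ ζ ≤ η, ψ ζ = φ ζ := by
      intro ζ hζ
      have h4 := (Cl.le_iff.1 hψ).2 ζ (lt_sc.2 hζ)
      have h5 := (Cl.le_iff.1 hφ).2 ζ ((hζ.trans_lt hηδ).trans_le hcδ)
      rw [ofBr_br ψ (lt_sc.2 hζ)] at h4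
      exact h4.symm.trans h5
    obtain ⟨e1, e2, e3⟩ := P.node_congr hag
    exact ⟨η, hηδ, by rw [hz, e1], by rw [← e2, h1], by rw [← e3, h2]⟩
  -- (4)
  let qR : Cd := (q'.1, mix R q'.2 ⊤)
  have hqR' : InR R qR := by
    change (mix R q'.2 ⊤).supp ⊆ R
    rw [supp_mix_top]
    exact Set.inter_subset_right
  have hq'R : q' ≤ qR := by
    refine ⟨le_rfl, ?_⟩
    have h1 : q'.2 ≤ mix R q'.2 ⊤ := by
      rw [le_mix_iff]
      exact ⟨le_rfl, mix_top_mono' le_top⟩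
    exact h1
  obtain ⟨q₃, hq₃, E', hE'1, hE'2, hE'3⟩ := hW2 N qR ⟨q', hq'R, E, hE, hNc⟩
  have hWR := hcl N hNcount hNR qR hqR'
  have hq₃R : InR R q₃ := hE'1.trans hWR
  have hbE' : b ∉ E' := fun h => hb (hWR (hE'2 h))
  have hNb : Nc (x b) N q₃ := hE'3 b hbE'
  -- (5)
  obtain ⟨-, -, z₀, ⟨η₀, hη₀, -, hch₀, -⟩, -, -⟩ := hNb true q₃ le_rfl
  let t : Pk := ap a (P.T φ δ)
  have ht : t ≤ P.T φ δ := by
    have := P.ap_ch_le φ hη₀
    rw [hch₀] at this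
    exact this
  have htR : mix R ⊤ t = t := by
    apply mix_top_of_supp'
    rw [Set.disjoint_left]
    intro j hj hjR
    have hT : (P.T φ δ).r j = [] :=
      Pk.eq_nil fun h => Set.disjoint_left.1 (tr_disjoint φ δ) h hjR
    have hk : j ∉ keys a := by
      intro hk
      rw [← hch₀] at hk
      exact Set.disjoint_left.1 (tr_disjoint φ η₀) (P.keys_ch φ η₀ hk) hjR
    apply hj
    change (ap a (P.T φ δ)).r j = []
    rw [ap_of_notMem hk, hT]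
  let q₄ : Cd := (q₃.1, mix R q₃.2 t)
  have hq₃' : q₃.2 = mix R q₃.2 ⊤ := (mix_top_of_supp hq₃R).symm
  have hq₄ : q₄ ≤ q₃ := by
    refine ⟨le_rfl, ?_⟩
    change mix R q₃.2 t ≤ q₃.2
    conv_rhs => rw [hq₃']
    exact mix_mono le_rfl (mix_top_mono' le_top)
  obtain ⟨q₅, hq₅, z, ⟨η, hη, hz, h1, h2⟩, hqz, hxz⟩ := hNb (!i) q₄ hq₄
  have h6 : mix R ⊤ q₅.2 ≤ ap (P.ch φ η) (P.T φ δ) := by
    rw [h1]
    have h7 : q₅.2 ≤ mix R q₃.2 t := hq₅.2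
    have h8 := (le_mix_iff.1 h7).2
    rw [htR] at h8
    exact h8
  obtain ⟨h9, h10⟩ := P.node_le φ hη (q := q₅) (by rw [← hz]; exact hqz) h6
  rw [h2] at h9
  have h11 : x b η i q₅ := (hx b).mono _ _ _ _ h9 h10
  rw [hz] at hxz
  exact (hx b).cons' h11 hxz

end Pool.Agent.H16.HD
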