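import Pool.Agent.H16.HD.Pts
import Pool.Agent.H16.HD.Gss
import Pool.Agent.H16.HD.ThmS
import Pool.Agent.H16.HD.Ord

/-!
# Every `HFC_w` space has size at most `ω₁`
-/

set_option autoImplicit false

namespace Pool.Agent.H16.HD

open Pool.Agent.H90.Frc Pool.Agent.H51.Hfc Ordinal Cardinal

variable {g : Gen Cd}

theorem sizeLe_gen {w o l X : g.M} (hC : Cx g w l X) (ho : g.Den (onN Cd (ω_ 1)) o)
    (hun : ¬ SizeLe g.E l w) : SizeLe g.E X o := by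
  by_contra hcon
  obtain ⟨lm, hlm⟩ := g.exists_den l
  obtain ⟨χ, hχ⟩ := g.exists_den X
  refine Gen.tp (v := ![onN Cd ω, lm, χ, onN Cd (ω_ 1)]) (a := ![w, l, X, o])
    (den4 hC.hw hlm hχ ho)
    (R := fun _ E a => (IsHFCw E (a 0) (a 1) (a 2) ∧ IsOrd E (a 1) ∧ IsSub E (a 3) (a 1)) ∧
      ¬ SizeLe E (a 2) (a 3))
    (.and (.and (dfn_isHFCw _ _ _) (.and (dfn_isOrd _) (dfn_isSub _ _)))
      (.not (dfn_sizeLe _ _))) (Dfn.const False) (fun p hp => ?_)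
    ⟨⟨hC.hX, hC.hl, omega1_sub hC.hw ho hC.hl hun⟩, hcon⟩
  exfalso
  have h1 : Fc p ![onN Cd ω, lm, χ, onN Cd (ω_ 1)] (fun _ E a => IsHFCw E (a 0) (a 1) (a 2) ∧
      IsOrd E (a 1) ∧ IsSub E (a 3) (a 1)) := hp.imp fun _ _ _ h => h.1
  have h2 : Fc p ![χ, onN Cd (ω_ 1)] (fun _ E a => ¬ SizeLe E (a 0) (a 1)) := by
    refine Fc.with_names (.not (dfn_sizeLe _ _)) (L := {onN Cd ω, lm}) (by simp) ?_
    intro g' hg' hL a ha
    obtain ⟨w', hw'⟩ := hL (onN Cd ω) (by simp)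
    obtain ⟨l', hl'⟩ := hL lm (by simp)
    have := hp g' hg' ![w', l', a 0, a 1] (den4 hw' hl' (ha 0) (ha 1))
    exact this.2
  obtain ⟨x, hx1, hx2⟩ := exists_pts h2
  exact false_of_guess (x := fun b => xv (x b)) (fun b => xV_xv (x b))
    (fun N q hq hN => guess h1 hx1 hx2 N hq hN)

end Pool.Agent.H16.HD
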