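import Pool.Agent.H16.HD.Poset

/-!
# The tree of conditions off `R` (module HD-TREE)

`stp : Ix → Cl → Pk → Pk` is an arbitrary function.  For a branch `φ : Ix → Mu` the conditions `Tr R stp φ ξ` with support
off `R` are horizontally decreasing in `ξ`, and `Tr R stp φ ξ` depends only on `φ` below `ξ`.

Write `T ξ = Tr R stp φ ξ` and `N η = nx R stp φ η (T η) = hz R (T η) (stp η (ofBr φ (sc η)) (T η))`; by definition
`T ξ = ⋃ η < ξ, N η` (`Tr_def`).  By strong induction on `ξ` one proves simultaneously: `Hle (N η') (N η)` for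
`η ≤ η' < ξ`.  For `η < η'`: `Hle (N η') (T η')` by `hz_hle` (the support of `T η'` is off `R`), and `Hle (T η') (N η)` by
`supP_hle` (the family `N ζ`, `ζ < η'`, is a chain by induction).  Then `tr_hle_nx` is `supP_hle`, and `tr_hle` follows
(for `η < ξ`: `T ξ ≤ N η ≤ T η`).
`tr_congr`: strong induction on `ξ`: if `φ = ψ` below `ξ` then for `η < ξ` the conditions `ofBr φ (sc η)`, `ofBr ψ (sc η)` are
equal (`ofBr_congr`, `lt_sc`), and `T η` are equal by induction.
`tr_supp`: `(T ξ).supp = ⋃ η < ξ, (N η).supp` (`supP_supp`); if `ξ = lub f` with `f` strictly increasing and `η < ξ` then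
`η < f n` for some `n` (`lt_lub`), and `(N η).supp ⊆ (T (f n)).supp` by `tr_hle_nx` and `Hle.supp`.
-/

set_option autoImplicit false

namespace Pool.Agent.H16.HD

open Pool.Agent.H90.Frc Cardinal Ordinal

open Classical in
/-- the values of `s` on its support, those of `ρ` elsewhere off `R` -/
noncomputable def hz (R : Set Kp) (s ρ : Pk) : Pk where
  r i := if i ∈ R then [] else if s.r i ≠ [] then s.r i else ρ.r i
  hr := by
    refine (s.hr.union ρ.hr).mono ?_
    intro i hi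
    simp only [Set.mem_ofPred_eq] at hi
    by_cases h : i ∈ R
    · rw [if_pos h] at hi
      exact absurd rfl hi
    · rw [if_neg h] at hi
      by_cases h' : s.r i ≠ []
      · exact Or.inl h'
      · rw [if_neg h'] at hi
        exact Or.inr hi

theorem hz_of_mem {R : Set Kp} {s ρ : Pk} {i : Kp} (h : i ∈ R) : (hz R s ρ).r i = [] := if_pos h

theorem hz_of_supp {R : Set Kp} {s ρ : Pk} {i : Kp} (h : i ∉ R) (h' : s.r i ≠ []) :
    (hz R s ρ).r i = s.r i := (if_neg h).trans (if_pos h')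

theorem hz_of_nil {R : Set Kp} {s ρ : Pk} {i : Kp} (h : i ∉ R) (h' : s.r i = []) :
    (hz R s ρ).r i = ρ.r i := (if_neg h).trans (if_neg (not_not.2 h'))

theorem hz_hle {R : Set Kp} {s ρ : Pk} (h : Disjoint s.supp R) : Hle (hz R s ρ) s := by
  intro i hi
  exact hz_of_supp (fun hR => Set.disjoint_left.1 h hi hR) hi

theorem hz_supp_disjoint (R : Set Kp) (s ρ : Pk) : Disjoint (hz R s ρ).supp R := by
  rw [Set.disjoint_left]
  intro i hi hR
  exact hi (hz_of_mem hR)

instance (ξ : Ix) : Countable (Set.Iio ξ) := (countable_lt ξ).to_subtype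

/-- the conditions along a branch -/
noncomputable def Tr (R : Set Kp) (stp : Ix → Cl → Pk → Pk) (φ : Ix → Mu) (ξ : Ix) : Pk :=
  supP (fun η : Set.Iio ξ => hz R (Tr R stp φ η) (stp η (ofBr φ (sc η)) (Tr R stp φ η)))
termination_by ξ
decreasing_by exact η.2

/-- the successor step -/
noncomputable def nx (R : Set Kp) (stp : Ix → Cl → Pk → Pk) (φ : Ix → Mu) (η : Ix) : Pk :=
  hz R (Tr R stp φ η) (stp η (ofBr φ (sc η)) (Tr R stp φ η))

theorem tr_def (R : Set Kp) (stp : Ix → Cl → Pk → Pk) (φ : Ix → Mu) (ξ : Ix) :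
    Tr R stp φ ξ = supP (fun η : Set.Iio ξ => nx R stp φ η) := by
  unfold nx
  conv_lhs => unfold Tr

variable {R : Set Kp} {stp : Ix → Cl → Pk → Pk}

theorem tr_disjoint (φ : Ix → Mu) (ξ : Ix) : Disjoint (Tr R stp φ ξ).supp R := by
  rw [tr_def, supP_supp, Set.disjoint_iUnion_left]
  exact fun η => hz_supp_disjoint _ _ _

theorem nx_hle_tr (φ : Ix → Mu) (η : Ix) : Hle (nx R stp φ η) (Tr R stp φ η) :=
  hz_hle (tr_disjoint φ η)

theorem nx_chain (φ : Ix → Mu) (ξ : Ix) : ∀ η < ξ, Hle (nx R stp φ ξ) (nx R stp φ η) := by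
  induction ξ using WellFoundedLT.induction with
  | _ ξ ih =>
    intro η hη
    refine (nx_hle_tr φ ξ).trans ?_
    rw [tr_def]
    refine supP_hle (f := fun η : Set.Iio ξ => nx R stp φ η) ?_ ⟨η, hη⟩
    rintro ⟨i, hi⟩ ⟨j, hj⟩
    rcases lt_trichotomy i j with h | h | h
    · exact Or.inr (ih j hj i h)
    · subst h
      exact Or.inl (Hle.refl _)
    · exact Or.inl (ih i hi j h)

theorem tr_hle_nx (φ : Ix → Mu) {η ξ : Ix} (h : η < ξ) : Hle (Tr R stp φ ξ) (nx R stp φ η) := by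
  rw [tr_def]
  refine supP_hle (f := fun η : Set.Iio ξ => nx R stp φ η) ?_ ⟨η, h⟩
  rintro ⟨i, hi⟩ ⟨j, hj⟩
  rcases lt_trichotomy i j with h | h | h
  · exact Or.inr (nx_chain φ j i h)
  · subst h
    exact Or.inl (Hle.refl _)
  · exact Or.inl (nx_chain φ i j h)

theorem tr_hle (φ : Ix → Mu) {η ξ : Ix} (h : η ≤ ξ) : Hle (Tr R stp φ ξ) (Tr R stp φ η) := by
  rcases h.lt_or_eq with h | rfl
  · exact (tr_hle_nx φ h).trans (hz_hle (tr_disjoint φ η))
  · exact Hle.refl _

theorem tr_congr {φ ψ : Ix → Mu} {ξ : Ix} (h : ∀ ζ < ξ, φ ζ = ψ ζ) :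
    Tr R stp φ ξ = Tr R stp ψ ξ := by
  induction ξ using WellFoundedLT.induction with
  | _ ξ ih =>
    rw [tr_def, tr_def]
    congr 1
    funext η
    have h1 : Tr R stp φ η = Tr R stp ψ η := ih η η.2 fun ζ hζ => h ζ (hζ.trans η.2)
    have h2 : ofBr φ (sc η) = ofBr ψ (sc η) :=
      ofBr_congr fun ζ hζ => h ζ ((lt_sc.1 hζ).trans_lt η.2)
    rw [nx, nx, h1, h2]

theorem tr_supp (φ : Ix → Mu) {f : ℕ → Ix} (hf : StrictMono f) :
    (Tr R stp φ (lub f)).supp ⊆ ⋃ n, (Tr R stp φ (f n)).supp := by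
  rw [tr_def, supP_supp]
  refine Set.iUnion_subset ?_
  rintro ⟨η, hη⟩
  obtain ⟨n, hn⟩ := lt_lub.1 hη
  exact ((tr_hle_nx φ hn).supp).trans (Set.subset_iUnion (fun n => (Tr R stp φ (f n)).supp) n)

end Pool.Agent.H16.HD
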